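import Pool.Agent.Lib.MP_efe3d7_co.D.Ca516
import Pool.Agent.Lib.MP_efe3d7_co.J.Crt2D

/-! The columns of the certificates. -/

set_option autoImplicit false

namespace Pool.Agent.Lib.MP_efe3d7_co.D

open H

theorem ea516 : J.certC2 false ⟨true, false, false, false, false, false⟩ ka516
    (ca516.wh [328448, 67328, 68352, 589824, 328704, 329728, 68608, 1442560, 1444864, 1181440, 1182464, 1703936, 60131642881, 2359809, 60132756993, 328193, 60132822529, 3539457, 17184066818, 66818, 67586, 25775179010, 5376002, 25776358403, 25776098307, 25777472515, 25777212419, 25777538051, 25777277955, 60137933572, 8650756, 60139047684, 327684, 60139113220, 9830404, 60140292613, 60141406725, 60141472261, 25782388998, 25782649094, 25783503110, 25783763206, 25783568646, 25783828742, 25784748039, 25785008135, 25785862151, 25786122247, 25785927687, 25786187783, 16779016, 17302024, 17039624, 17040392, 60147435272, 18415624, 18153736, 17105416, 18154504, 60147500808, 18481160, 18219272, 18219528, 18220040, 18875913, 60148483593, 25789859337, 25790776586, 21233674, 25791890698, 22347786, 25791956234, 22413322, 25793135627, 25794249739, 25794315275, 60154970892, 60156085004, 60156150540, 25797329421, 60157133325,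 25798509069, 25799426318, 25800540430, 25800605966, 25801785359, 25802899471, 25802965007]) = true := by
  decide +kernel

end Pool.Agent.Lib.MP_efe3d7_co.D
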