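import Pool.Agent.Lib.MP_efe3d7_co.D.Tab

/-! Case trees. -/

set_option autoImplicit false

namespace Pool.Agent.Lib.MP_efe3d7_co.D

open H

/-- Trees. -/
noncomputable def tr379 : List J.Tr := [
  (.adj 1 3 (.ref 357 16) (.typ 1 3 (.loc 3 (.adj 2 3 (.ref 336 561) (.deg 3 (.con 7 9) (.ref 237 259))) (.ref 237 259)) (.ref 127 561))),
  (.typ 1 2 (.adj 1 3 (.ref 379 8976) (.typ 1 3 (.ref 143 306) (.ref 127 561))) (.ref 127 801)),
  (.adj 1 2 (.ref 379 12816) (.ref 380 12816)),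
  (.loc 2 (.ref 381 12576) (.loc 3 (.ref 381 8496) (.con 17 1))),
  (.loc 1 (.ref 381 12816) (.ref 382 12816)),
  (.exp 1 (.con 7 3)),
  (.deg 1 (.con 7 3) (.typ 1 2 (.ref 342 801) (.ref 337 531))),
  (.deg 1 (.ref 384 12816) (.deg 2 (.loc 2 (.ref 384 12576) (.con 2 0)) (.ref 347 531))),
  (.adj 2 1 (.ref 386 12816) (.ref 385 12816)),
  (.deg 1 (.adj 1 2 (.ref 384 12816) (.con 7 3)) (.ref 342 291)),
  (.typ 3 2 (.ref 388 12816) (.ref 387 12816)),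
  (.adj 1 4 (.ref 296 5426) (.typ 1 4 (.ref 16 65) (.ref 134 2118705))),
  (.loc 2 (.door 2 (.con 6 1) (.fbd 1 2 (.ref 357 18) (.con 0 1))) (.con 6 1)),
  (.prm 1 (.ref 391 17168)),
  (.typ 3 4 (.ref 87 4930) (.door 4 (.ref 392 12354) (.ref 158 16945))),
  (.typ 1 4 (.ref 368 5123) (.typ 3 4 (.ref 70 5123) (.loc 3 (.ref 218 73780) (.loc 4 (.ref 87 82720) (.deg 4 (.con 2 1) (.ref 100 74500)))))),
  (.fbd 4 2 (.ref 167 82480) (.ref 394 344865)),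
  (.loc 4 (.door 4 (.con 6 2) (.fbd 2 4 (.ref 193 82480) (.con 0 2))) (.con 6 2)),
  (.prm 2 (.ref 396 5517840)),
  (.door 2 (.ref 397 274960) (.ref 395 274960)),
  (.adj 3 5 (.ref 214 1107780883) (.typ 3 5 (.ref 398 217124) (.ref 158 21041))),
  (.adj 3 5 (.ref 251 4354149) (.typ 3 5 (.ref 398 217124) (.adj 3 6 (.ref 350 21346) (.door 6 (.con 15 3) (.typ 3 6 (.ref 59 21091) (.ref 145 86008851)))))),
  (.adj 3 5 (.ref 251 4354149) (.typ 3 5 (.ref 398 217124) (.door 6 (.ref 400 324035188) (.adj 3 6 (.ref 319 21091) (.typ 3 6 (.ref 59 21091) (.ref 145 86008851)))))),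
  (.adj 3 5 (.ref 401 1985221168) (.typ 3 5 (.ref 398 217124) (.ref 158 21041))),
  (.loc 6 (.ref 402 1985229328) (.ref 399 1985229328)),
  (.adj 5 7 (.fbd 4 5 (.typ 4 7 (.ref 368 18214) (.typ 6 7 (.ref 70 18214) (.loc 6 (.ref 402 1985229328) (.loc 7 (.ref 393 352884) (.deg 7 (.con 2 4) (.door 1 (.con 5 0) (.adj 1 5 (.ref 403 1985229328) (.typ 1 5 (.ref 398 86052) (.adj 1 6 (.ref 319 21014) (.typ 1 6 (.ref 59 21014) (.ref 393 287253))))))))))) (.con 0 4)) (.con 7 48))]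

theorem tc379 : J.chkL tL tr379 379 = true := by decide +kernel

/-- Trees. -/
noncomputable def tr405 : List J.Tr := [
  (.fbd 6 4 (.ref 103 156752) (.ref 404 1985229328)),
  (.fbd 4 5 (.ref 157 33965361) (.con 7 48)),
  (.adj 3 6 (.typ 3 5 (.ref 87 4946) (.ref 207 21346)) (.con 7 96)),
  (.adj 5 7 (.adj 6 7 (.typ 4 7 (.ref 135 1107780913) (.ref 207 18274)) (.con 7 80)) (.con 7 48)),
  (.exp 4 (.ref 408 1985229328)),
  (.adj 5 3 (.ref 409 106181136) (.ref 407 106181136)),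
  (.typ 5 6 (.loc 6 (.deg 6 (.adj 1 5 (.ref 410 106181136) (.adj 1 6 (.typ 1 5 (.ref 398 86052) (.ref 207 20834)) (.con 7 96))) (.ref 406 106172976)) (.ref 406 106172976)) (.ref 398 410912)),
  (.typ 4 6 (.ref 411 106181136) (.door 4 (.ref 392 25922) (.typ 5 6 (.ref 398 414752) (.ref 405 106181136)))),
  (.fbd 4 5 (.ref 330 2114835) (.ref 412 106181136)),
  (.fbd 4 3 (.ref 128 82480) (.loc 5 (.con 0 4) (.con 6 3))),
  (.prm 1 (.ref 391 12816)),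
  (.fbd 4 2 (.ref 167 82480) (.con 7 20)),
  (.loc 7 (.door 7 (.con 6 5) (.typ 5 7 (.typ 4 7 (.ref 135 1376154673) (.deg 7 (.ref 416 480288) (.ref 276 22130))) (.ref 356 22130))) (.con 6 5)),
  (.fbd 5 4 (.ref 330 2118705) (.ref 417 1985229328)),
  (.loc 6 (.door 6 (.con 5 0) (.fbd 1 6 (.typ 4 6 (.ref 288 16726) (.ref 356 17761)) (.con 0 1))) (.con 5 0)),
  (.fbd 7 8 (.ref 58 1107789105) (.loc 9 (.con 0 7) (.con 5 0))),
  (.loc 9 (.typ 5 9 (.adj 3 9 (.ref 420 40387293712) (.deg 9 (.con 7 768) (.ref 276 22162))) (.ref 415 2386)) (.con 6 5)),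
  (.exp 4 (.ref 419 106181136)),
  (.fbd 8 5 (.ref 422 3700034) (.ref 421 654820258320)),
  (.adj 5 8 (.typ 3 8 (.adj 1 8 (.ref 423 36344967696) (.ref 419 20477250)) (.ref 158 33329)) (.con 17 304)),
  (.adj 8 3 (.ref 420 36344967696) (.ref 424 36344967696)),
  (.loc 8 (.door 8 (.con 6 4) (.fbd 2 8 (.typ 4 8 (.deg 8 (.ref 425 36344967696) (.ref 276 18306)) (.ref 415 2114)) (.con 0 2))) (.con 6 4)),
  (.exp 4 (.ref 426 36344967696)),
  (.fbd 2 7 (.typ 4 7 (.ref 427 1985229328) (.ref 414 476448)) (.con 0 2)),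
  (.prm 4 (.ref 428 1985229328)),
  (.adj 5 1 (.door 4 (.ref 429 106181136) (.ref 418 106172976)) (.typ 1 5 (.ref 398 86052) (.ref 415 338))),
  (.adj 3 5 (.fbd 2 6 (.typ 5 6 (.ref 430 106181136) (.ref 414 414752)) (.con 0 2)) (.con 6 5)),
  (.prm 5 (.ref 431 106181136)),
  (.deg 5 (.loc 5 (.door 2 (.con 3 2) (.door 5 (.ref 432 5517840) (.ref 413 5517840))) (.ref 233 21281)) (.ref 171 2118705))]

theorem tc405 : J.chkL tL tr405 405 = true := by decide +kernel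

/-- Trees. -/
noncomputable def tr434 : List J.Tr := [
  (.typ 1 4 (.ref 219 16915) (.door 4 (.ref 415 322) (.deg 5 (.loc 5 (.door 2 (.con 3 2) (.adj 3 5 (.adj 1 5 (.ref 433 4534800) (.typ 1 5 (.ref 395 86052) (.ref 179 2118675))) (.ref 393 340496))) (.ref 233 21281)) (.ref 85 2114835)))),
  (.adj 4 1 (.ref 433 5517840) (.ref 434 5517840)),
  (.adj 3 4 (.adj 4 5 (.ref 435 5517840) (.ref 384 20546)) (.ref 393 274960)),
  (.deg 5 (.loc 5 (.ref 436 4534800) (.ref 390 5517840)) (.ref 165 2118705)),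
  (.deg 4 (.ref 436 5517840) (.ref 437 5517840)),
  (.fbd 1 2 (.fbd 0 5 (.typ 2 5 (.ref 438 5517840) (.ref 368 9221)) (.con 0 0)) (.con 0 2)),
  (.exp 2 (.ref 439 5517840)),
  (.fbd 0 5 (.typ 2 5 (.loc 5 (.ref 440 340496) (.door 2 (.con 6 2) (.deg 5 (.con 2 2) (.ref 165 2118705)))) (.ref 267 9296)) (.con 0 0)),
  (.exp 2 (.ref 441 5517840)),
  (.loc 4 (.ref 440 274960) (.deg 4 (.ref 233 17185) (.ref 442 274960))),
  (.fbd 0 5 (.typ 2 5 (.ref 443 340496) (.typ 4 5 (.ref 70 9476) (.adj 1 4 (.ref 46 2114835) (.deg 4 (.con 7 20) (.typ 1 4 (.ref 16 65) (.ref 345 2118705)))))) (.con 0 0)),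
  (.fbd 0 5 (.typ 2 5 (.ref 443 340496) (.adj 4 5 (.ref 253 9476) (.loc 5 (.ref 444 4534800) (.door 2 (.con 6 2) (.deg 5 (.con 2 2) (.typ 4 5 (.ref 70 9476) (.adj 3 4 (.ref 169 2118705) (.typ 3 4 (.ref 39 2118705) (.adj 3 5 (.ref 169 2114865) (.typ 3 5 (.ref 39 2114865) (.ref 119 2118705))))))))))) (.con 0 0)),
  (.exp 2 (.ref 445 5517840)),
  (.fbd 4 2 (.ref 357 66) (.ref 444 5517840)),
  (.loc 4 (.door 2 (.ref 415 1056) (.ref 447 274960)) (.deg 4 (.ref 221 17185) (.ref 446 274960))),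
  (.typ 4 2 (.ref 443 274960) (.ref 448 274960)),
  (.exp 2 (.fbd 0 4 (.ref 449 274960) (.con 0 0))),
  (.fbd 4 5 (.loc 6 (.ref 251 144660) (.typ 1 6 (.ref 16 22) (.typ 4 6 (.ref 32 67139) (.ref 145 69231921)))) (.con 0 4)),
  (.fbd 4 1 (.ref 222 16675) (.ref 451 106181136)),
  (.adj 1 6 (.fbd 5 6 (.ref 222 284199) (.con 0 5)) (.con 7 35)),
  (.adj 5 7 (.fbd 4 5 (.typ 4 7 (.ref 368 18214) (.typ 6 7 (.ref 70 18214) (.adj 1 5 (.ref 403 1985229328) (.ref 453 1985229328)))) (.con 0 4)) (.con 7 48)),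
  (.fbd 6 4 (.ref 103 156752) (.ref 454 1985229328)),
  (.door 4 (.ref 392 25922) (.typ 5 6 (.ref 398 414752) (.ref 455 106181136)))]

theorem tc434 : J.chkL tL tr434 434 = true := by decide +kernel

/-- Trees. -/
noncomputable def tr457 : List J.Tr := [
  (.typ 6 4 (.ref 411 106181136) (.ref 456 106181136)),
  (.fbd 4 5 (.ref 330 2114835) (.ref 457 106181136)),
  (.door 5 (.ref 432 5517840) (.ref 458 5517840)),
  (.deg 5 (.loc 5 (.door 2 (.con 3 2) (.ref 459 5517840)) (.ref 296 5426)) (.ref 171 2118705)),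
  (.adj 4 3 (.ref 460 5517840) (.ref 393 274960)),
  (.adj 3 4 (.typ 1 4 (.ref 219 16915) (.door 4 (.ref 415 322) (.adj 1 5 (.deg 5 (.loc 5 (.ref 461 4534800) (.ref 452 5517840)) (.ref 85 2114835)) (.con 7 7)))) (.con 7 17)),
  (.adj 4 1 (.ref 461 5517840) (.ref 462 5517840)),
  (.adj 3 5 (.adj 1 5 (.ref 276 9536) (.adj 4 5 (.ref 463 4534800) (.con 7 36))) (.ref 393 340496)),
  (.loc 5 (.ref 464 5517840) (.ref 390 5517840)),
  (.deg 4 (.adj 4 5 (.ref 463 5517840) (.ref 384 20546)) (.deg 5 (.ref 465 5517840) (.ref 165 2118705))),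
  (.fbd 1 2 (.fbd 0 5 (.typ 2 5 (.ref 466 5517840) (.ref 368 9221)) (.con 0 0)) (.con 0 2)),
  (.exp 2 (.ref 467 5517840)),
  (.loc 5 (.fbd 0 5 (.typ 2 5 (.ref 468 340496) (.ref 415 1312)) (.con 0 0)) (.con 6 2)),
  (.fbd 0 5 (.door 2 (.ref 469 5517840) (.typ 2 5 (.loc 5 (.ref 468 340496) (.deg 5 (.con 2 2) (.ref 165 2118705))) (.ref 267 9296))) (.con 0 0)),
  (.exp 2 (.ref 470 5517840)),
  (.fbd 1 2 (.ref 296 5170) (.ref 469 5517840)),
  (.deg 4 (.door 2 (.ref 472 274960) (.con 2 2)) (.ref 471 274960)),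
  (.loc 4 (.ref 468 274960) (.ref 473 274960)),
  (.fbd 0 5 (.typ 2 5 (.ref 474 340496) (.typ 4 5 (.ref 70 9476) (.adj 1 4 (.ref 46 2114835) (.deg 4 (.con 7 20) (.typ 1 4 (.ref 16 65) (.ref 345 2118705)))))) (.con 0 0)),
  (.fbd 4 2 (.ref 357 66) (.ref 475 5517840)),
  (.fbd 0 5 (.door 2 (.ref 469 5517840) (.typ 2 5 (.ref 474 340496) (.loc 5 (.ref 476 340496) (.deg 5 (.con 2 2) (.adj 4 5 (.ref 253 9476) (.typ 4 5 (.ref 70 9476) (.adj 3 4 (.ref 169 2118705) (.typ 3 4 (.ref 39 2118705) (.adj 3 5 (.ref 169 2114865) (.typ 3 5 (.ref 39 2114865) (.ref 119 2118705))))))))))) (.con 0 0)),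
  (.exp 2 (.ref 477 5517840)),
  (.fbd 4 2 (.ref 261 17185) (.ref 469 5517840)),
  (.deg 4 (.door 2 (.ref 479 274960) (.con 2 2)) (.ref 478 274960)),
  (.loc 4 (.door 2 (.ref 415 1056) (.ref 476 274960)) (.ref 480 274960)),
  (.typ 4 2 (.ref 474 274960) (.ref 481 274960)),
  (.exp 2 (.fbd 0 4 (.ref 482 274960) (.con 0 0)))]

theorem tc457 : J.chkL tL tr457 457 = true := by decide +kernel

/-- Trees. -/
noncomputable def tr484 : List J.Tr := [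
  (.deg 1 (.ref 483 12816) (.ref 450 12816)),
  (.adj 1 2 (.deg 1 (.ref 384 12816) (.ref 484 12816)) (.ref 384 4896)),
  (.adj 3 4 (.ref 198 143700) (.typ 3 4 (.ref 374 67) (.ref 60 2114835))),
  (.adj 1 5 (.ref 486 5517840) (.typ 1 5 (.ref 374 81) (.ref 60 2118705))),
  (.adj 1 4 (.ref 487 5517840) (.typ 1 4 (.ref 374 65) (.ref 60 2114865))),
  (.fbd 4 5 (.loc 6 (.ref 251 144660) (.typ 1 6 (.ref 374 97) (.typ 4 6 (.ref 356 17938) (.ref 233 284193)))) (.con 0 4)),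
  (.fbd 4 1 (.ref 222 16675) (.ref 489 106181136)),
  (.adj 3 5 (.typ 1 5 (.ref 87 12626) (.ref 490 4534800)) (.con 7 33)),
  (.loc 5 (.door 5 (.con 17 38) (.fbd 1 5 (.typ 2 5 (.ref 368 9492) (.typ 4 5 (.ref 59 8532) (.ref 362 152625))) (.con 0 1))) (.con 17 6)),
  (.fbd 4 2 (.ref 103 82480) (.ref 492 5517840)),
  (.fbd 4 5 (.ref 303 33965331) (.loc 7 (.con 0 5) (.con 17 20))),
  (.typ 6 4 (.ref 494 106181136) (.ref 493 414752)),
  (.loc 4 (.door 4 (.con 17 19) (.typ 1 4 (.ref 368 5123) (.typ 3 4 (.ref 59 4163) (.ref 87 82720)))) (.con 17 3)),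
  (.fbd 4 2 (.ref 167 82480) (.ref 496 344865)),
  (.fbd 4 5 (.ref 316 33965361) (.loc 7 (.con 0 5) (.con 17 20))),
  (.typ 6 4 (.ref 498 106181136) (.ref 497 414752)),
  (.typ 6 5 (.ref 499 106181136) (.ref 495 106181136)),
  (.fbd 4 5 (.ref 74 2114865) (.loc 6 (.con 0 5) (.ref 500 106181136))),
  (.door 2 (.door 4 (.con 6 2) (.ref 501 5517840)) (.con 2 2)),
  (.adj 1 5 (.ref 214 1107780913) (.typ 1 5 (.ref 398 86052) (.adj 1 6 (.ref 319 21014) (.typ 1 6 (.ref 59 21014) (.ref 257 86249575))))),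
  (.adj 5 1 (.ref 401 1985229328) (.ref 401 1985221168)),
  (.loc 6 (.ref 504 1985229328) (.adj 1 5 (.ref 503 1985221168) (.ref 503 1985229328))),
  (.adj 5 7 (.fbd 4 5 (.typ 4 7 (.ref 368 18214) (.typ 6 7 (.ref 70 18214) (.ref 505 1985229328))) (.con 0 4)) (.con 7 48)),
  (.fbd 6 4 (.ref 103 156752) (.ref 506 1985229328)),
  (.adj 5 1 (.ref 410 106181136) (.ref 410 106172976)),
  (.deg 6 (.loc 6 (.ref 508 106181136) (.con 0 6)) (.ref 406 106181136)),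
  (.typ 6 4 (.ref 509 106181136) (.ref 398 414752)),
  (.typ 5 6 (.ref 510 106181136) (.typ 4 6 (.ref 398 410912) (.door 4 (.ref 392 25922) (.ref 507 106181136)))),
  (.fbd 4 5 (.ref 330 2114865) (.ref 511 106181136)),
  (.loc 7 (.door 7 (.con 5 0) (.fbd 1 7 (.typ 4 7 (.ref 368 18198) (.typ 6 7 (.ref 59 16758) (.ref 362 292433))) (.con 0 1))) (.con 5 0))]

theorem tc484 : J.chkL tL tr484 484 = true := by decide +kernel

/-- Trees. -/
noncomputable def tr514 : List J.Tr := [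
  (.fbd 6 4 (.ref 103 91216) (.ref 513 1985229328)),
  (.loc 6 (.door 6 (.con 5 0) (.typ 3 6 (.ref 368 13829) (.typ 5 6 (.ref 59 12389) (.ref 87 222528)))) (.con 5 0)),
  (.fbd 6 4 (.ref 167 91216) (.ref 515 124076833)),
  (.fbd 6 9 (.ref 83 1376162865) (.loc 10 (.con 0 6) (.con 5 0))),
  (.adj 10 9 (.ref 517 727834702352) (.adj 8 10 (.ref 422 9991490) (.con 7 1280))),
  (.loc 10 (.fbd 5 8 (.typ 5 10 (.deg 10 (.ref 518 11649936536080) (.ref 276 22178)) (.ref 415 2642)) (.con 0 5)) (.con 6 5)),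
  (.exp 5 (.ref 519 11649936536080)),
  (.typ 9 8 (.ref 520 654820258320) (.typ 7 9 (.ref 516 158885186) (.ref 514 158885186))),
  (.loc 9 (.con 0 7) (.adj 5 8 (.adj 5 9 (.ref 521 654820258320) (.con 6 5)) (.con 17 304))),
  (.fbd 7 8 (.ref 83 1107789105) (.ref 522 654820258320)),
  (.loc 8 (.door 8 (.con 6 4) (.fbd 2 8 (.typ 4 8 (.deg 8 (.ref 523 36344967696) (.ref 276 18306)) (.ref 415 2114)) (.con 0 2))) (.con 6 4)),
  (.exp 4 (.ref 524 36344967696)),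
  (.fbd 2 7 (.typ 4 7 (.ref 525 1985229328) (.ref 414 476448)) (.con 0 2)),
  (.prm 4 (.ref 526 1985229328)),
  (.adj 5 3 (.door 4 (.ref 527 106181136) (.ref 418 106181136)) (.typ 3 5 (.ref 398 217124) (.ref 415 850))),
  (.adj 5 1 (.ref 528 106181136) (.ref 528 106172976)),
  (.fbd 2 6 (.typ 5 6 (.ref 529 106181136) (.ref 414 414752)) (.con 0 2)),
  (.prm 5 (.ref 530 106181136)),
  (.loc 5 (.door 2 (.con 3 2) (.adj 4 5 (.door 5 (.ref 531 5517840) (.ref 512 5517840)) (.ref 384 20546))) (.ref 502 5517840)),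
  (.loc 5 (.door 2 (.door 5 (.con 6 2) (.adj 1 5 (.adj 3 5 (.ref 532 4534800) (.ref 491 5509680)) (.ref 491 5517840))) (.con 2 2)) (.con 4 2)),
  (.loc 4 (.ref 532 5517840) (.ref 533 5517840)),
  (.adj 4 6 (.fbd 4 5 (.ref 251 144405) (.con 0 5)) (.con 7 53)),
  (.fbd 5 1 (.ref 222 20771) (.ref 535 106181136)),
  (.adj 3 5 (.typ 1 5 (.ref 398 86052) (.door 5 (.ref 415 338) (.ref 536 5517840))) (.con 7 33)),
  (.adj 3 5 (.ref 534 4534800) (.typ 3 5 (.ref 395 217124) (.ref 179 2118705))),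
  (.adj 5 1 (.ref 538 5517840) (.ref 537 5517840)),
  (.loc 4 (.adj 4 5 (.typ 3 4 (.ref 87 4930) (.door 4 (.ref 415 834) (.deg 5 (.loc 5 (.door 2 (.con 3 2) (.ref 539 5517840)) (.ref 534 4534800)) (.ref 85 2114865)))) (.con 7 20)) (.con 0 4)),
  (.adj 4 3 (.deg 5 (.ref 534 5517840) (.ref 171 2118705)) (.ref 540 5517840))]

theorem tc514 : J.chkL tL tr514 514 = true := by decide +kernel

/-- Trees. -/
noncomputable def tr542 : List J.Tr := [
  (.loc 4 (.adj 3 4 (.ref 541 5509680) (.con 7 17)) (.con 0 4)),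
  (.adj 4 1 (.ref 541 5517840) (.ref 542 5517840)),
  (.deg 4 (.ref 543 5517840) (.deg 5 (.ref 543 4534800) (.ref 165 2118705))),
  (.fbd 0 5 (.typ 2 5 (.ref 544 5517840) (.ref 368 9221)) (.con 0 0)),
  (.exp 2 (.ref 545 5517840)),
  (.fbd 0 5 (.typ 2 5 (.ref 546 340496) (.typ 4 5 (.ref 70 9476) (.adj 1 4 (.ref 46 2114835) (.deg 4 (.con 7 20) (.typ 1 4 (.ref 30 20) (.ref 345 2118705)))))) (.con 0 0)),
  (.fbd 0 5 (.typ 2 5 (.ref 546 340496) (.adj 4 5 (.ref 253 9476) (.loc 5 (.ref 547 4534800) (.door 2 (.con 6 2) (.deg 5 (.con 2 2) (.typ 4 5 (.ref 70 9476) (.ref 488 5517840))))))) (.con 0 0)),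
  (.exp 2 (.ref 548 5517840)),
  (.fbd 4 2 (.ref 104 17185) (.loc 5 (.con 0 4) (.con 6 2))),
  (.deg 4 (.door 2 (.ref 550 274960) (.con 2 2)) (.ref 549 274960)),
  (.fbd 4 2 (.ref 357 66) (.ref 547 5517840)),
  (.loc 4 (.door 2 (.ref 415 1056) (.ref 552 274960)) (.ref 551 274960)),
  (.typ 4 2 (.ref 546 274960) (.ref 553 274960)),
  (.exp 2 (.fbd 0 4 (.ref 554 274960) (.con 0 0))),
  (.adj 1 5 (.adj 3 4 (.ref 198 143700) (.ref 198 143685)) (.typ 1 5 (.ref 374 81) (.ref 60 2118705))),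
  (.adj 1 4 (.ref 556 106181136) (.typ 1 4 (.ref 374 65) (.ref 60 2114865))),
  (.fbd 3 1 (.ref 185 2118705) (.ref 557 106181136)),
  (.fbd 4 1 (.ref 222 16675) (.con 7 19)),
  (.loc 4 (.typ 3 4 (.ref 87 4930) (.door 4 (.ref 415 834) (.ref 559 266800))) (.con 0 4)),
  (.adj 5 7 (.fbd 4 5 (.typ 4 7 (.ref 368 18214) (.typ 6 7 (.ref 70 18214) (.adj 3 5 (.loc 6 (.adj 1 5 (.ref 251 4354149) (.typ 1 5 (.ref 398 86052) (.door 6 (.ref 400 827351668) (.adj 1 6 (.ref 319 21089) (.typ 1 6 (.ref 59 21089) (.ref 145 86008881)))))) (.ref 503 1985229328)) (.ref 453 1985221168)))) (.con 0 4)) (.con 7 48)),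
  (.fbd 6 4 (.ref 103 156752) (.ref 561 1985229328)),
  (.typ 5 6 (.ref 510 106181136) (.typ 4 6 (.ref 398 410912) (.door 4 (.ref 392 25922) (.ref 562 106181136)))),
  (.fbd 4 5 (.ref 330 2114865) (.ref 563 106181136)),
  (.loc 5 (.door 2 (.con 3 2) (.adj 4 5 (.door 5 (.ref 531 5517840) (.ref 564 5517840)) (.ref 384 20546))) (.ref 502 5517840)),
  (.adj 3 5 (.ref 565 4534800) (.typ 3 5 (.ref 87 4946) (.ref 559 332336)))]

theorem tc542 : J.chkL tL tr542 542 = true := by decide +kernel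

/-- Trees. -/
noncomputable def tr567 : List J.Tr := [
  (.adj 5 1 (.ref 566 5517840) (.ref 491 5517840)),
  (.loc 5 (.door 2 (.door 5 (.con 6 2) (.ref 567 5517840)) (.con 2 2)) (.con 4 2)),
  (.loc 4 (.ref 565 5517840) (.ref 568 5517840)),
  (.adj 4 3 (.deg 5 (.ref 569 5517840) (.ref 171 2118705)) (.ref 560 274960)),
  (.loc 4 (.adj 4 5 (.typ 1 4 (.ref 87 12610) (.door 4 (.ref 415 322) (.deg 5 (.loc 5 (.door 2 (.con 3 2) (.adj 1 5 (.ref 570 4534800) (.typ 1 5 (.ref 395 86052) (.ref 179 2118675)))) (.ref 570 4534800)) (.ref 85 2114835)))) (.con 7 20)) (.con 0 4)),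
  (.adj 4 1 (.ref 570 5517840) (.ref 571 5517840)),
  (.deg 4 (.ref 572 5517840) (.deg 5 (.ref 572 4534800) (.ref 165 2118705))),
  (.fbd 0 5 (.typ 2 5 (.ref 573 5517840) (.ref 368 9221)) (.con 0 0)),
  (.exp 2 (.ref 574 5517840)),
  (.fbd 0 5 (.typ 2 5 (.ref 575 340496) (.typ 4 5 (.ref 70 9476) (.adj 1 4 (.ref 46 2114835) (.deg 4 (.con 7 20) (.typ 1 4 (.ref 30 20) (.ref 345 2118705)))))) (.con 0 0)),
  (.fbd 0 5 (.typ 2 5 (.ref 575 340496) (.adj 4 5 (.ref 253 9476) (.loc 5 (.ref 576 4534800) (.door 2 (.con 6 2) (.deg 5 (.con 2 2) (.typ 4 5 (.ref 70 9476) (.ref 558 5517840))))))) (.con 0 0)),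
  (.exp 2 (.ref 577 5517840)),
  (.deg 4 (.door 2 (.ref 550 274960) (.con 2 2)) (.ref 578 274960)),
  (.fbd 4 2 (.ref 357 66) (.ref 576 5517840)),
  (.loc 4 (.door 2 (.ref 415 1056) (.ref 580 274960)) (.ref 579 274960)),
  (.typ 4 2 (.ref 575 274960) (.ref 581 274960)),
  (.exp 2 (.fbd 0 4 (.ref 582 274960) (.con 0 0))),
  (.adj 3 5 (.adj 3 4 (.ref 198 136020) (.typ 3 4 (.ref 16 52) (.typ 1 5 (.ref 16 21) (.ref 250 2118705)))) (.con 7 10)),
  (.adj 1 5 (.adj 3 4 (.ref 198 143700) (.ref 198 143685)) (.ref 584 106181136)),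
  (.adj 1 4 (.ref 585 106181136) (.ref 585 105198096)),
  (.fbd 3 1 (.ref 185 2118705) (.ref 586 106181136)),
  (.fbd 4 5 (.loc 6 (.ref 251 144660) (.typ 1 6 (.ref 16 22) (.typ 4 6 (.ref 32 79424) (.ref 145 69231921)))) (.con 0 4)),
  (.fbd 4 1 (.ref 222 16675) (.ref 588 106181136)),
  (.adj 5 7 (.typ 4 7 (.ref 368 18214) (.typ 6 7 (.ref 70 18214) (.adj 1 5 (.loc 6 (.adj 3 5 (.ref 251 4354149) (.ref 453 1985221168)) (.ref 503 1985221168)) (.ref 453 1985229328)))) (.con 7 48)),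
  (.fbd 6 4 (.ref 103 156752) (.ref 590 1985229328))]

theorem tc567 : J.chkL tL tr567 567 = true := by decide +kernel

end Pool.Agent.Lib.MP_efe3d7_co.D
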