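import Pool.Agent.Lib.MP_efe3d7_co.D.Tab

/-! Case trees. -/

set_option autoImplicit false

namespace Pool.Agent.Lib.MP_efe3d7_co.D

open H

/-- Trees. -/
noncomputable def tr592 : List J.Tr := [
  (.typ 5 6 (.ref 510 106181136) (.typ 4 6 (.ref 398 410912) (.door 4 (.ref 392 25922) (.ref 591 106181136)))),
  (.fbd 4 5 (.ref 330 2114865) (.ref 592 106181136)),
  (.door 5 (.ref 531 5517840) (.ref 593 5517840)),
  (.loc 5 (.door 2 (.con 3 2) (.ref 594 5517840)) (.ref 502 5517840)),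
  (.adj 3 5 (.ref 595 4534800) (.typ 3 5 (.ref 87 4946) (.ref 589 4526640))),
  (.adj 5 1 (.ref 596 5517840) (.adj 3 5 (.ref 596 5509680) (.con 7 33))),
  (.loc 5 (.door 2 (.door 5 (.con 6 2) (.ref 597 5517840)) (.con 2 2)) (.con 4 2)),
  (.loc 4 (.adj 4 5 (.ref 595 5517840) (.ref 384 20546)) (.ref 598 5517840)),
  (.loc 4 (.adj 3 5 (.adj 4 5 (.typ 3 4 (.ref 87 4930) (.deg 5 (.loc 5 (.door 2 (.con 3 2) (.adj 1 5 (.ref 599 4534800) (.typ 1 5 (.ref 398 86052) (.door 5 (.ref 415 338) (.ref 559 340496))))) (.ref 599 4534800)) (.ref 85 2114865))) (.con 7 20)) (.con 7 13)) (.con 0 4)),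
  (.adj 4 3 (.deg 5 (.ref 599 5517840) (.ref 171 2118705)) (.ref 600 5517840)),
  (.loc 4 (.adj 3 4 (.ref 601 5509680) (.con 7 17)) (.con 0 4)),
  (.adj 4 1 (.ref 601 5517840) (.ref 602 5517840)),
  (.deg 4 (.ref 603 5517840) (.deg 5 (.ref 603 4534800) (.ref 165 2118705))),
  (.fbd 0 5 (.typ 2 5 (.ref 604 5517840) (.ref 368 9221)) (.con 0 0)),
  (.exp 2 (.ref 605 5517840)),
  (.fbd 0 5 (.typ 2 5 (.ref 606 340496) (.typ 4 5 (.ref 70 9476) (.adj 1 4 (.ref 46 2114835) (.deg 4 (.con 7 20) (.typ 1 4 (.ref 16 65) (.ref 345 2118705)))))) (.con 0 0)),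
  (.fbd 0 5 (.typ 2 5 (.ref 606 340496) (.adj 4 5 (.ref 253 9476) (.loc 5 (.ref 607 4534800) (.door 2 (.con 6 2) (.deg 5 (.con 2 2) (.typ 4 5 (.ref 70 9476) (.ref 587 5517840))))))) (.con 0 0)),
  (.exp 2 (.ref 608 5517840)),
  (.deg 4 (.door 2 (.ref 550 274960) (.con 2 2)) (.ref 609 274960)),
  (.fbd 4 2 (.ref 357 66) (.ref 607 5517840)),
  (.loc 4 (.door 2 (.ref 415 1056) (.ref 611 274960)) (.ref 610 274960)),
  (.typ 4 2 (.ref 606 274960) (.ref 612 274960)),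
  (.exp 2 (.fbd 0 4 (.ref 613 274960) (.con 0 0))),
  (.deg 1 (.ref 614 12816) (.ref 583 12816)),
  (.deg 3 (.ref 615 12816) (.deg 1 (.ref 615 4656) (.ref 555 12816))),
  (.loc 7 (.door 7 (.con 15 3) (.typ 5 7 (.ref 368 22307) (.typ 3 7 (.ref 59 21107) (.ref 145 86013459)))) (.con 14 3))]

theorem tc592 : J.chkL tL tr592 592 = true := by decide +kernel

/-- Trees. -/
noncomputable def tr618 : List J.Tr := [
  (.fbd 5 3 (.ref 222 21281) (.ref 617 1985229328)),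
  (.door 5 (.con 15 3) (.typ 3 5 (.ref 87 4946) (.ref 618 106181136))),
  (.fbd 5 6 (.ref 303 34035219) (.loc 8 (.con 0 6) (.con 5 0))),
  (.typ 7 5 (.ref 620 1985229328) (.ref 514 124076832)),
  (.fbd 5 6 (.ref 316 34035249) (.loc 8 (.con 0 6) (.con 5 0))),
  (.typ 7 5 (.ref 622 1985229328) (.ref 516 124076832)),
  (.typ 7 6 (.ref 623 1985229328) (.ref 621 1985229328)),
  (.loc 7 (.con 0 6) (.adj 3 7 (.ref 624 1985229328) (.con 14 3))),
  (.fbd 5 6 (.ref 74 2119217) (.ref 625 1985229328)),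
  (.door 2 (.door 5 (.con 6 2) (.ref 626 106181136)) (.con 2 2)),
  (.adj 1 5 (.ref 400 1985229328) (.typ 1 5 (.ref 398 86052) (.door 6 (.ref 400 827351668) (.adj 1 6 (.ref 319 21089) (.typ 1 6 (.ref 59 21089) (.ref 145 86008881)))))),
  (.loc 6 (.ref 628 1985229328) (.ref 503 1985229328)),
  (.adj 5 7 (.fbd 4 5 (.typ 4 7 (.ref 368 18214) (.typ 6 7 (.ref 70 18214) (.ref 629 1985229328))) (.con 0 4)) (.con 7 48)),
  (.fbd 6 4 (.ref 103 156752) (.ref 630 1985229328)),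
  (.adj 3 6 (.typ 6 7 (.ref 510 124072464) (.typ 5 7 (.ref 398 480800) (.door 5 (.ref 392 30290) (.ref 631 124072464)))) (.ref 619 90452496)),
  (.fbd 5 6 (.ref 330 2119217) (.ref 632 1985229328)),
  (.fbd 8 9 (.ref 83 1376294449) (.loc 10 (.con 0 8) (.con 5 0))),
  (.loc 9 (.door 9 (.con 6 5) (.typ 5 9 (.ref 634 654820258320) (.ref 356 22674))) (.con 6 5)),
  (.exp 5 (.ref 635 654820258320)),
  (.prm 5 (.ref 636 32302707216)),
  (.door 5 (.ref 637 1985229328) (.ref 418 124072464)),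
  (.adj 6 1 (.ref 638 1985229328) (.typ 1 6 (.ref 87 12642) (.ref 356 26386))),
  (.typ 7 6 (.ref 639 1985229328) (.ref 414 484640)),
  (.prm 6 (.fbd 2 7 (.ref 640 1985229328) (.con 0 2))),
  (.door 6 (.adj 3 6 (.ref 641 106181136) (.con 15 3)) (.ref 633 106181136)),
  (.adj 3 5 (.deg 6 (.loc 6 (.door 2 (.con 3 2) (.ref 642 106181136)) (.ref 627 106181136)) (.ref 171 2123057)) (.ref 619 106181136)),
  (.door 2 (.con 3 2) (.adj 1 6 (.ref 643 90452496) (.typ 1 6 (.ref 395 90149) (.ref 179 2123027)))),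
  (.loc 6 (.ref 644 106181136) (.ref 490 6631952)),
  (.adj 3 5 (.typ 1 5 (.ref 87 12626) (.door 5 (.ref 415 338) (.deg 6 (.ref 645 106181136) (.ref 85 2119187)))) (.con 7 33)),
  (.adj 5 1 (.ref 643 106181136) (.ref 646 106181136)),
  (.deg 6 (.loc 6 (.adj 5 6 (.ref 647 90452496) (.ref 384 20578)) (.ref 276 9808)) (.ref 165 2123057))]

theorem tc618 : J.chkL tL tr618 618 = true := by decide +kernel

/-- Trees. -/
noncomputable def tr649 : List J.Tr := [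
  (.deg 5 (.adj 5 6 (.ref 647 106181136) (.ref 384 24658)) (.ref 648 106181136)),
  (.fbd 0 6 (.typ 2 6 (.ref 649 106181136) (.ref 368 9478)) (.con 0 0)),
  (.exp 2 (.ref 650 106181136)),
  (.fbd 0 6 (.typ 2 6 (.loc 6 (.ref 651 6566416) (.door 2 (.con 6 2) (.deg 5 (.con 2 2) (.deg 6 (.con 2 2) (.ref 165 2123057))))) (.ref 368 9478)) (.con 0 0)),
  (.exp 2 (.ref 652 106181136)),
  (.loc 5 (.ref 651 5517840) (.ref 653 5517840)),
  (.fbd 0 6 (.typ 2 6 (.ref 654 6566416) (.typ 5 6 (.ref 70 9733) (.adj 1 5 (.ref 46 2119187) (.deg 5 (.con 7 36) (.typ 1 5 (.ref 30 21) (.ref 345 2123057)))))) (.con 0 0)),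
  (.fbd 0 6 (.typ 2 6 (.ref 654 6566416) (.adj 5 6 (.ref 253 9733) (.loc 6 (.ref 655 90452496) (.door 2 (.con 6 2) (.adj 3 6 (.deg 6 (.con 2 2) (.typ 5 6 (.ref 70 9733) (.adj 1 5 (.ref 198 136037) (.typ 1 5 (.ref 374 81) (.ref 60 2119217))))) (.con 14 3)))))) (.con 0 0)),
  (.exp 2 (.ref 656 106181136)),
  (.deg 5 (.door 2 (.ref 550 340496) (.con 2 2)) (.ref 657 5517840)),
  (.fbd 5 2 (.ref 357 82) (.ref 655 106181136)),
  (.loc 5 (.door 2 (.ref 415 1312) (.ref 659 5517840)) (.adj 3 5 (.ref 658 5517840) (.con 14 3))),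
  (.typ 5 2 (.ref 654 5517840) (.ref 660 5517840)),
  (.exp 2 (.fbd 0 5 (.ref 661 5517840) (.con 0 0))),
  (.adj 3 7 (.adj 1 6 (.adj 3 6 (.ref 214 1376286257) (.fbd 6 7 (.ref 222 354088) (.con 0 6))) (.ref 453 2271556112)) (.con 14 3)),
  (.adj 5 1 (.ref 400 1985229328) (.ref 453 1985229328)),
  (.loc 7 (.ref 664 2271556112) (.ref 663 36344967696)),
  (.adj 6 8 (.typ 5 8 (.ref 368 22567) (.typ 7 8 (.ref 70 22567) (.ref 665 36344967696))) (.con 7 96)),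
  (.fbd 7 5 (.ref 103 161120) (.ref 666 36344967696)),
  (.door 5 (.ref 392 30290) (.ref 667 1985229328)),
  (.typ 7 6 (.ref 510 124072464) (.typ 5 7 (.ref 398 480800) (.ref 668 1985229328))),
  (.fbd 5 6 (.ref 330 2119217) (.ref 669 1985229328)),
  (.door 6 (.adj 3 6 (.ref 641 106181136) (.con 15 3)) (.ref 670 106181136)),
  (.loc 6 (.door 2 (.con 3 2) (.ref 671 106181136)) (.ref 627 106181136)),
  (.adj 5 3 (.deg 6 (.ref 672 106181136) (.ref 171 2123057)) (.ref 619 106181136)),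
  (.adj 3 5 (.typ 1 5 (.ref 87 12626) (.door 5 (.ref 392 4178) (.adj 1 6 (.deg 6 (.loc 6 (.ref 673 90452496) (.ref 589 6631952)) (.ref 85 2119187)) (.con 7 7)))) (.con 7 33))]

theorem tc649 : J.chkL tL tr649 649 = true := by decide +kernel

/-- Trees. -/
noncomputable def tr675 : List J.Tr := [
  (.adj 5 1 (.ref 673 106181136) (.ref 674 106181136)),
  (.deg 6 (.loc 6 (.adj 5 6 (.ref 675 90452496) (.ref 384 20578)) (.ref 276 9808)) (.ref 165 2123057)),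
  (.deg 5 (.adj 5 6 (.ref 675 106181136) (.ref 384 24658)) (.ref 676 106181136)),
  (.fbd 0 6 (.typ 2 6 (.ref 677 106181136) (.ref 368 9478)) (.con 0 0)),
  (.exp 2 (.ref 678 106181136)),
  (.fbd 0 6 (.typ 2 6 (.loc 6 (.ref 679 6566416) (.door 2 (.con 6 2) (.deg 5 (.con 2 2) (.deg 6 (.con 2 2) (.ref 165 2123057))))) (.ref 368 9478)) (.con 0 0)),
  (.exp 2 (.ref 680 106181136)),
  (.loc 5 (.ref 679 5517840) (.ref 681 5517840)),
  (.fbd 0 6 (.typ 2 6 (.ref 682 6566416) (.typ 5 6 (.ref 70 9733) (.adj 1 5 (.ref 46 2119187) (.deg 5 (.con 7 36) (.typ 1 5 (.ref 16 81) (.ref 345 2123057)))))) (.con 0 0)),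
  (.fbd 5 2 (.ref 357 82) (.ref 683 106181136)),
  (.door 2 (.ref 415 1312) (.ref 684 5517840)),
  (.fbd 0 6 (.typ 2 6 (.ref 682 6566416) (.loc 6 (.ref 685 6566416) (.door 2 (.con 6 2) (.adj 3 6 (.deg 6 (.con 2 2) (.adj 5 6 (.ref 253 9733) (.typ 5 6 (.ref 70 9733) (.adj 1 5 (.ref 198 136037) (.adj 1 6 (.ref 198 136022) (.fbd 1 3 (.ref 185 2123057) (.con 0 1))))))) (.con 14 3))))) (.con 0 0)),
  (.exp 2 (.ref 686 106181136)),
  (.deg 5 (.door 2 (.ref 550 340496) (.con 2 2)) (.ref 687 5517840)),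
  (.loc 5 (.ref 685 5517840) (.adj 3 5 (.ref 688 5517840) (.con 14 3))),
  (.typ 5 2 (.ref 682 5517840) (.ref 689 5517840)),
  (.exp 2 (.fbd 0 5 (.ref 690 5517840) (.con 0 0))),
  (.deg 1 (.ref 691 274960) (.ref 662 274960)),
  (.deg 1 (.adj 1 2 (.ref 384 12816) (.con 7 3)) (.adj 1 2 (.ref 692 274960) (.ref 384 4896))),
  (.prm 3 (.deg 3 (.con 7 9) (.ref 693 274960))),
  (.adj 1 2 (.door 1 (.ref 694 4656) (.deg 1 (.ref 384 12816) (.deg 3 (.ref 384 4656) (.ref 616 12816)))) (.ref 384 4896)),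
  (.door 3 (.door 1 (.con 15 1) (.ref 694 12816)) (.ref 695 12816)),
  (.loc 3 (.ref 696 12816) (.ref 485 12816)),
  (.deg 2 (.loc 2 (.ref 697 12816) (.con 2 0)) (.ref 71 801)),
  (.deg 3 (.con 7 9) (.adj 1 2 (.ref 698 4656) (.deg 1 (.con 7 3) (.typ 1 2 (.ref 342 801) (.typ 2 3 (.ref 342 291) (.ref 337 561)))))),
  (.loc 3 (.ref 699 12816) (.ref 389 12816))]

theorem tc675 : J.chkL tL tr675 675 = true := by decide +kernel

/-- Trees. -/
noncomputable def tr701 : List J.Tr := [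
  (.adj 3 2 (.ref 698 12816) (.ref 700 12816)),
  (.typ 4 6 (.ref 368 17955) (.typ 3 6 (.ref 70 17955) (.ref 257 2364726))),
  (.fbd 4 3 (.ref 222 17185) (.ref 702 106181136)),
  (.typ 3 4 (.ref 395 213029) (.door 4 (.ref 392 12354) (.ref 703 5517840))),
  (.fbd 5 4 (.ref 277 33969201) (.con 7 48)),
  (.adj 5 3 (.ref 705 106181136) (.typ 3 5 (.ref 398 217124) (.ref 267 22066))),
  (.adj 5 1 (.ref 706 106181136) (.ref 706 106172976)),
  (.adj 3 5 (.ref 409 106181136) (.adj 3 6 (.typ 3 5 (.ref 398 217124) (.ref 207 21346)) (.con 7 96))),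
  (.adj 5 1 (.ref 708 106181136) (.ref 708 106172976)),
  (.fbd 5 3 (.ref 222 21281) (.typ 5 6 (.ref 368 22051) (.ref 61 2430006))),
  (.adj 3 5 (.ref 277 33969201) (.typ 3 5 (.ref 398 217124) (.ref 710 5517840))),
  (.adj 5 1 (.ref 711 106181136) (.adj 3 5 (.ref 711 106172976) (.con 7 33))),
  (.adj 6 5 (.ref 712 122958352) (.typ 5 6 (.ref 709 106181136) (.ref 398 410912))),
  (.adj 3 5 (.ref 231 1107780913) (.typ 3 5 (.ref 398 217124) (.door 5 (.ref 392 12370) (.ref 710 5517840)))),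
  (.adj 5 1 (.ref 714 1985229328) (.adj 3 5 (.ref 714 1985221168) (.con 7 33))),
  (.adj 6 5 (.ref 715 1985229328) (.typ 5 6 (.ref 709 106181136) (.ref 398 410912))),
  (.loc 7 (.ref 716 1985229328) (.door 5 (.con 5 0) (.ref 713 1985229328))),
  (.deg 6 (.adj 6 7 (.ref 717 1985229328) (.ref 384 29284)) (.ref 276 18274)),
  (.adj 5 6 (.loc 7 (.ref 718 1733571088) (.ref 288 17014)) (.con 7 48)),
  (.adj 7 5 (.ref 718 1985229328) (.ref 719 1985229328)),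
  (.fbd 4 5 (.fbd 2 7 (.typ 4 7 (.ref 720 1985229328) (.ref 368 17959)) (.con 0 2)) (.con 0 4)),
  (.exp 4 (.ref 721 1985229328)),
  (.loc 7 (.fbd 2 7 (.typ 4 7 (.ref 722 122958352) (.ref 368 17959)) (.con 0 2)) (.con 5 0)),
  (.fbd 5 4 (.ref 712 106181136) (.ref 723 1985229328)),
  (.adj 6 5 (.door 5 (.con 5 0) (.ref 724 106181136)) (.typ 5 6 (.ref 707 106181136) (.ref 398 410912))),
  (.loc 6 (.ref 722 106181136) (.ref 725 106181136)),
  (.fbd 2 7 (.typ 4 7 (.ref 726 122958352) (.typ 6 7 (.ref 70 18214) (.ref 701 29284))) (.con 0 2)),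
  (.fbd 6 4 (.ref 357 100) (.ref 727 1985229328)),
  (.loc 7 (.fbd 2 7 (.typ 4 7 (.ref 726 122958352) (.ref 728 122958352)) (.con 0 2)) (.con 5 0)),
  (.exp 4 (.ref 729 1985229328)),
  (.deg 6 (.door 4 (.ref 414 410912) (.con 2 4)) (.door 4 (.con 5 0) (.ref 730 106181136))),
  (.loc 6 (.door 4 (.ref 415 1602) (.ref 728 106181136)) (.ref 731 106181136))]

theorem tc701 : J.chkL tL tr701 701 = true := by decide +kernel

/-- Trees. -/
noncomputable def tr733 : List J.Tr := [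
  (.typ 6 4 (.ref 726 106181136) (.ref 732 106181136)),
  (.exp 4 (.fbd 2 6 (.ref 733 106181136) (.con 0 2))),
  (.loc 5 (.deg 5 (.ref 734 5517840) (.ref 276 9296)) (.ref 197 143700)),
  (.adj 4 3 (.ref 735 5517840) (.ref 704 5517840)),
  (.adj 4 1 (.ref 736 5517840) (.adj 3 4 (.ref 736 5509680) (.con 7 17))),
  (.loc 4 (.adj 4 5 (.ref 737 5517840) (.ref 384 20546)) (.con 2 2)),
  (.deg 4 (.ref 738 5517840) (.deg 5 (.ref 738 4534800) (.ref 165 2118705))),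
  (.fbd 0 5 (.typ 2 5 (.ref 739 5517840) (.ref 368 9221)) (.con 0 0)),
  (.exp 2 (.ref 740 5517840)),
  (.fbd 0 5 (.typ 2 5 (.ref 741 340496) (.typ 4 5 (.ref 70 9476) (.ref 701 20546))) (.con 0 0)),
  (.fbd 4 2 (.ref 357 66) (.ref 742 5517840)),
  (.loc 5 (.fbd 0 5 (.typ 2 5 (.ref 741 340496) (.ref 743 340496)) (.con 0 0)) (.con 5 0)),
  (.exp 2 (.ref 744 5517840)),
  (.loc 4 (.ref 743 274960) (.ref 745 274960)),
  (.typ 4 2 (.ref 741 274960) (.ref 746 274960)),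
  (.exp 2 (.fbd 0 4 (.ref 747 274960) (.con 0 0))),
  (.deg 2 (.adj 1 2 (.ref 748 12816) (.ref 384 4896)) (.ref 347 561)),
  (.adj 1 2 (.ref 749 4656) (.deg 2 (.con 7 5) (.typ 1 2 (.ref 129 786) (.typ 2 3 (.ref 129 306) (.ref 256 801))))),
  (.adj 2 3 (.ref 749 12816) (.ref 750 12816)),
  (.deg 1 (.con 2 0) (.loc 3 (.ref 701 4656) (.loc 2 (.door 2 (.con 17 5) (.deg 3 (.con 2 0) (.ref 751 12816))) (.con 17 1)))),
  (.loc 1 (.ref 701 12816) (.ref 752 12816)),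
  (.typ 0 3 (.ref 368 801) (.adj 1 3 (.ref 253 801) (.typ 1 3 (.ref 70 801) (.ref 753 12816)))),
  (.typ 0 2 (.ref 754 12816) (.typ 0 3 (.ref 754 8976) (.ref 383 12816))),
  (.fbd 0 1 (.fbd 0 2 (.fbd 0 3 (.ref 755 12816) (.con 0 0)) (.con 0 0)) (.con 0 0)),
  (.exp 0 (.ref 756 12816)),
  (.exp 0 (.ref 757 528)),
  (.ref 758 16),
  (.exp 2 (.typ 2 5 (.ref 67 2114385) (.ref 759 82))),
  (.fbd 3 2 (.ref 183 17185) (.typ 2 5 (.ref 67 2114385) (.ref 759 82))),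
  (.loc 4 (.deg 4 (.con 7 17) (.typ 1 4 (.ref 16 65) (.ref 761 266800))) (.ref 760 266800)),
  (.fbd 2 1 (.ref 288 561) (.typ 2 5 (.ref 67 2114385) (.ref 759 82))),
  (.prm 2 (.con 6 2)),
  (.deg 4 (.loc 4 (.door 4 (.ref 764 1074) (.ref 759 52)) (.con 2 2)) (.ref 763 274960))]

theorem tc733 : J.chkL tL tr733 733 = true := by decide +kernel

/-- Trees. -/
noncomputable def tr766 : List J.Tr := [
  (.adj 4 1 (.ref 765 274960) (.ref 762 274960)),
  (.loc 4 (.deg 4 (.con 7 17) (.ref 761 274960)) (.ref 760 266800)),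
  (.exp 2 (.typ 2 5 (.ref 67 2114385) (.ref 759 82))),
  (.fbd 3 2 (.ref 133 17185) (.typ 2 5 (.ref 67 2114385) (.ref 759 82))),
  (.adj 3 1 (.ref 769 274960) (.ref 768 274960)),
  (.fbd 3 2 (.ref 80 17185) (.con 7 12)),
  (.deg 3 (.adj 1 3 (.door 3 (.ref 764 832) (.ref 771 274960)) (.con 7 9)) (.ref 16 52)),
  (.adj 1 4 (.ref 763 274960) (.typ 1 4 (.ref 772 266800) (.ref 770 274960))),
  (.loc 3 (.ref 772 274960) (.deg 3 (.con 2 0) (.ref 773 274960))),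
  (.typ 4 6 (.typ 5 6 (.ref 126 87295506) (.ref 759 101)) (.ref 759 100)),
  (.fbd 4 5 (.ref 245 2114865) (.ref 775 106177296)),
  (.door 4 (.ref 764 1074) (.typ 1 3 (.ref 243 769) (.ref 776 4526640))),
  (.fbd 5 4 (.ref 1 3166530) (.ref 775 106181136)),
  (.adj 3 1 (.door 4 (.ref 764 1074) (.ref 778 5514000)) (.ref 777 5517840)),
  (.loc 3 (.typ 1 3 (.ref 207 4656) (.ref 415 784)) (.con 6 1)),
  (.fbd 2 1 (.ref 288 561) (.ref 780 21536)),
  (.loc 3 (.ref 414 271105) (.deg 3 (.con 2 0) (.ref 781 274960))),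
  (.fbd 1 5 (.typ 3 5 (.ref 276 13601) (.ref 782 344833)) (.con 0 1)),
  (.prm 3 (.ref 783 5517840)),
  (.adj 4 5 (.typ 2 5 (.loc 5 (.deg 5 (.typ 1 5 (.door 5 (.ref 784 282912) (.ref 779 5517840)) (.ref 398 66852)) (.ref 80 143429)) (.ref 80 143429)) (.ref 759 82)) (.con 7 20)),
  (.fbd 2 1 (.ref 288 561) (.ref 785 5517840)),
  (.fbd 3 2 (.ref 92 17185) (.con 7 12)),
  (.prm 5 (.fbd 4 5 (.ref 1 2117955) (.con 0 5))),
  (.prm 4 (.typ 4 6 (.ref 3 69231921) (.ref 782 414722))),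
  (.door 4 (.ref 789 5517840) (.door 5 (.ref 788 5517840) (.ref 778 5514000))),
  (.adj 4 5 (.typ 2 5 (.deg 5 (.loc 5 (.adj 1 5 (.ref 28 2118705) (.typ 1 5 (.ref 790 5517840) (.ref 398 66852))) (.con 2 2)) (.ref 184 2117940)) (.ref 759 82)) (.con 7 20)),
  (.exp 2 (.ref 791 5517840)),
  (.deg 4 (.adj 1 4 (.ref 792 274960) (.con 7 17)) (.ref 787 274960)),
  (.typ 1 6 (.loc 6 (.adj 5 6 (.ref 297 34628931) (.door 6 (.deg 6 (.con 3 6) (.ref 16 97)) (.con 7 35))) (.ref 148 22)) (.ref 98 1070642)),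
  (.adj 4 5 (.ref 376 21264) (.typ 4 5 (.ref 230 4261170) (.ref 759 84))),
  (.loc 6 (.adj 5 6 (.ref 297 34628931) (.door 6 (.deg 6 (.con 3 6) (.ref 204 790)) (.con 7 35))) (.ref 148 22))]

theorem tc766 : J.chkL tL tr766 766 = true := by decide +kernel

/-- Trees. -/
noncomputable def tr797 : List J.Tr := [
  (.typ 6 1 (.ref 796 106181136) (.ref 795 6631952)),
  (.typ 6 3 (.ref 797 106181136) (.ref 794 106181136)),
  (.fbd 1 3 (.ref 355 291) (.fbd 1 6 (.ref 798 106181136) (.con 0 1))),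
  (.typ 1 3 (.ref 243 769) (.deg 1 (.ref 799 5517840) (.ref 364 144405))),
  (.loc 6 (.con 0 4) (.typ 5 6 (.ref 122 86008881) (.ref 759 101))),
  (.fbd 4 5 (.ref 305 2114865) (.ref 801 106181136)),
  (.adj 3 1 (.ref 802 5517840) (.ref 800 5517840)),
  (.loc 5 (.door 5 (.con 6 2) (.typ 2 5 (.deg 5 (.adj 3 5 (.typ 1 5 (.ref 803 5517840) (.ref 759 21)) (.con 7 33)) (.ref 67 2118465)) (.ref 415 1312))) (.con 6 2)),
  (.fbd 2 1 (.ref 288 561) (.ref 804 5517840)),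
  (.door 1 (.con 17 7) (.deg 3 (.con 2 0) (.ref 805 274960))),
  (.adj 1 6 (.ref 305 2441313) (.typ 1 6 (.ref 243 1617) (.deg 1 (.ref 230 5310002) (.ref 364 5399568)))),
  (.deg 6 (.con 7 96) (.typ 1 6 (.ref 187 22034) (.ref 227 86008881))),
  (.adj 1 6 (.ref 305 2441313) (.typ 1 6 (.ref 243 1617) (.ref 199 86008881))),
  (.loc 6 (.con 0 4) (.typ 5 6 (.ref 809 106181136) (.ref 759 101))),
  (.fbd 4 5 (.ref 269 2114865) (.ref 810 106181136)),
  (.deg 7 (.con 7 160) (.typ 1 7 (.ref 187 22290) (.deg 1 (.adj 6 7 (.ref 29 5338626) (.typ 6 7 (.ref 271 105973554) (.ref 759 118))) (.ref 12 86012977)))),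
  (.fbd 7 1 (.ref 343 86012977) (.loc 9 (.con 17 175) (.con 6 7))),
  (.adj 7 6 (.ref 813 36344967696) (.typ 6 7 (.ref 344 1733310497) (.ref 759 118))),
  (.deg 7 (.typ 7 8 (.ref 814 36344967696) (.ref 414 553553)) (.ref 269 2441329)),
  (.adj 7 1 (.ref 815 36344967696) (.ref 812 36344967696)),
  (.prm 7 (.ref 816 36344967696)),
  (.loc 7 (.door 7 (.ref 817 1985229328) (.ref 302 20775)) (.ref 809 122958352)),
  (.fbd 2 7 (.typ 5 7 (.ref 818 1985229328) (.ref 759 117)) (.con 0 2)),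
  (.exp 5 (.ref 819 1985229328)),
  (.loc 8 (.fbd 4 6 (.typ 4 7 (.ref 14 34038833) (.ref 346 34038833)) (.con 0 6)) (.con 6 3)),
  (.fbd 6 3 (.ref 422 7750432) (.ref 821 36344967696)),
  (.loc 7 (.con 0 4) (.adj 3 6 (.deg 7 (.con 2 6) (.typ 6 7 (.ref 822 1985229328) (.ref 759 118))) (.con 17 76))),
  (.fbd 4 6 (.ref 173 136246) (.ref 823 1985229328)),
  (.loc 7 (.door 7 (.con 6 3) (.fbd 0 7 (.typ 3 7 (.deg 7 (.adj 1 7 (.ref 824 121971472) (.adj 6 7 (.typ 1 7 (.ref 820 124006928) (.ref 759 23)) (.con 7 192))) (.ref 276 13680)) (.ref 415 1840)) (.con 0 0))) (.con 6 3))]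

theorem tc797 : J.chkL tL tr797 797 = true := by decide +kernel

end Pool.Agent.Lib.MP_efe3d7_co.D
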