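import Pool.Agent.Lib.MP_efe3d7_co.D.Tab

/-! Case trees. -/

set_option autoImplicit false

namespace Pool.Agent.Lib.MP_efe3d7_co.D

open H

/-- Trees. -/
noncomputable def tr826 : List J.Tr := [
  (.exp 3 (.ref 825 1985229328)),
  (.adj 3 6 (.typ 1 6 (.ref 826 106181136) (.ref 759 22)) (.con 7 65)),
  (.adj 1 6 (.ref 824 106181136) (.ref 827 106181136)),
  (.loc 6 (.door 6 (.con 6 2) (.fbd 0 6 (.typ 2 6 (.deg 6 (.ref 828 106181136) (.ref 276 9312)) (.ref 415 1568)) (.con 0 0))) (.con 6 2)),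
  (.exp 2 (.ref 829 106181136)),
  (.deg 5 (.typ 5 6 (.ref 830 6509076) (.ref 414 414273)) (.ref 811 217620)),
  (.adj 6 1 (.ref 831 124076560) (.ref 808 1985229328)),
  (.prm 6 (.fbd 5 7 (.ref 832 1985229328) (.con 0 5))),
  (.loc 6 (.door 6 (.ref 833 106181136) (.ref 302 20774)) (.ref 807 106181136)),
  (.fbd 4 5 (.fbd 2 6 (.typ 5 6 (.ref 834 106181136) (.ref 759 101)) (.con 0 2)) (.con 0 5)),
  (.exp 5 (.ref 835 106181136)),
  (.adj 3 1 (.ref 811 5517840) (.typ 1 3 (.ref 187 786) (.ref 836 5517840))),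
  (.loc 5 (.door 5 (.con 6 2) (.fbd 2 5 (.typ 2 5 (.deg 5 (.adj 3 5 (.typ 1 5 (.ref 837 5517840) (.ref 759 21)) (.con 7 33)) (.ref 67 2118465)) (.ref 415 1312)) (.con 0 2))) (.con 6 2)),
  (.fbd 2 1 (.ref 302 801) (.ref 838 5517840)),
  (.loc 6 (.door 6 (.con 15 1) (.adj 4 6 (.typ 3 6 (.deg 6 (.typ 1 6 (.ref 778 6566416) (.ref 759 22)) (.ref 184 3170596)) (.ref 759 99)) (.con 7 24))) (.con 14 1)),
  (.fbd 1 3 (.ref 99 136245) (.ref 840 124072464)),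
  (.prm 1 (.ref 841 106181136)),
  (.loc 5 (.door 5 (.con 6 2) (.fbd 2 3 (.typ 2 5 (.typ 3 5 (.door 1 (.deg 5 (.adj 1 5 (.ref 842 5517840) (.con 7 33)) (.ref 92 21281)) (.ref 175 2118705)) (.ref 759 83)) (.ref 415 1312)) (.con 0 2))) (.con 6 2)),
  (.fbd 2 3 (.ref 276 531) (.ref 843 5517840)),
  (.deg 3 (.adj 1 3 (.ref 844 274960) (.ref 384 4656)) (.ref 839 266800)),
  (.deg 3 (.adj 1 3 (.ref 830 5517840) (.con 7 9)) (.ref 839 274960)),
  (.typ 5 3 (.ref 846 5517840) (.deg 3 (.ref 414 340481) (.ref 839 274960))),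
  (.prm 3 (.fbd 0 5 (.ref 847 5517840) (.con 0 0))),
  (.door 3 (.door 1 (.con 17 15) (.ref 848 274960)) (.ref 845 274960)),
  (.loc 3 (.ref 849 274960) (.ref 806 274960)),
  (.typ 4 2 (.ref 850 274960) (.ref 782 274960)),
  (.prm 2 (.fbd 0 4 (.ref 851 274960) (.con 0 0))),
  (.loc 3 (.adj 1 3 (.door 3 (.ref 852 8976) (.ref 793 274960)) (.con 7 9)) (.con 0 3))]

theorem tc826 : J.chkL tL tr826 826 = true := by decide +kernel

/-- Trees. -/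
noncomputable def tr854 : List J.Tr := [
  (.door 4 (.ref 784 344864) (.door 5 (.ref 784 282912) (.ref 776 5517840))),
  (.adj 4 5 (.fbd 2 4 (.typ 2 5 (.loc 5 (.deg 5 (.typ 1 5 (.ref 854 5517840) (.ref 398 66852)) (.ref 853 213074)) (.ref 787 197714)) (.ref 759 82)) (.con 0 2)) (.con 7 20)),
  (.fbd 1 2 (.ref 276 306) (.ref 855 5517840)),
  (.adj 1 3 (.ref 792 274960) (.typ 1 3 (.ref 187 786) (.ref 856 274960))),
  (.loc 3 (.ref 857 274960) (.ref 786 274960)),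
  (.deg 4 (.adj 1 4 (.ref 858 274960) (.con 7 17)) (.ref 16 67)),
  (.deg 3 (.ref 853 274960) (.ref 859 274960)),
  (.loc 4 (.ref 860 274960) (.deg 4 (.con 2 2) (.ref 774 274960))),
  (.fbd 1 2 (.ref 276 306) (.typ 2 5 (.ref 67 2114385) (.ref 759 82))),
  (.loc 4 (.deg 4 (.door 4 (.ref 415 834) (.ref 759 52)) (.ref 862 274960)) (.ref 862 274960)),
  (.adj 4 1 (.ref 863 274960) (.typ 1 4 (.ref 861 266800) (.ref 767 274960))),
  (.loc 6 (.fbd 1 2 (.adj 1 6 (.ref 183 16675) (.deg 6 (.con 7 65) (.typ 2 6 (.ref 67 2122561) (.ref 759 98)))) (.con 0 2)) (.con 14 3)),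
  (.fbd 3 2 (.ref 183 17185) (.ref 865 106181136)),
  (.adj 1 4 (.ref 862 274960) (.typ 1 4 (.ref 861 266800) (.ref 866 5517840))),
  (.loc 4 (.door 4 (.con 15 3) (.deg 4 (.ref 759 52) (.ref 867 5517840))) (.con 14 3)),
  (.prm 3 (.ref 868 5517840)),
  (.door 3 (.deg 3 (.ref 392 16944) (.ref 869 274960)) (.deg 3 (.ref 759 67) (.ref 864 274960))),
  (.loc 3 (.ref 870 274960) (.deg 3 (.con 2 0) (.ref 766 274960))),
  (.typ 4 3 (.ref 861 274960) (.ref 871 274960)),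
  (.fbd 0 4 (.typ 2 4 (.ref 872 274960) (.ref 759 66)) (.con 0 0)),
  (.fbd 3 2 (.ref 276 786) (.ref 873 274960)),
  (.door 2 (.ref 852 12816) (.ref 874 12816)),
  (.adj 1 2 (.adj 2 3 (.ref 875 12816) (.ref 384 12576)) (.adj 2 3 (.ref 384 4896) (.con 7 5))),
  (.fbd 1 2 (.fbd 1 3 (.typ 1 3 (.ref 876 12321) (.ref 759 49)) (.con 0 1)) (.con 0 1)),
  (.fbd 2 3 (.ref 105 16675) (.ref 877 21536)),
  (.fbd 2 6 (.typ 4 6 (.adj 5 6 (.loc 6 (.ref 288 16950) (.ref 0 274470)) (.ref 775 106177296)) (.ref 759 100)) (.con 0 2)),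
  (.exp 4 (.ref 879 106181136)),
  (.fbd 2 3 (.fbd 2 4 (.fbd 2 5 (.typ 2 5 (.deg 4 (.adj 4 5 (.loc 5 (.deg 5 (.adj 3 5 (.door 5 (.ref 764 1298) (.adj 3 4 (.ref 0 5155) (.door 4 (.ref 764 1074) (.typ 3 4 (.typ 1 5 (.ref 880 5517840) (.ref 759 21)) (.ref 759 52))))) (.con 7 33)) (.ref 876 16466)) (.ref 13 136020)) (.ref 384 20546)) (.ref 876 20546)) (.ref 759 82)) (.con 0 2)) (.con 0 2)) (.con 0 2))]

theorem tc854 : J.chkL tL tr854 854 = true := by decide +kernel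

/-- Trees. -/
noncomputable def tr882 : List J.Tr := [
  (.fbd 2 1 (.ref 0 13345) (.ref 881 5517840)),
  (.adj 3 4 (.ref 882 266800) (.deg 4 (.con 7 17) (.typ 3 4 (.ref 16 67) (.ref 878 274960)))),
  (.adj 4 1 (.ref 882 274960) (.ref 883 274960)),
  (.loc 5 (.typ 2 5 (.ref 884 340496) (.ref 759 82)) (.con 5 0)),
  (.exp 2 (.ref 885 5517840)),
  (.loc 4 (.ref 884 274960) (.ref 886 274960)),
  (.exp 2 (.typ 2 4 (.ref 887 274960) (.ref 759 66))),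
  (.adj 2 1 (.adj 2 3 (.ref 888 12816) (.ref 384 12576)) (.adj 2 3 (.ref 384 4896) (.con 7 5))),
  (.fbd 5 4 (.ref 69 136515) (.ref 775 106177296)),
  (.adj 4 5 (.typ 2 5 (.deg 5 (.loc 5 (.adj 1 5 (.ref 28 2118705) (.door 5 (.ref 764 1298) (.typ 1 5 (.door 4 (.ref 789 5517840) (.ref 890 5517840)) (.ref 759 21)))) (.con 2 2)) (.ref 184 2117940)) (.ref 759 82)) (.con 7 20)),
  (.exp 2 (.ref 891 5517840)),
  (.adj 4 6 (.fbd 2 4 (.fbd 2 6 (.typ 2 6 (.loc 6 (.deg 6 (.door 6 (.ref 764 1554) (.typ 1 6 (.ref 890 6566416) (.ref 759 22))) (.ref 876 16482)) (.ref 159 33775956)) (.ref 759 98)) (.con 0 2)) (.con 0 2)) (.con 7 20)),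
  (.fbd 1 2 (.ref 150 202050) (.ref 893 106181136)),
  (.prm 3 (.typ 3 5 (.ref 894 5517840) (.ref 782 332576))),
  (.door 2 (.con 17 13) (.door 4 (.con 15 3) (.deg 4 (.adj 1 4 (.ref 895 274960) (.con 7 17)) (.ref 787 271120)))),
  (.door 2 (.ref 896 271120) (.deg 4 (.ref 892 274960) (.ref 787 274960))),
  (.door 3 (.ref 896 274960) (.ref 897 274960)),
  (.typ 4 3 (.loc 4 (.ref 898 274960) (.ref 772 274960)) (.door 3 (.ref 392 16944) (.ref 759 67))),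
  (.typ 4 2 (.ref 899 274960) (.door 2 (.ref 392 17184) (.ref 759 66))),
  (.fbd 2 3 (.ref 288 531) (.ref 900 274960)),
  (.adj 1 2 (.adj 1 3 (.ref 901 12816) (.ref 384 4656)) (.ref 384 4896)),
  (.adj 2 3 (.ref 902 12816) (.adj 1 2 (.ref 384 12576) (.con 7 5))),
  (.loc 3 (.deg 3 (.ref 903 12816) (.ref 876 4656)) (.door 2 (.con 17 5) (.ref 889 12816))),
  (.loc 1 (.ref 876 12816) (.ref 904 12816)),
  (.fbd 0 1 (.fbd 0 2 (.fbd 0 3 (.typ 0 3 (.ref 905 12816) (.ref 759 48)) (.con 0 0)) (.con 0 0)) (.con 0 0)),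
  (.exp 0 (.ref 906 12816)),
  (.loc 2 (.ref 907 528) (.con 2 0)),
  (.typ 0 1 (.typ 0 2 (.typ 0 3 (.deg 2 (.ref 908 528) (.typ 1 2 (.ref 16 18) (.deg 3 (.ref 908 784) (.typ 1 3 (.ref 16 19) (.ref 48 801))))) (.ref 759 48)) (.ref 759 32)) (.ref 759 16))]

theorem tc882 : J.chkL tL tr882 882 = true := by decide +kernel

/-- Trees. -/
noncomputable def tr910 : List J.Tr := [
  (.ref 909 12816),
  (.fbd 4 2 (.ref 130 1346) (.loc 6 (.con 17 5) (.con 5 0))),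
  (.deg 5 (.ref 312 344865) (.ref 911 5517840)),
  (.fbd 3 4 (.ref 323 21044) (.loc 6 (.con 0 3) (.con 5 0))),
  (.deg 3 (.ref 913 5517840) (.ref 286 1347)),
  (.fbd 3 4 (.ref 375 13345) (.loc 6 (.con 17 5) (.con 5 0))),
  (.adj 3 5 (.ref 915 5517840) (.typ 3 5 (.ref 914 5517840) (.ref 912 5517840))),
  (.loc 1 (.door 1 (.ref 764 288) (.ref 759 33)) (.door 0 (.con 14 0) (.con 2 0))),
  (.prm 1 (.fbd 1 2 (.ref 237 288) (.con 0 1))),
  (.loc 2 (.loc 1 (.door 1 (.door 2 (.con 15 1) (.ref 918 528)) (.ref 759 33)) (.con 0 1)) (.ref 917 528)),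
  (.loc 2 (.ref 243 258) (.loc 3 (.adj 2 3 (.ref 187 291) (.ref 910 8496)) (.con 17 1))),
  (.adj 5 3 (.ref 54 283424) (.typ 3 5 (.ref 920 9044) (.ref 232 4534800))),
  (.fbd 4 2 (.ref 112 17185) (.loc 6 (.con 17 5) (.con 5 0))),
  (.adj 4 5 (.ref 922 5517840) (.typ 4 5 (.ref 921 5517840) (.ref 919 1346))),
  (.exp 2 (.loc 6 (.con 17 3) (.con 5 0))),
  (.loc 5 (.con 17 5) (.deg 5 (.con 2 2) (.door 4 (.con 5 0) (.adj 3 4 (.ref 924 3232770) (.typ 3 4 (.typ 2 5 (.ref 374 82) (.ref 923 5517840)) (.ref 759 52)))))),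
  (.exp 2 (.ref 925 5517840)),
  (.loc 4 (.deg 4 (.ref 926 274960) (.ref 30 36)) (.ref 148 36)),
  (.loc 5 (.con 17 5) (.door 4 (.con 5 0) (.adj 3 4 (.ref 924 3232770) (.typ 2 5 (.ref 927 340496) (.deg 4 (.ref 759 36) (.typ 3 4 (.ref 16 67) (.typ 4 5 (.ref 125 1316) (.ref 916 5517840)))))))),
  (.fbd 4 2 (.ref 357 66) (.ref 928 5517840)),
  (.loc 5 (.typ 2 5 (.ref 927 340496) (.ref 929 340496)) (.con 5 0)),
  (.exp 2 (.ref 930 5517840)),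
  (.loc 4 (.ref 929 274960) (.ref 931 274960)),
  (.typ 2 4 (.ref 927 274960) (.ref 932 274960)),
  (.exp 2 (.ref 933 274960)),
  (.typ 5 4 (.ref 280 1070130) (.ref 161 1070130)),
  (.door 1 (.ref 764 304) (.typ 1 3 (.ref 279 4866) (.ref 759 49))),
  (.loc 3 (.deg 3 (.ref 936 8241) (.ref 16 49)) (.ref 148 19)),
  (.adj 5 2 (.ref 78 1070130) (.typ 2 5 (.ref 937 21536) (.ref 935 5517840))),
  (.typ 1 5 (.adj 3 5 (.ref 239 74805) (.typ 3 5 (.ref 187 4944) (.loc 5 (.ref 149 4944) (.deg 5 (.con 2 1) (.adj 4 5 (.ref 205 86848) (.ref 938 5517840)))))) (.ref 759 81))]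

theorem tc910 : J.chkL tL tr910 910 = true := by decide +kernel

/-- Trees. -/
noncomputable def tr940 : List J.Tr := [
  (.exp 1 (.ref 939 5517840)),
  (.typ 1 5 (.adj 3 5 (.ref 239 74805) (.typ 3 5 (.ref 187 4944) (.ref 318 1070130))) (.ref 759 81)),
  (.exp 1 (.ref 941 5517840)),
  (.adj 4 3 (.ref 942 274960) (.typ 3 4 (.ref 140 4930) (.ref 940 274960))),
  (.adj 5 2 (.ref 4 1070130) (.typ 2 5 (.ref 230 2102085) (.ref 759 82))),
  (.adj 2 5 (.ref 924 5517840) (.typ 2 5 (.ref 230 2102085) (.ref 759 82))),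
  (.adj 4 5 (.ref 7 1070130) (.typ 4 5 (.ref 187 5200) (.deg 4 (.ref 945 5517840) (.ref 944 5517840)))),
  (.adj 5 4 (.ref 7 1070130) (.typ 4 5 (.ref 243 1045) (.ref 149 5200))),
  (.loc 5 (.ref 947 5517840) (.ref 946 5517840)),
  (.typ 1 5 (.deg 5 (.ref 908 1281) (.ref 948 5517840)) (.ref 759 81)),
  (.exp 1 (.ref 949 5517840)),
  (.door 2 (.ref 764 560) (.typ 2 3 (.ref 950 274960) (.ref 917 800))),
  (.door 4 (.loc 3 (.door 3 (.con 15 3) (.ref 220 82720)) (.ref 764 1074)) (.ref 352 82480)),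
  (.loc 4 (.deg 4 (.door 4 (.ref 764 1074) (.typ 3 4 (.ref 952 274960) (.ref 759 52))) (.ref 16 66)) (.ref 148 36)),
  (.typ 5 3 (.ref 953 344848) (.typ 4 5 (.ref 795 5390385) (.ref 98 3220800))),
  (.typ 1 5 (.adj 4 5 (.ref 954 3408165) (.typ 4 5 (.ref 187 9296) (.ref 268 2118705))) (.ref 759 81)),
  (.adj 5 1 (.deg 4 (.ref 924 5517600) (.ref 274 2118705)) (.ref 955 5517840)),
  (.typ 1 5 (.loc 5 (.deg 5 (.ref 908 1281) (.adj 4 5 (.ref 953 147477) (.typ 4 5 (.ref 243 1045) (.ref 149 5200)))) (.ref 956 5517600)) (.ref 759 81)),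
  (.exp 1 (.ref 957 5517840)),
  (.adj 3 4 (.ref 266 74560) (.typ 3 4 (.ref 243 788) (.ref 149 4928))),
  (.loc 5 (.ref 959 344864) (.door 1 (.con 5 0) (.ref 956 5517840))),
  (.typ 2 5 (.deg 5 (.ref 908 1282) (.ref 960 5517840)) (.ref 759 82)),
  (.exp 2 (.ref 961 5517840)),
  (.door 2 (.ref 764 576) (.typ 2 4 (.ref 962 274960) (.ref 917 1056))),
  (.fbd 2 1 (.ref 95 275025) (.con 7 6)),
  (.door 2 (.con 5 0) (.deg 5 (.ref 908 1282) (.ref 964 5517600))),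
  (.door 1 (.ref 965 5517840) (.deg 5 (.ref 908 1281) (.ref 964 5517840))),
  (.typ 5 2 (.ref 966 5517840) (.door 2 (.ref 392 20768) (.ref 759 82))),
  (.typ 5 1 (.ref 967 5517840) (.door 1 (.ref 392 21008) (.ref 759 81))),
  (.fbd 2 1 (.ref 109 8515) (.ref 968 5517840)),
  (.adj 2 4 (.ref 969 274960) (.ref 963 274960))]

theorem tc940 : J.chkL tL tr940 940 = true := by decide +kernel

/-- Trees. -/
noncomputable def tr971 : List J.Tr := [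
  (.adj 2 3 (.ref 970 274960) (.adj 2 4 (.ref 970 213520) (.con 7 5))),
  (.adj 2 4 (.ref 971 274720) (.door 2 (.ref 764 576) (.ref 958 274960))),
  (.adj 3 2 (.ref 972 274960) (.ref 951 274960)),
  (.door 1 (.ref 764 320) (.typ 1 4 (.ref 973 274960) (.ref 917 1040))),
  (.adj 1 4 (.ref 971 274960) (.ref 974 274960)),
  (.adj 5 2 (.ref 153 1070130) (.typ 2 5 (.ref 945 5456160) (.ref 759 82))),
  (.deg 3 (.ref 976 5517840) (.ref 115 87088)),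
  (.adj 5 4 (.ref 354 87088) (.typ 4 5 (.ref 187 5200) (.ref 977 5517840))),
  (.adj 3 4 (.ref 144 74500) (.typ 3 4 (.ref 243 788) (.ref 149 4928))),
  (.loc 5 (.ref 979 344848) (.deg 4 (.ref 945 5517840) (.ref 978 5517840))),
  (.typ 1 5 (.deg 5 (.ref 908 1281) (.ref 980 5517840)) (.ref 759 81)),
  (.exp 1 (.ref 981 5517840)),
  (.adj 2 3 (.ref 287 17185) (.adj 2 4 (.door 2 (.ref 764 560) (.typ 2 3 (.adj 1 4 (.ref 376 17154) (.door 1 (.ref 764 320) (.typ 1 4 (.ref 982 274960) (.ref 917 1040)))) (.ref 917 800))) (.con 7 5))),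
  (.typ 4 3 (.ref 983 274960) (.ref 975 274960)),
  (.deg 4 (.ref 945 5517840) (.ref 21 1070130)),
  (.adj 5 4 (.ref 295 1070130) (.typ 4 5 (.ref 187 5200) (.ref 985 5517840))),
  (.adj 2 3 (.ref 355 4146) (.typ 2 3 (.ref 243 531) (.ref 149 4656))),
  (.loc 5 (.ref 987 21520) (.ref 986 5517840)),
  (.typ 1 5 (.deg 5 (.ref 908 1281) (.ref 988 5517840)) (.ref 759 81)),
  (.exp 1 (.ref 989 5517840)),
  (.adj 2 3 (.ref 208 12865) (.adj 2 4 (.door 2 (.ref 764 560) (.typ 2 3 (.adj 1 4 (.ref 208 16945) (.door 1 (.ref 764 320) (.typ 1 4 (.ref 990 274960) (.ref 917 1040)))) (.ref 917 800))) (.con 7 5))),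
  (.adj 3 4 (.ref 991 274960) (.ref 984 274960)),
  (.adj 3 1 (.ref 992 274960) (.adj 1 4 (.ref 992 213520) (.con 7 3))),
  (.loc 5 (.con 17 5) (.deg 5 (.con 2 2) (.fbd 1 2 (.fbd 2 5 (.typ 2 5 (.ref 203 136512) (.ref 993 332802)) (.con 0 2)) (.con 0 2)))),
  (.exp 2 (.ref 994 5517840)),
  (.loc 4 (.deg 4 (.ref 995 274960) (.ref 16 66)) (.ref 148 36)),
  (.loc 5 (.con 17 5) (.door 4 (.con 5 0) (.fbd 2 4 (.typ 2 5 (.ref 996 340496) (.typ 4 5 (.ref 237 1061) (.deg 4 (.ref 917 1346) (.ref 943 332802)))) (.con 0 2)))),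
  (.fbd 4 2 (.ref 357 66) (.ref 997 5517840)),
  (.loc 5 (.typ 2 5 (.ref 996 340496) (.ref 998 340496)) (.con 5 0))]

theorem tc971 : J.chkL tL tr971 971 = true := by decide +kernel

/-- Trees. -/
noncomputable def tr1000 : List J.Tr := [
  (.exp 2 (.ref 999 5517840)),
  (.loc 4 (.ref 998 274960) (.ref 1000 274960)),
  (.typ 2 4 (.ref 996 274960) (.ref 1001 274960)),
  (.exp 2 (.ref 1002 274960)),
  (.deg 1 (.ref 1003 12816) (.ref 255 801)),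
  (.deg 2 (.ref 1004 12816) (.deg 1 (.ref 934 12816) (.ref 255 801))),
  (.prm 1 (.con 14 1)),
  (.door 2 (.ref 1006 33) (.loc 3 (.ref 149 306) (.adj 2 3 (.ref 1005 12816) (.ref 910 12576)))),
  (.loc 2 (.ref 1007 12816) (.loc 3 (.ref 1007 8976) (.con 17 1))),
  (.typ 1 2 (.ref 920 12816) (.typ 1 3 (.ref 920 8976) (.ref 1008 12816))),
  (.loc 1 (.ref 910 12816) (.typ 0 1 (.typ 0 2 (.typ 0 3 (.deg 2 (.ref 908 528) (.deg 3 (.ref 908 784) (.ref 1009 12816))) (.ref 759 48)) (.ref 759 32)) (.ref 759 16))),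
  (.ref 1010 12816),
  (.loc 5 (.ref 68 1070130) (.deg 5 (.con 2 1) (.ref 290 1069890))),
  (.loc 5 (.deg 5 (.con 7 35) (.ref 30 21)) (.ref 148 21)),
  (.typ 1 5 (.ref 1013 5517840) (.ref 1012 5517840)),
  (.fbd 1 3 (.adj 3 5 (.ref 62 13330) (.ref 1014 5517840)) (.con 0 1)),
  (.fbd 4 1 (.ref 62 17170) (.ref 1015 5517840)),
  (.loc 4 (.deg 4 (.con 7 24) (.ref 16 65)) (.ref 16 20)),
  (.loc 4 (.adj 2 4 (.adj 3 4 (.door 0 (.door 4 (.con 15 0) (.ref 225 1040)) (.ref 237 1025)) (.ref 1017 262930)) (.ref 1017 262675)) (.ref 16 20)),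
  (.loc 4 (.deg 4 (.con 7 18) (.ref 16 65)) (.ref 148 20)),
  (.fbd 1 4 (.typ 1 5 (.adj 4 5 (.ref 254 13345) (.ref 1019 344848)) (.ref 367 1070115)) (.con 0 1)),
  (.fbd 3 1 (.ref 254 17185) (.ref 1020 5517840)),
  (.deg 4 (.ref 759 20) (.typ 3 4 (.ref 16 67) (.ref 236 213250))),
  (.typ 2 4 (.ref 1017 274720) (.typ 3 4 (.loc 4 (.deg 4 (.con 7 24) (.ref 16 67)) (.ref 125 1043)) (.ref 1022 143425))),
  (.typ 4 1 (.ref 1017 274960) (.ref 1023 274960)),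
  (.loc 6 (.fbd 1 3 (.adj 1 6 (.ref 1024 132145) (.deg 6 (.con 7 72) (.typ 1 6 (.ref 1017 77922) (.typ 2 6 (.ref 1017 143457) (.typ 3 6 (.ref 16 99) (.ref 131 3170836)))))) (.con 0 3)) (.con 14 2)),
  (.fbd 3 2 (.ref 1024 66610) (.ref 1025 106181136)),
  (.typ 1 4 (.loc 4 (.deg 4 (.loc 3 (.deg 3 (.con 7 10) (.ref 1017 135220)) (.ref 917 833)) (.ref 16 65)) (.ref 148 20)) (.ref 202 82720)),
  (.adj 1 5 (.typ 2 5 (.ref 16 37) (.typ 3 5 (.ref 125 1315) (.ref 211 196901))) (.con 14 1))]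

theorem tc1000 : J.chkL tL tr1000 1000 = true := by decide +kernel

/-- Trees. -/
noncomputable def tr1029 : List J.Tr := [
  (.typ 2 3 (.ref 1017 131380) (.adj 2 6 (.ref 370 214530) (.ref 1028 6628112))),
  (.typ 2 4 (.ref 16 36) (.typ 3 4 (.ref 125 1059) (.ref 252 205120))),
  (.typ 3 4 (.ref 33 201730) (.typ 2 4 (.ref 237 1074) (.ref 252 205120))),
  (.loc 4 (.ref 1031 274960) (.ref 1030 274960)),
  (.adj 1 4 (.fbd 3 4 (.ref 1032 274960) (.con 0 3)) (.con 7 10)),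
  (.deg 5 (.typ 3 5 (.adj 3 4 (.ref 206 340290) (.ref 1033 274513)) (.ref 919 849)) (.ref 16 81)),
  (.door 5 (.ref 1006 84) (.adj 2 3 (.ref 108 21552) (.adj 2 5 (.fbd 3 5 (.ref 108 1077) (.con 0 3)) (.con 7 13)))),
  (.typ 1 4 (.loc 4 (.adj 2 4 (.typ 3 4 (.loc 3 (.deg 3 (.con 7 10) (.ref 1017 135220)) (.ref 140 82720)) (.ref 1027 274960)) (.ref 937 16912)) (.ref 148 20)) (.ref 190 82720)),
  (.fbd 3 1 (.ref 323 8241) (.ref 1036 274960)),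
  (.adj 2 3 (.ref 1037 25648) (.typ 2 3 (.ref 1017 131380) (.adj 2 6 (.ref 32 205920) (.adj 1 6 (.fbd 1 2 (.ref 1028 4522770) (.con 0 2)) (.con 16 13))))),
  (.loc 5 (.door 5 (.ref 1006 84) (.adj 2 3 (.ref 937 21552) (.adj 2 5 (.fbd 2 3 (.typ 2 3 (.ref 1017 131380) (.ref 73 13345)) (.con 0 3)) (.con 7 13)))) (.ref 148 53)),
  (.deg 4 (.ref 759 36) (.typ 1 4 (.ref 16 65) (.ref 321 82435))),
  (.typ 2 4 (.typ 1 4 (.ref 331 73795) (.ref 225 1057)) (.ref 1040 274960)),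
  (.loc 4 (.door 4 (.con 15 1) (.fbd 1 4 (.ref 1041 274960) (.con 0 1))) (.con 14 1)),
  (.fbd 3 4 (.adj 3 5 (.ref 1042 136195) (.ref 1024 344864)) (.con 0 4)),
  (.fbd 4 2 (.ref 1042 201730) (.ref 1043 5517840)),
  (.fbd 3 4 (.adj 3 5 (.ref 229 9265) (.ref 1024 344864)) (.con 0 4)),
  (.fbd 4 2 (.ref 229 13345) (.ref 1045 5517840)),
  (.loc 3 (.con 0 2) (.deg 3 (.con 2 1) (.typ 1 3 (.ref 908 49) (.ref 759 49)))),
  (.fbd 3 2 (.ref 276 4866) (.ref 1047 17185)),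
  (.fbd 0 6 (.typ 1 6 (.deg 5 (.ref 1048 25872) (.ref 276 5712)) (.ref 780 22032)) (.con 0 0)),
  (.prm 1 (.ref 1049 106181136)),
  (.loc 6 (.door 6 (.con 6 1) (.typ 1 6 (.ref 1050 6566416) (.ref 415 1552))) (.con 6 1)),
  (.exp 1 (.ref 1051 106181136)),
  (.prm 1 (.ref 1052 5517840)),
  (.door 0 (.con 3 0) (.door 1 (.ref 1053 274960) (.ref 1046 274960))),
  (.loc 1 (.ref 1054 274960) (.door 0 (.ref 1044 274960) (.con 2 0)))]

theorem tc1029 : J.chkL tL tr1029 1029 = true := by decide +kernel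

end Pool.Agent.Lib.MP_efe3d7_co.D
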