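import Pool.Agent.Lib.MP_efe3d7_co.D.Tab

/-! Case trees. -/

set_option autoImplicit false

namespace Pool.Agent.Lib.MP_efe3d7_co.D

open H

/-- Trees. -/
noncomputable def tr1056 : List J.Tr := [
  (.deg 5 (.ref 917 1106) (.typ 2 5 (.ref 225 596) (.ref 96 1193220))),
  (.adj 1 4 (.ref 64 5170) (.adj 3 4 (.ref 64 13345) (.con 7 17))),
  (.loc 6 (.fbd 2 4 (.typ 2 6 (.adj 4 6 (.ref 254 5170) (.deg 6 (.con 7 68) (.ref 16 98))) (.ref 367 2122801)) (.con 0 2)) (.con 14 1)),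
  (.fbd 1 2 (.ref 254 16690) (.ref 1058 106181136)),
  (.fbd 4 3 (.ref 334 17185) (.con 7 24)),
  (.fbd 4 2 (.ref 1060 144400) (.con 7 20)),
  (.adj 3 5 (.fbd 3 4 (.ref 151 16690) (.con 0 4)) (.con 7 24)),
  (.fbd 4 2 (.ref 259 16690) (.ref 1062 5517840)),
  (.deg 4 (.fbd 3 4 (.ref 117 66610) (.con 0 4)) (.ref 212 74500)),
  (.typ 4 1 (.deg 4 (.ref 918 833) (.ref 16 65)) (.ref 1064 5517840)),
  (.prm 4 (.ref 1065 5517840)),
  (.deg 1 (.ref 265 18900291) (.adj 3 4 (.ref 96 2122561) (.typ 3 4 (.ref 1017 196930) (.ref 5 2122801)))),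
  (.typ 1 4 (.adj 4 5 (.ref 124 78405) (.typ 4 5 (.ref 243 1045) (.ref 149 5200))) (.ref 919 1040)),
  (.deg 4 (.ref 759 52) (.typ 2 4 (.ref 16 66) (.ref 107 82720))),
  (.typ 4 3 (.typ 2 4 (.ref 352 82720) (.ref 193 82480)) (.ref 1069 274960)),
  (.loc 7 (.door 7 (.con 5 0) (.fbd 3 5 (.fbd 5 6 (.fbd 5 7 (.adj 3 7 (.ref 1070 484624) (.deg 7 (.con 7 160) (.typ 3 7 (.ref 16 115) (.typ 5 7 (.ref 225 1395) (.ref 124 5337952))))) (.con 0 5)) (.con 0 5)) (.con 0 5))) (.con 5 0)),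
  (.typ 1 3 (.adj 2 3 (.loc 3 (.ref 355 4656) (.ref 278 4896)) (.ref 910 12321)) (.ref 759 49)),
  (.exp 1 (.ref 1072 12816)),
  (.fbd 6 5 (.ref 1073 1557) (.ref 1071 1985229328)),
  (.adj 2 6 (.ref 1074 106177296) (.typ 2 6 (.ref 125 598) (.ref 35 75344))),
  (.adj 5 4 (.ref 1075 106181136) (.typ 4 5 (.ref 16 84) (.ref 124 5325408))),
  (.adj 5 3 (.ref 1076 106181136) (.ref 1076 106119696)),
  (.loc 5 (.door 5 (.con 15 2) (.fbd 2 3 (.fbd 2 5 (.ref 1070 340496) (.con 0 2)) (.con 0 2))) (.con 14 2)),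
  (.fbd 3 2 (.ref 355 4866) (.ref 1078 5517840)),
  (.prm 2 (.ref 1079 274960)),
  (.door 2 (.door 3 (.con 15 2) (.ref 1080 12816)) (.ref 302 4866)),
  (.adj 4 5 (.ref 1081 25872) (.typ 4 5 (.ref 238 83296) (.ref 1077 106112016))),
  (.adj 5 3 (.ref 1082 106181136) (.typ 3 5 (.ref 16 83) (.ref 1077 106177296))),
  (.adj 5 2 (.ref 1083 106181136) (.typ 2 5 (.ref 16 82) (.ref 1077 106181136)))]

theorem tc1056 : J.chkL tL tr1056 1056 = true := by decide +kernel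

/-- Trees. -/
noncomputable def tr1085 : List J.Tr := [
  (.typ 1 5 (.adj 2 5 (.ref 162 1070130) (.door 1 (.con 3 1) (.ref 910 20513))) (.ref 369 5408)),
  (.exp 1 (.ref 1085 5517840)),
  (.typ 1 5 (.adj 4 5 (.ref 162 1069860) (.typ 4 5 (.ref 187 5200) (.loc 5 (.ref 149 5200) (.deg 5 (.con 2 1) (.ref 359 1070130))))) (.ref 759 81)),
  (.exp 1 (.ref 1087 5517840)),
  (.door 1 (.ref 1006 20) (.typ 1 4 (.ref 1088 274960) (.ref 919 1040))),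
  (.typ 2 5 (.ref 215 2118465) (.typ 4 5 (.ref 22 148304) (.deg 5 (.ref 917 1106) (.ref 52 148304)))),
  (.typ 4 5 (.ref 1090 5456400) (.typ 2 5 (.loc 5 (.deg 5 (.con 7 36) (.ref 16 82)) (.ref 148 37)) (.ref 333 152624))),
  (.typ 5 3 (.ref 1090 5517840) (.ref 1091 5517840)),
  (.adj 3 5 (.fbd 2 5 (.typ 2 5 (.ref 953 148752) (.ref 937 5202)) (.con 0 2)) (.con 7 38)),
  (.door 0 (.door 1 (.con 15 0) (.ref 759 1)) (.ref 759 16)),
  (.door 1 (.door 2 (.con 15 1) (.ref 908 258)) (.ref 908 513)),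
  (.typ 2 1 (.ref 1095 528) (.ref 1094 33)),
  (.adj 4 5 (.ref 302 9040) (.typ 4 5 (.ref 307 147509) (.loc 5 (.ref 35 148229) (.deg 5 (.ref 11 152624) (.ref 246 136245))))),
  (.adj 3 5 (.ref 1097 5517840) (.door 2 (.con 3 2) (.ref 910 20530))),
  (.fbd 0 5 (.typ 2 5 (.ref 1098 5517840) (.ref 369 9520)) (.con 0 0)),
  (.exp 2 (.ref 1099 5517840)),
  (.adj 2 5 (.fbd 1 2 (.ref 1100 274960) (.con 0 1)) (.con 7 7)),
  (.exp 1 (.ref 1101 5517840)),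
  (.loc 1 (.door 0 (.con 3 0) (.ref 1102 274960)) (.door 0 (.con 14 0) (.con 2 0))),
  (.typ 4 1 (.ref 1103 274960) (.ref 917 1040)),
  (.typ 3 4 (.deg 4 (.ref 759 36) (.ref 16 67)) (.ref 332 200740)),
  (.loc 4 (.typ 3 4 (.ref 25 148225) (.door 4 (.deg 4 (.ref 764 1074) (.ref 16 66)) (.ref 1105 271120))) (.ref 148 36)),
  (.typ 4 2 (.ref 1106 274960) (.typ 3 4 (.ref 323 12354) (.ref 332 135220))),
  (.adj 1 4 (.fbd 2 4 (.ref 1107 274960) (.con 0 2)) (.con 7 6)),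
  (.fbd 4 3 (.ref 56 17185) (.ref 1108 344864)),
  (.typ 1 5 (.typ 2 5 (.deg 5 (.ref 908 1281) (.ref 964 5517840)) (.ref 759 82)) (.ref 759 81)),
  (.fbd 2 1 (.ref 241 16915) (.ref 1110 5517840)),
  (.loc 6 (.door 6 (.con 6 2) (.typ 2 5 (.typ 1 6 (.typ 2 6 (.deg 6 (.ref 1048 22048) (.ref 964 6566416)) (.ref 415 1568)) (.ref 759 97)) (.ref 780 25888))) (.con 6 2))]

theorem tc1085 : J.chkL tL tr1085 1085 = true := by decide +kernel

/-- Trees. -/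
noncomputable def tr1113 : List J.Tr := [
  (.fbd 1 2 (.ref 241 16675) (.ref 1112 106181136)),
  (.deg 6 (.con 17 71) (.typ 2 4 (.typ 2 6 (.ref 42 2184288) (.ref 415 1568)) (.ref 780 25632))),
  (.adj 7 2 (.ref 102 95808) (.ref 1114 2271556112)),
  (.fbd 7 4 (.ref 31 95808) (.loc 8 (.ref 1115 36344967696) (.con 5 0))),
  (.adj 7 3 (.ref 1116 1985229328) (.typ 3 7 (.ref 16 115) (.ref 108 29744))),
  (.fbd 5 6 (.ref 276 5382) (.loc 7 (.con 0 5) (.con 5 0))),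
  (.adj 7 4 (.ref 1118 124076560) (.typ 4 7 (.ref 16 116) (.ref 1117 1985229328))),
  (.fbd 5 4 (.ref 276 5380) (.loc 6 (.con 0 5) (.con 5 0))),
  (.loc 7 (.door 7 (.con 6 1) (.fbd 0 7 (.typ 1 6 (.typ 1 7 (.adj 4 6 (.ref 1120 6767888) (.deg 7 (.ref 1048 26384) (.typ 4 6 (.ref 289 95808) (.ref 1119 1985229328)))) (.ref 415 1808)) (.ref 780 30224)) (.con 0 0))) (.con 6 1)),
  (.exp 1 (.ref 1121 1985229328)),
  (.prm 1 (.fbd 0 6 (.ref 1122 106181136) (.con 0 0))),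
  (.door 1 (.ref 1123 5517840) (.ref 1113 5517840)),
  (.prm 2 (.ref 1124 5517840)),
  (.door 2 (.ref 1125 274960) (.door 1 (.ref 1125 274720) (.ref 1111 274960))),
  (.adj 4 2 (.ref 1126 274960) (.ref 936 17184)),
  (.adj 4 1 (.ref 1127 274960) (.ref 936 17168)),
  (.door 0 (.con 3 0) (.adj 1 2 (.ref 1128 274960) (.ref 1096 528))),
  (.loc 2 (.ref 1129 274960) (.door 0 (.con 14 0) (.con 2 0))),
  (.loc 1 (.ref 1130 274960) (.loc 2 (.ref 1130 274720) (.con 4 0))),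
  (.fbd 4 3 (.ref 331 17185) (.ref 1033 344864)),
  (.door 0 (.door 2 (.con 15 0) (.ref 1132 274960)) (.con 2 0)),
  (.fbd 3 4 (.ref 56 13345) (.ref 1033 344864)),
  (.loc 1 (.ref 1134 274960) (.ref 1133 274960)),
  (.typ 4 2 (.ref 1135 274960) (.door 2 (.ref 918 1056) (.ref 759 66))),
  (.loc 2 (.adj 1 2 (.ref 1136 274960) (.con 7 5)) (.con 0 2)),
  (.fbd 2 1 (.ref 24 344865) (.loc 6 (.con 0 2) (.con 17 3))),
  (.loc 5 (.con 0 2) (.typ 1 5 (.ref 1138 5517840) (.ref 759 81))),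
  (.fbd 2 1 (.ref 147 9265) (.ref 1139 5517840)),
  (.door 0 (.door 1 (.con 15 0) (.ref 1140 274960)) (.con 2 0)),
  (.adj 4 5 (.adj 1 4 (.ref 1052 5517840) (.ref 384 1345)) (.ref 764 336)),
  (.door 1 (.loc 5 (.ref 415 1296) (.ref 1142 5517840)) (.ref 759 81)),
  (.typ 1 5 (.typ 2 5 (.deg 5 (.ref 908 1281) (.ref 964 5517840)) (.ref 1143 5325600)) (.ref 1143 5391120))]

theorem tc1113 : J.chkL tL tr1113 1113 = true := by decide +kernel

/-- Trees. -/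
noncomputable def tr1145 : List J.Tr := [
  (.fbd 2 1 (.ref 241 16915) (.ref 1144 5517840)),
  (.prm 2 (.ref 1142 5325600)),
  (.door 2 (.ref 1146 274960) (.door 1 (.ref 1146 274720) (.ref 1145 274960))),
  (.door 0 (.con 3 0) (.adj 1 2 (.ref 1147 274960) (.ref 1096 528))),
  (.loc 2 (.ref 1148 274960) (.ref 1141 274960)),
  (.loc 1 (.ref 1149 274960) (.loc 2 (.ref 1149 274720) (.con 4 0))),
  (.adj 4 2 (.ref 1150 274960) (.ref 1137 274960)),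
  (.adj 4 1 (.ref 1151 274960) (.ref 1137 274720)),
  (.door 0 (.door 2 (.con 15 0) (.ref 1073 800)) (.con 2 0)),
  (.fbd 1 2 (.ref 1153 306) (.ref 910 16417)),
  (.adj 2 3 (.ref 208 12865) (.door 2 (.con 15 2) (.typ 2 3 (.ref 1154 21280) (.ref 759 50)))),
  (.adj 3 4 (.adj 1 3 (.ref 1155 5517840) (.adj 1 4 (.adj 2 3 (.ref 1155 5517600) (.adj 2 4 (.ref 208 16945) (.con 7 5))) (.con 7 3))) (.con 14 3)),
  (.prm 3 (.ref 1156 5517840)),
  (.adj 2 6 (.fbd 0 6 (.typ 1 6 (.adj 3 6 (.adj 4 6 (.ref 302 4960) (.typ 4 6 (.ref 307 81974) (.ref 284 74806))) (.ref 910 24625)) (.ref 759 97)) (.con 0 0)) (.con 7 7)),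
  (.exp 1 (.ref 1158 106181136)),
  (.typ 4 2 (.ref 1159 5517840) (.door 2 (.ref 918 1056) (.ref 759 66))),
  (.typ 4 2 (.typ 3 4 (.ref 25 213505) (.ref 225 1059)) (.ref 1105 274960)),
  (.loc 5 (.door 5 (.con 15 2) (.adj 1 5 (.fbd 3 5 (.ref 1161 340496) (.con 0 3)) (.con 7 10))) (.con 14 2)),
  (.fbd 3 4 (.ref 56 13345) (.ref 1162 6636320)),
  (.typ 4 2 (.ref 1163 5517840) (.door 2 (.ref 918 1056) (.ref 759 66))),
  (.adj 1 4 (.adj 2 4 (.deg 3 (.ref 336 13632) (.ref 1147 274960)) (.ref 1164 5517840)) (.ref 1164 5517600)),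
  (.loc 7 (.door 7 (.con 17 153) (.typ 4 7 (.deg 7 (.typ 6 7 (.ref 325 4421200) (.ref 759 103)) (.ref 16 116)) (.ref 240 4421200))) (.con 17 25)),
  (.fbd 6 4 (.ref 301 222528) (.ref 1166 1985229328)),
  (.loc 6 (.con 0 5) (.deg 6 (.con 2 4) (.typ 4 6 (.ref 16 70) (.ref 1167 106181136)))),
  (.fbd 5 4 (.ref 66 3167265) (.ref 1168 106181136)),
  (.deg 3 (.ref 1169 5517840) (.ref 1147 274960)),
  (.adj 4 2 (.ref 1170 5517840) (.ref 1164 5517840)),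
  (.adj 4 1 (.ref 1171 5517840) (.ref 1164 5517600)),
  (.typ 3 5 (.ref 1172 5517840) (.ref 1165 5517840)),
  (.adj 3 1 (.ref 1155 5517840) (.adj 1 4 (.ref 1155 6504976) (.con 7 3))),
  (.prm 4 (.ref 1174 106181136)),
  (.prm 1 (.typ 1 3 (.ref 278 4896) (.ref 369 4896)))]

theorem tc1145 : J.chkL tL tr1145 1145 = true := by decide +kernel

/-- Trees. -/
noncomputable def tr1177 : List J.Tr := [
  (.door 1 (.ref 764 336) (.typ 1 5 (.ref 139 2118705) (.ref 759 81))),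
  (.adj 5 1 (.ref 6 2118705) (.ref 1177 5517840)),
  (.adj 3 5 (.typ 2 5 (.deg 5 (.ref 908 1282) (.adj 4 5 (.ref 953 213029) (.typ 4 5 (.ref 187 9296) (.loc 5 (.ref 149 9296) (.ref 1178 5517840))))) (.ref 759 82)) (.con 7 12)),
  (.exp 2 (.ref 1179 5517840)),
  (.fbd 2 1 (.ref 210 50746401) (.con 7 6)),
  (.adj 5 2 (.ref 310 50746401) (.typ 2 5 (.ref 50 50479461) (.ref 759 82))),
  (.adj 6 5 (.ref 209 822568258) (.typ 5 6 (.ref 16 101) (.ref 1182 106181136))),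
  (.adj 6 4 (.ref 1120 6636304) (.typ 4 6 (.ref 89 156720) (.ref 299 143430))),
  (.adj 6 4 (.ref 1184 124076816) (.typ 4 6 (.ref 16 100) (.ref 1183 1985229328))),
  (.fbd 1 2 (.fbd 0 7 (.typ 1 7 (.adj 4 7 (.ref 276 5984) (.typ 4 7 (.ref 289 91968) (.ref 1185 1985229328))) (.ref 780 26384)) (.con 0 0)) (.con 0 1)),
  (.prm 1 (.ref 1186 1985229328)),
  (.loc 6 (.door 2 (.con 5 0) (.door 6 (.con 15 1) (.deg 6 (.ref 908 1538) (.ref 1187 106181136)))) (.con 5 0)),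
  (.door 1 (.ref 1188 106181136) (.deg 6 (.ref 908 1537) (.ref 1181 106181136))),
  (.typ 6 2 (.ref 1189 106181136) (.door 2 (.ref 392 24864) (.ref 759 98))),
  (.typ 6 1 (.ref 1190 106181136) (.door 1 (.ref 392 25104) (.ref 759 97))),
  (.fbd 2 1 (.ref 93 3166785) (.ref 1191 106181136)),
  (.door 1 (.ref 764 336) (.typ 1 5 (.adj 2 5 (.ref 1192 5517600) (.door 2 (.ref 764 592) (.typ 2 5 (.ref 101 3167265) (.ref 759 82)))) (.ref 759 81))),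
  (.adj 5 1 (.ref 1192 5517840) (.ref 1193 5517840)),
  (.adj 2 1 (.ref 1194 5517840) (.ref 1096 528)),
  (.typ 3 5 (.adj 4 5 (.ref 29 3162645) (.typ 4 5 (.ref 187 13392) (.loc 5 (.ref 149 13392) (.deg 4 (.con 17 9) (.deg 5 (.con 2 3) (.ref 1195 5517840)))))) (.ref 759 83)),
  (.exp 3 (.ref 1196 5517840)),
  (.adj 3 4 (.ref 234 12820) (.adj 1 3 (.adj 2 3 (.door 3 (.ref 764 832) (.typ 3 4 (.ref 1197 274960) (.ref 759 67))) (.con 7 9)) (.con 7 9))),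
  (.adj 1 2 (.adj 2 3 (.door 2 (.ref 764 576) (.adj 1 3 (.typ 2 4 (.adj 3 4 (.ref 1198 271120) (.door 3 (.ref 764 832) (.typ 3 4 (.ref 1180 274960) (.ref 759 67)))) (.ref 759 66)) (.ref 1096 784))) (.con 7 5)) (.con 7 5)),
  (.adj 2 4 (.ref 1198 274960) (.ref 1199 274960)),
  (.adj 1 2 (.adj 1 3 (.door 1 (.ref 764 320) (.adj 2 3 (.typ 1 4 (.adj 2 4 (.ref 1200 274720) (.door 2 (.ref 764 576) (.typ 2 4 (.ref 1180 270640) (.ref 759 66)))) (.ref 759 65)) (.ref 1096 800))) (.con 7 3)) (.con 7 3))]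

theorem tc1177 : J.chkL tL tr1177 1177 = true := by decide +kernel

/-- Trees. -/
noncomputable def tr1202 : List J.Tr := [
  (.adj 1 4 (.ref 1200 274960) (.ref 1201 274960)),
  (.deg 4 (.ref 234 12820) (.door 0 (.con 3 0) (.ref 1202 274960))),
  (.loc 3 (.ref 1203 274960) (.door 0 (.con 14 0) (.con 2 0))),
  (.loc 2 (.ref 1204 274960) (.loc 3 (.ref 1204 271120) (.con 4 0))),
  (.loc 1 (.ref 1205 274960) (.loc 2 (.ref 1205 274720) (.con 4 0))),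
  (.typ 3 5 (.adj 4 5 (.ref 29 3162645) (.ref 910 20547)) (.ref 759 83)),
  (.exp 3 (.ref 1207 5517840)),
  (.loc 2 (.door 3 (.ref 1176 1072) (.ref 1208 274960)) (.ref 1153 17184)),
  (.loc 1 (.ref 1209 274960) (.ref 1153 17168)),
  (.typ 4 3 (.ref 1210 274960) (.door 3 (.ref 918 1072) (.ref 759 67))),
  (.loc 3 (.adj 3 4 (.ref 357 4) (.adj 1 3 (.adj 2 3 (.ref 1211 274960) (.con 7 9)) (.con 7 9))) (.ref 357 4)),
  (.adj 3 5 (.typ 2 5 (.adj 4 5 (.deg 5 (.ref 908 1282) (.ref 1078 3227685)) (.ref 910 20546)) (.ref 759 82)) (.con 7 12)),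
  (.exp 2 (.ref 1213 5517840)),
  (.door 0 (.door 2 (.con 15 0) (.ref 1214 274960)) (.con 2 0)),
  (.loc 5 (.door 5 (.con 15 1) (.ref 1050 5517840)) (.ref 1142 5517840)),
  (.typ 2 5 (.adj 4 5 (.adj 1 5 (.ref 326 2110740) (.typ 1 5 (.door 1 (.ref 1216 5391120) (.deg 5 (.ref 908 1281) (.ref 952 213029))) (.ref 1143 5391120))) (.ref 910 20546)) (.ref 759 82)),
  (.exp 2 (.ref 1217 5517840)),
  (.prm 2 (.typ 2 5 (.ref 326 2110740) (.ref 369 9536))),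
  (.door 0 (.con 3 0) (.door 2 (.ref 1219 274960) (.ref 1218 274960))),
  (.loc 1 (.ref 1220 274960) (.ref 1215 274960)),
  (.typ 4 3 (.ref 1221 274960) (.door 3 (.ref 918 1072) (.ref 759 67))),
  (.typ 4 2 (.ref 1222 274960) (.door 2 (.ref 918 1056) (.ref 759 66))),
  (.loc 2 (.adj 1 2 (.adj 2 3 (.loc 3 (.adj 3 4 (.ref 1212 271120) (.adj 1 3 (.ref 1223 274960) (.con 7 9))) (.ref 1212 271120)) (.con 7 5)) (.con 7 5)) (.con 0 2)),
  (.adj 4 2 (.ref 1212 274960) (.ref 1224 274960)),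
  (.adj 3 5 (.typ 1 5 (.adj 4 5 (.ref 326 1058100) (.ref 910 20545)) (.ref 759 81)) (.con 7 10)),
  (.exp 1 (.ref 1226 5514000)),
  (.typ 4 3 (.door 1 (.ref 1219 274720) (.ref 1227 274960)) (.door 3 (.ref 918 1072) (.ref 759 67))),
  (.typ 4 1 (.ref 1228 274960) (.door 1 (.ref 918 1040) (.ref 759 65))),
  (.loc 1 (.adj 1 2 (.adj 1 3 (.loc 2 (.loc 3 (.adj 2 4 (.ref 1225 274720) (.adj 2 3 (.adj 3 4 (.ref 1225 270640) (.ref 1229 274960)) (.con 7 5))) (.ref 1225 270640)) (.ref 1225 274720)) (.con 7 3)) (.con 7 3)) (.con 0 1))]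

theorem tc1202 : J.chkL tL tr1202 1202 = true := by decide +kernel

/-- Trees. -/
noncomputable def tr1231 : List J.Tr := [
  (.adj 4 1 (.ref 1225 274960) (.ref 1230 274960)),
  (.adj 3 4 (.ref 234 12820) (.door 3 (.con 15 3) (.adj 1 3 (.adj 2 3 (.typ 3 4 (.deg 4 (.ref 908 1027) (.ref 1208 274960)) (.ref 759 67)) (.con 7 9)) (.con 7 9)))),
  (.door 2 (.con 15 2) (.adj 1 2 (.adj 2 3 (.typ 2 4 (.adj 3 4 (.ref 1232 271120) (.door 3 (.con 15 3) (.adj 1 3 (.typ 3 4 (.ref 1218 274960) (.ref 759 67)) (.con 7 9)))) (.ref 759 66)) (.con 7 5)) (.con 7 5))),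
  (.adj 2 4 (.ref 1232 274960) (.ref 1233 274960)),
  (.door 1 (.con 15 1) (.adj 1 2 (.adj 1 3 (.typ 1 4 (.adj 2 4 (.ref 1234 274720) (.adj 2 3 (.adj 3 4 (.ref 1234 270640) (.door 3 (.con 15 3) (.typ 3 4 (.ref 1227 274960) (.ref 759 67)))) (.con 7 5))) (.ref 759 65)) (.con 7 3)) (.con 7 3))),
  (.adj 1 4 (.ref 1234 274960) (.ref 1235 274960)),
  (.door 0 (.con 15 0) (.loc 1 (.loc 2 (.loc 3 (.ref 1236 274960) (.con 2 0)) (.con 2 0)) (.con 2 0))),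
  (.door 4 (.ref 1237 274960) (.deg 4 (.ref 759 4) (.ref 1231 274960))),
  (.loc 4 (.ref 1238 274960) (.ref 1206 274960)),
  (.fbd 3 4 (.ref 355 4868) (.fbd 3 5 (.ref 954 5517840) (.con 0 3))),
  (.adj 2 4 (.typ 2 3 (.ref 1240 274960) (.ref 759 50)) (.con 7 6)),
  (.adj 2 3 (.ref 288 4163) (.adj 2 4 (.typ 2 3 (.ref 1240 274960) (.ref 759 50)) (.con 7 6))),
  (.adj 4 2 (.ref 1242 344848) (.ref 1241 344592)),
  (.typ 2 4 (.deg 4 (.ref 759 52) (.ref 16 66)) (.ref 113 82480)),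
  (.typ 5 4 (.typ 3 5 (.ref 352 87088) (.ref 287 214305)) (.ref 1244 344848)),
  (.loc 6 (.door 6 (.con 15 4) (.adj 2 6 (.fbd 3 6 (.ref 1245 6566416) (.con 0 3)) (.con 7 14))) (.con 14 4)),
  (.fbd 3 4 (.ref 355 4868) (.ref 1246 106181136)),
  (.prm 4 (.ref 1247 5517840)),
  (.door 4 (.door 3 (.con 15 3) (.deg 4 (.ref 1081 13328) (.ref 1248 274960))) (.ref 302 4868)),
  (.typ 6 4 (.typ 5 6 (.ref 220 91456) (.ref 287 345633)) (.typ 5 6 (.ref 287 284209) (.ref 98 4273744))),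
  (.adj 2 6 (.adj 3 6 (.ref 1250 106181136) (.con 7 26)) (.con 7 38)),
  (.fbd 5 4 (.ref 355 5380) (.ref 1251 106181136)),
  (.typ 4 6 (.deg 6 (.ref 759 54) (.ref 16 100)) (.ref 113 91184)),
  (.typ 7 4 (.typ 5 7 (.ref 352 95552) (.ref 287 345905)) (.ref 1253 124076560))]

theorem tc1231 : J.chkL tL tr1231 1231 = true := by decide +kernel

/-- Trees. -/
noncomputable def tr1255 : List J.Tr := [
  (.loc 7 (.door 7 (.con 15 4) (.adj 3 7 (.fbd 5 7 (.ref 1254 1985229328) (.con 0 5)) (.con 7 42))) (.con 14 4)),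
  (.fbd 5 4 (.ref 355 5380) (.ref 1255 1985229328)),
  (.adj 4 7 (.ref 0 221447) (.typ 4 7 (.adj 5 7 (.ref 154 18256) (.typ 5 7 (.ref 187 18256) (.ref 38 1124168293))) (.ref 759 116))),
  (.adj 2 4 (.ref 288 4180) (.typ 2 4 (.ref 155 1389570) (.ref 124 4285008))),
  (.adj 5 2 (.ref 1258 124076816) (.ref 1258 124076560)),
  (.adj 2 3 (.ref 276 4928) (.adj 2 5 (.typ 2 3 (.typ 4 5 (.ref 287 214305) (.ref 98 3220800)) (.ref 124 3232320)) (.con 7 14))),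
  (.adj 4 2 (.ref 1260 6636304) (.ref 1260 6636048)),
  (.loc 6 (.ref 1261 124072464) (.ref 1259 1985229328)),
  (.adj 7 4 (.ref 106 822568258) (.typ 4 7 (.ref 1257 1450447408) (.ref 759 116))),
  (.adj 7 2 (.ref 1257 1985229328) (.typ 2 7 (.ref 1263 1985229328) (.ref 759 114))),
  (.adj 4 5 (.ref 64 152624) (.typ 4 5 (.ref 1017 271184) (.ref 124 5325408))),
  (.adj 5 3 (.ref 1265 106181136) (.ref 1265 106119696)),
  (.loc 5 (.door 5 (.con 5 0) (.deg 5 (.adj 3 5 (.typ 1 5 (.ref 140 87088) (.ref 759 21)) (.con 7 34)) (.ref 1017 267088))) (.con 5 0)),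
  (.loc 4 (.deg 4 (.con 7 18) (.ref 1017 200773)) (.ref 1267 5517840)),
  (.typ 5 4 (.ref 1268 5517840) (.ref 1027 344848)),
  (.fbd 4 1 (.ref 323 12353) (.ref 1269 5517840)),
  (.fbd 4 5 (.typ 3 4 (.ref 144 78928) (.ref 124 4272720)) (.con 0 4)),
  (.adj 5 7 (.ref 64 161088) (.typ 5 7 (.ref 1017 337008) (.adj 5 6 (.ref 1074 124076816) (.ref 1271 7754768)))),
  (.adj 7 4 (.ref 1272 1985229328) (.typ 4 7 (.ref 1270 475936) (.ref 35 83808))),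
  (.loc 7 (.door 7 (.con 5 0) (.fbd 3 5 (.fbd 5 6 (.fbd 5 7 (.adj 3 7 (.ref 1070 484624) (.deg 7 (.con 7 160) (.typ 3 7 (.ref 16 115) (.typ 5 7 (.ref 225 1395) (.ref 124 5337952))))) (.con 0 5)) (.con 0 5)) (.con 0 5))) (.con 5 0)),
  (.fbd 6 5 (.ref 1073 1557) (.ref 1274 1985229328)),
  (.adj 5 4 (.ref 1275 106181136) (.ref 1271 6636304)),
  (.fbd 6 5 (.ref 1073 1557) (.ref 1274 1985229328)),
  (.adj 6 4 (.ref 1277 106181136) (.typ 4 6 (.ref 16 100) (.ref 1276 106181136))),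
  (.adj 6 3 (.ref 1278 106181136) (.typ 3 6 (.ref 125 854) (.ref 35 79440))),
  (.adj 2 4 (.ref 276 5168) (.typ 2 4 (.ref 238 74800) (.ref 35 74800))),
  (.adj 6 2 (.ref 1280 414480) (.ref 1279 106181136)),
  (.adj 7 2 (.ref 1281 124076816) (.typ 2 7 (.ref 16 114) (.ref 1273 1985229328)))]

theorem tc1255 : J.chkL tL tr1255 1255 = true := by decide +kernel

end Pool.Agent.Lib.MP_efe3d7_co.D
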