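import Pool.Agent.Lib.MP_efe3d7_co.D.Tab

/-! Case trees. -/

set_option autoImplicit false

namespace Pool.Agent.Lib.MP_efe3d7_co.D

open H

/-- Trees. -/
noncomputable def tr1283 : List J.Tr := [
  (.adj 4 6 (.ref 1081 30224) (.typ 4 6 (.ref 238 83568) (.ref 1282 1985229328))),
  (.adj 6 3 (.ref 1283 1985229328) (.typ 3 6 (.ref 16 99) (.ref 1077 124076816))),
  (.adj 6 2 (.ref 1284 1985229328) (.typ 2 6 (.ref 16 98) (.ref 1266 124076560))),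
  (.adj 1 4 (.ref 311 9265) (.door 1 (.ref 1006 20) (.typ 1 4 (.ref 339 17185) (.ref 919 1040)))),
  (.deg 4 (.ref 917 833) (.typ 1 4 (.ref 16 20) (.ref 200 82720))),
  (.typ 1 4 (.loc 4 (.door 4 (.con 14 4) (.deg 4 (.con 7 18) (.ref 1024 136195))) (.ref 148 20)) (.ref 22 78400)),
  (.typ 2 5 (.ref 18 136515) (.adj 3 5 (.ref 32 132179) (.typ 3 5 (.ref 1288 341024) (.loc 5 (.door 5 (.con 14 5) (.deg 5 (.con 7 36) (.ref 1024 271619))) (.ref 172 144464))))),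
  (.typ 5 4 (.ref 1289 5517840) (.ref 1287 344864)),
  (.fbd 2 4 (.ref 1030 197140) (.ref 1290 5517840)),
  (.typ 1 4 (.loc 4 (.door 4 (.con 14 4) (.ref 1022 267040)) (.ref 148 20)) (.ref 26 82720)),
  (.typ 2 4 (.ref 1288 274960) (.ref 1292 274960)),
  (.typ 4 3 (.ref 1293 274960) (.ref 1292 271120)),
  (.fbd 2 4 (.adj 4 5 (.ref 282 16945) (.ref 1294 344864)) (.con 0 2)),
  (.fbd 3 2 (.ref 282 12865) (.ref 1295 5517840)),
  (.adj 4 1 (.ref 1296 274960) (.typ 1 4 (.ref 1291 274960) (.ref 919 1040))),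
  (.adj 2 3 (.adj 2 4 (.adj 1 2 (.ref 300 9265) (.typ 1 2 (.ref 1154 21008) (.ref 759 33))) (.con 14 2)) (.con 14 2)),
  (.prm 2 (.ref 1298 5517840)),
  (.loc 6 (.door 6 (.con 15 2) (.typ 2 6 (.typ 3 6 (.ref 18 202276) (.adj 4 6 (.ref 32 197220) (.deg 6 (.con 7 72) (.ref 16 98)))) (.ref 1022 406560))) (.con 14 2)),
  (.fbd 3 2 (.ref 1033 262930) (.ref 1300 106181136)),
  (.fbd 5 2 (.ref 44 344865) (.loc 6 (.con 0 5) (.con 14 2))),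
  (.loc 6 (.typ 1 6 (.adj 4 6 (.ref 239 74566) (.typ 4 6 (.ref 187 5216) (.ref 149 5216))) (.ref 759 97)) (.con 5 0)),
  (.exp 1 (.ref 1303 106181136)),
  (.adj 2 6 (.deg 2 (.fbd 1 2 (.adj 1 6 (.ref 1304 6566416) (.typ 1 6 (.ref 242 3212866) (.ref 759 97))) (.con 0 2)) (.ref 97 222210)) (.con 14 2)),
  (.adj 2 6 (.ref 341 221250) (.door 6 (.con 15 2) (.ref 1022 406080))),
  (.loc 6 (.ref 1306 106181136) (.ref 1305 106181136)),
  (.deg 6 (.adj 2 6 (.typ 4 6 (.deg 2 (.typ 2 5 (.ref 86 143700) (.ref 336 9536)) (.ref 18 4219186)) (.ref 759 70)) (.con 7 80)) (.ref 16 99))]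

theorem tc1283 : J.chkL tL tr1283 1283 = true := by decide +kernel

/-- Trees. -/
noncomputable def tr1309 : List J.Tr := [
  (.loc 6 (.typ 4 6 (.ref 1308 22037091) (.deg 6 (.ref 917 1123) (.ref 16 99))) (.ref 148 54)),
  (.adj 2 6 (.ref 32 205920) (.loc 6 (.door 6 (.con 15 2) (.ref 1309 22282851)) (.con 14 2))),
  (.typ 4 6 (.ref 1310 106181136) (.deg 6 (.ref 917 1123) (.ref 1307 106181136))),
  (.typ 3 6 (.ref 1309 106181136) (.ref 1311 106181136)),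
  (.fbd 3 4 (.ref 252 12580) (.fbd 3 5 (.ref 1312 106181136) (.con 0 3))),
  (.loc 7 (.fbd 3 6 (.adj 6 7 (.ref 375 90884) (.deg 7 (.con 7 136) (.typ 2 7 (.ref 16 114) (.typ 3 7 (.ref 16 115) (.typ 6 7 (.ref 32 206688) (.ref 34 225888)))))) (.con 0 3)) (.con 14 2)),
  (.fbd 2 3 (.ref 72 1074211) (.ref 1314 1985229328)),
  (.fbd 2 3 (.ref 72 1074211) (.ref 1042 480032)),
  (.typ 1 5 (.adj 4 5 (.ref 124 78405) (.typ 4 5 (.ref 187 5200) (.adj 4 6 (.ref 1304 4522595) (.typ 4 6 (.ref 163 103875906) (.ref 759 70))))) (.ref 759 81)),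
  (.adj 1 5 (.ref 1304 5517840) (.ref 1317 106181136)),
  (.typ 3 6 (.deg 6 (.ref 1318 106181136) (.ref 204 1334)) (.ref 32 206176)),
  (.typ 6 7 (.ref 1319 124006928) (.ref 1056 7754528)),
  (.loc 7 (.door 7 (.con 5 0) (.fbd 3 6 (.fbd 2 7 (.ref 1320 1985229328) (.con 0 2)) (.con 0 3))) (.con 5 0)),
  (.fbd 6 3 (.ref 301 156976) (.ref 1321 1985229328)),
  (.loc 6 (.con 0 5) (.deg 6 (.con 2 3) (.typ 3 6 (.ref 16 54) (.ref 1322 106181136)))),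
  (.fbd 5 3 (.ref 325 136275) (.ref 1323 106181136)),
  (.loc 6 (.door 6 (.con 15 2) (.fbd 3 4 (.adj 3 6 (.ref 229 9265) (.deg 6 (.con 7 80) (.typ 2 6 (.ref 16 98) (.typ 4 6 (.ref 16 100) (.ref 236 287235))))) (.con 0 4))) (.con 14 2)),
  (.fbd 4 2 (.ref 229 13345) (.ref 1325 106181136)),
  (.deg 2 (.typ 2 5 (.ref 358 147795) (.ref 336 9520)) (.ref 1326 5456400)),
  (.loc 7 (.door 7 (.con 5 0) (.typ 4 7 (.deg 7 (.adj 2 7 (.typ 3 7 (.ref 252 198436) (.ref 759 55)) (.con 7 136)) (.ref 16 116)) (.ref 1022 471616))) (.con 5 0)),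
  (.fbd 4 3 (.ref 282 17185) (.ref 1328 1985229328)),
  (.typ 2 5 (.deg 2 (.ref 358 147795) (.ref 1329 106181136)) (.deg 2 (.ref 336 9520) (.ref 1329 106181136))),
  (.prm 1 (.ref 1330 106181136)),
  (.door 1 (.ref 1331 5517840) (.ref 1327 5517840)),
  (.adj 3 4 (.ref 300 17185) (.adj 1 3 (.typ 3 4 (.ref 125 1027) (.ref 1332 5517840)) (.con 7 9)))]

theorem tc1309 : J.chkL tL tr1309 1309 = true := by decide +kernel

/-- Trees. -/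
noncomputable def tr1334 : List J.Tr := [
  (.typ 5 2 (.typ 4 5 (.ref 18 267555) (.ref 181 283139)) (.ref 1022 344864)),
  (.loc 6 (.door 6 (.con 15 2) (.ref 1334 6566416)) (.con 14 2)),
  (.fbd 4 2 (.ref 1033 197650) (.ref 1335 106181136)),
  (.deg 6 (.ref 759 54) (.typ 4 6 (.ref 16 100) (.adj 2 6 (.deg 2 (.typ 2 5 (.ref 228 2380550) (.ref 336 9536)) (.ref 291 287280)) (.ref 236 287490)))),
  (.typ 6 3 (.ref 1308 106181136) (.ref 1337 106181136)),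
  (.door 1 (.ref 1053 274960) (.ref 1326 5517840)),
  (.adj 3 4 (.ref 300 13345) (.adj 1 4 (.typ 3 4 (.ref 225 832) (.deg 2 (.typ 2 5 (.ref 358 143700) (.ref 336 9536)) (.ref 1339 5517840))) (.con 7 17))),
  (.loc 7 (.door 7 (.con 15 3) (.fbd 4 5 (.ref 1338 122958352) (.con 0 4))) (.con 14 3)),
  (.fbd 4 3 (.ref 1033 132115) (.ref 1341 1985229328)),
  (.door 1 (.con 15 1) (.typ 1 3 (.adj 3 4 (.ref 1154 25360) (.typ 3 4 (.ref 16 67) (.ref 1342 106181136))) (.ref 759 49))),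
  (.deg 3 (.ref 336 13888) (.deg 2 (.ref 358 143700) (.ref 1339 5517840))),
  (.deg 3 (.deg 2 (.ref 293 3298880) (.ref 358 205156)) (.deg 2 (.ref 358 143700) (.ref 1339 5517840))),
  (.typ 3 6 (.ref 1345 106181136) (.ref 1344 106181136)),
  (.typ 3 6 (.ref 1346 90448656) (.deg 2 (.ref 336 9536) (.deg 3 (.ref 336 13888) (.ref 1339 5517840)))),
  (.typ 2 5 (.ref 1346 106181136) (.ref 1347 106181136)),
  (.adj 3 4 (.ref 300 13345) (.adj 1 4 (.typ 3 4 (.ref 237 772) (.ref 1348 106181136)) (.con 7 17))),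
  (.adj 3 1 (.ref 1349 106181136) (.ref 1343 106181136)),
  (.typ 2 5 (.ref 18 136500) (.adj 4 5 (.ref 32 131924) (.ref 1017 336944))),
  (.loc 4 (.typ 2 4 (.ref 1032 8515) (.ref 32 136000)) (.ref 16 52)),
  (.loc 4 (.deg 4 (.con 7 17) (.ref 16 67)) (.door 0 (.con 14 0) (.ref 323 16944))),
  (.fbd 2 3 (.typ 2 3 (.ref 16 35) (.adj 3 4 (.ref 64 144400) (.typ 3 4 (.ref 1353 274690) (.ref 97 144400)))) (.con 0 2)),
  (.deg 4 (.con 2 3) (.adj 1 4 (.ref 1354 148225) (.typ 1 4 (.ref 1017 274960) (.typ 3 4 (.ref 125 1043) (.typ 2 4 (.ref 23 197665) (.ref 132 213520)))))),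
  (.loc 5 (.door 5 (.ref 1006 83) (.ref 1334 5514000)) (.ref 1355 344864)),
  (.fbd 4 3 (.ref 252 16675) (.ref 1356 5517840)),
  (.adj 3 4 (.ref 64 82720) (.typ 3 4 (.ref 32 74560) (.ref 1022 266290))),
  (.loc 7 (.door 7 (.con 5 0) (.ref 1334 7538017)) (.con 5 0))]

theorem tc1334 : J.chkL tL tr1334 1334 = true := by decide +kernel

/-- Trees. -/
noncomputable def tr1360 : List J.Tr := [
  (.fbd 3 5 (.ref 252 79365) (.ref 1359 1985229328)),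
  (.adj 3 4 (.ref 1360 106181136) (.ref 1354 344848)),
  (.fbd 3 4 (.adj 3 5 (.ref 282 13345) (.typ 2 5 (.ref 1017 344864) (.typ 4 5 (.loc 5 (.deg 5 (.con 7 48) (.ref 16 84)) (.ref 125 1316)) (.ref 26 283424)))) (.con 0 4)),
  (.fbd 4 2 (.ref 37 13345) (.ref 1362 5517840)),
  (.adj 5 6 (.ref 1363 217185) (.typ 5 6 (.ref 1361 106181136) (.ref 1022 397395))),
  (.typ 6 1 (.ref 1364 106181136) (.ref 1358 414480)),
  (.loc 6 (.door 6 (.con 5 0) (.adj 3 6 (.fbd 1 5 (.ref 1365 106181136) (.con 0 1)) (.con 7 10))) (.con 5 0)),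
  (.exp 1 (.ref 1366 106181136)),
  (.loc 4 (.door 4 (.ref 1066 274960) (.ref 1022 266290)) (.typ 1 4 (.ref 125 1073) (.ref 34 78400))),
  (.loc 1 (.loc 3 (.con 3 0) (.con 14 0)) (.con 14 0)),
  (.loc 1 (.ref 327 4930) (.loc 3 (.door 3 (.con 15 0) (.ref 357 3)) (.con 14 0))),
  (.loc 4 (.ref 1370 274960) (.ref 1369 274960)),
  (.loc 6 (.door 6 (.con 15 5) (.deg 5 (.con 3 5) (.typ 5 6 (.typ 3 6 (.ref 1032 12645) (.ref 32 202080)) (.ref 1022 405585)))) (.con 5 0)),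
  (.fbd 6 4 (.ref 45 17191986) (.ref 1372 124076832)),
  (.typ 4 5 (.ref 260 344865) (.door 5 (.ref 918 1106) (.ref 759 69))),
  (.loc 5 (.deg 5 (.ref 1374 5517840) (.ref 16 82)) (.ref 16 37)),
  (.adj 2 3 (.ref 32 9265) (.adj 2 4 (.ref 32 9025) (.con 7 5))),
  (.fbd 3 4 (.adj 3 5 (.ref 370 12865) (.loc 5 (.deg 5 (.con 7 48) (.door 5 (.ref 1006 83) (.ref 1024 214273))) (.ref 1355 344848))) (.con 0 4)),
  (.loc 4 (.door 4 (.ref 1006 67) (.typ 2 4 (.typ 3 4 (.ref 1357 77890) (.ref 1022 270385)) (.ref 1358 274720))) (.ref 1355 271105)),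
  (.fbd 4 1 (.ref 1378 143425) (.ref 1377 5517840)),
  (.fbd 5 4 (.ref 360 344865) (.ref 1378 414736)),
  (.fbd 5 1 (.ref 1380 5517840) (.adj 4 6 (.ref 1378 414016) (.con 7 18))),
  (.loc 4 (.ref 1018 143680) (.door 0 (.ref 1006 4) (.ref 323 16672))),
  (.typ 4 2 (.ref 1382 274960) (.typ 3 4 (.ref 1382 271120) (.ref 10 17185))),
  (.door 0 (.loc 4 (.loc 3 (.ref 324 17170) (.loc 2 (.door 2 (.con 15 0) (.ref 357 2)) (.con 14 0))) (.ref 1006 4)) (.ref 64 9265)),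
  (.adj 2 4 (.ref 1384 274960) (.adj 3 4 (.ref 1384 271120) (.ref 1383 274960))),
  (.loc 6 (.typ 1 6 (.ref 1039 6558256) (.typ 4 6 (.ref 1037 25616) (.ref 1035 6558256))) (.con 5 0))]

theorem tc1360 : J.chkL tL tr1360 1360 = true := by decide +kernel

/-- Trees. -/
noncomputable def tr1387 : List J.Tr := [
  (.fbd 4 1 (.ref 146 9265) (.ref 1386 106181136)),
  (.fbd 4 1 (.ref 146 9265) (.ref 1386 106181136)),
  (.adj 4 5 (.fbd 3 4 (.ref 73 16690) (.con 0 3)) (.con 7 25)),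
  (.fbd 5 3 (.ref 180 341010) (.ref 1378 414496)),
  (.fbd 5 2 (.ref 1390 5517840) (.ref 1378 414256)),
  (.fbd 3 2 (.ref 1391 5517840) (.con 7 12)),
  (.typ 4 3 (.ref 55 17168) (.ref 178 17185)),
  (.loc 5 (.door 5 (.con 5 0) (.fbd 1 3 (.adj 3 5 (.ref 172 13345) (.deg 5 (.con 7 34) (.ref 1024 201988))) (.con 0 1))) (.con 5 0)),
  (.fbd 4 1 (.ref 1287 144385) (.ref 1394 5517840)),
  (.fbd 4 2 (.ref 62 17185) (.con 7 21)),
  (.adj 4 5 (.ref 306 13345) (.deg 5 (.ref 910 17173) (.typ 1 5 (.ref 30 21) (.typ 3 5 (.ref 125 789) (.typ 4 5 (.ref 125 1045) (.ref 111 344865)))))),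
  (.door 3 (.con 6 2) (.deg 3 (.ref 759 19) (.ref 16 50))),
  (.loc 6 (.door 6 (.con 5 0) (.fbd 3 6 (.typ 4 6 (.ref 302 16694) (.ref 759 100)) (.loc 7 (.con 0 3) (.con 5 0)))) (.con 5 0)),
  (.loc 6 (.door 6 (.con 5 0) (.adj 3 6 (.ref 1399 106177296) (.fbd 3 6 (.typ 3 6 (.typ 4 6 (.deg 6 (.ref 908 1556) (.ref 16 99)) (.ref 1398 16992)) (.ref 196 99)) (.loc 7 (.con 0 3) (.con 5 0))))) (.con 5 0)),
  (.exp 4 (.ref 1400 106181136)),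
  (.exp 1 (.loc 7 (.con 17 49) (.con 5 0))),
  (.exp 5 (.ref 1399 124072464)),
  (.adj 5 7 (.ref 1403 106181136) (.deg 7 (.con 7 160) (.typ 6 7 (.ref 16 118) (.ref 375 288530)))),
  (.deg 7 (.adj 5 7 (.ref 1403 106181136) (.con 7 160)) (.ref 30 23)),
  (.typ 7 1 (.ref 1405 1985229328) (.ref 1404 1985229328)),
  (.loc 7 (.door 7 (.con 6 6) (.fbd 5 6 (.fbd 6 7 (.ref 1406 1985229328) (.loc 8 (.con 0 6) (.con 5 0))) (.loc 8 (.con 0 6) (.con 5 0)))) (.con 5 0)),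
  (.fbd 6 1 (.ref 315 16993) (.ref 1407 1985229328)),
  (.adj 6 5 (.ref 1408 106181136) (.ref 1402 106181136)),
  (.loc 5 (.door 5 (.con 5 0) (.fbd 4 5 (.adj 0 5 (.typ 4 5 (.ref 355 16467) (.ref 196 84)) (.ref 1011 21252)) (.con 0 4))) (.con 5 0)),
  (.exp 4 (.ref 1410 5517840)),
  (.fbd 0 3 (.fbd 3 4 (.ref 1411 274960) (.loc 5 (.con 0 3) (.con 5 0))) (.loc 5 (.con 0 3) (.con 5 0))),
  (.loc 5 (.door 5 (.con 5 0) (.fbd 4 5 (.adj 0 5 (.typ 4 5 (.ref 355 16467) (.ref 196 84)) (.ref 1011 21252)) (.con 0 4))) (.con 5 0))]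

theorem tc1387 : J.chkL tL tr1387 1387 = true := by decide +kernel

/-- Trees. -/
noncomputable def tr1414 : List J.Tr := [
  (.exp 4 (.ref 1413 5517840)),
  (.loc 2 (.deg 2 (.door 2 (.ref 415 288) (.ref 759 18)) (.ref 30 2)) (.ref 374 32)),
  (.door 4 (.ref 1006 66) (.adj 3 4 (.ref 130 577) (.door 3 (.con 3 3) (.adj 0 4 (.typ 3 4 (.ref 317 205840) (.ref 1415 832)) (.ref 1011 4163))))),
  (.loc 5 (.fbd 4 5 (.adj 0 5 (.typ 4 5 (.ref 355 16467) (.ref 182 84)) (.ref 1011 21252)) (.con 0 4)) (.con 5 0)),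
  (.exp 4 (.ref 1417 5517840)),
  (.adj 4 6 (.fbd 1 5 (.fbd 5 6 (.ref 1418 414769) (.loc 7 (.con 0 5) (.con 5 0))) (.loc 7 (.con 0 5) (.con 5 0))) (.con 17 66)),
  (.loc 4 (.typ 1 4 (.deg 4 (.rfw 365 801 4) (.rfw 348 65 0)) (.con 8 0)) (.con 8 0)),
  (.loc 4 (.typ 1 4 (.deg 4 (.rfw 329 801 4) (.rfw 348 65 0)) (.con 8 0)) (.con 8 0)),
  (.exp 1 (.ref 1421 274960)),
  (.fbd 2 1 (.ref 1422 12816) (.ref 1420 274960)),
  (.loc 6 (.typ 4 6 (.deg 6 (.rfw 244 1070115 6) (.rfw 348 100 0)) (.con 8 0)) (.con 8 0)),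
  (.exp 4 (.ref 1424 106181136)),
  (.adj 4 5 (.ref 1425 5517840) (.typ 4 5 (.rfw 348 84 0) (.con 8 0))),
  (.adj 1 5 (.ref 1422 12816) (.typ 1 5 (.ref 1426 4396320) (.con 8 0))),
  (.adj 1 4 (.ref 1427 5517840) (.typ 1 4 (.ref 1426 5444640) (.con 8 0))),
  (.exp 5 (.con 9 24)),
  (.exp 3 (.con 9 5)),
  (.adj 3 5 (.ref 1430 5517840) (.ref 1429 5444160)),
  (.typ 4 7 (.adj 4 5 (.rfw 160 50426962 6) (.typ 4 5 (.rfw 351 67311442 6) (.con 8 0))) (.con 8 0)),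
  (.loc 7 (.typ 3 7 (.ref 1432 1450447408) (.con 8 0)) (.con 8 0)),
  (.exp 3 (.ref 1433 1985229328)),
  (.loc 6 (.adj 3 5 (.typ 2 6 (.adj 5 6 (.rfw 244 1201667 4) (.typ 5 6 (.adj 4 5 (.rfw 63 1200227 4) (.deg 6 (.ref 1434 106181136) (.rfw 348 101 0))) (.con 8 0))) (.con 8 0)) (.con 9 10)) (.con 8 0)),
  (.exp 2 (.ref 1435 106181136)),
  (.adj 2 4 (.ref 1436 5517840) (.ref 1431 5517840)),
  (.loc 7 (.typ 4 7 (.typ 6 7 (.fbd 0 7 (.adj 3 7 (.rfw 82 5531408 2) (.deg 7 (.ref 1434 121971457) (.rfw 348 118 0))) (.con 0 0)) (.con 8 0)) (.con 8 0)) (.con 8 0)),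
  (.fbd 6 4 (.rfw 63 5334048 3) (.ref 1438 1985229328)),
  (.deg 6 (.ref 1434 106181136) (.ref 1439 106181136)),
  (.typ 4 5 (.adj 4 6 (.ref 1440 106181136) (.con 8 0)) (.con 8 0))]

theorem tc1414 : J.chkL tL tr1414 1414 = true := by decide +kernel

/-- Trees. -/
noncomputable def tr1442 : List J.Tr := [
  (.adj 4 5 (.rfw 168 34825584 4) (.typ 4 5 (.rfw 94 1070130 6) (.con 8 0))),
  (.adj 7 4 (.ref 1442 1985229328) (.ref 1432 1985229328)),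
  (.loc 7 (.typ 3 7 (.fbd 3 4 (.fbd 0 7 (.ref 1443 1985229328) (.con 0 0)) (.con 0 3)) (.con 8 0)) (.con 8 0)),
  (.exp 3 (.ref 1444 1985229328)),
  (.adj 5 4 (.deg 6 (.ref 1445 72757266) (.rfw 82 2188592 4)) (.ref 1441 106181136)),
  (.adj 6 5 (.deg 6 (.ref 1445 106181136) (.rfw 244 2188592 4)) (.typ 5 6 (.ref 1446 106181136) (.con 8 0))),
  (.loc 6 (.adj 3 5 (.typ 2 6 (.fbd 2 5 (.ref 1447 106181136) (.con 0 2)) (.con 8 0)) (.con 9 10)) (.con 8 0)),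
  (.exp 2 (.ref 1448 106181136)),
  (.typ 2 4 (.fbd 2 4 (.fbd 2 5 (.adj 3 5 (.ref 1449 4530945) (.typ 3 5 (.fbd 3 4 (.fbd 3 5 (.adj 4 5 (.ref 1449 2372880) (.typ 4 5 (.ref 378 5517840) (.con 8 0))) (.con 0 3)) (.con 0 3)) (.con 8 0))) (.con 0 2)) (.con 0 2)) (.con 8 0)),
  (.adj 2 4 (.ref 1449 5517840) (.ref 1450 5517840)),
  (.deg 5 (.ref 1451 5517840) (.ref 1437 5517840)),
  (.loc 5 (.typ 1 5 (.fbd 1 3 (.fbd 1 4 (.fbd 0 5 (.fbd 1 5 (.ref 1452 5517840) (.con 0 1)) (.con 0 0)) (.con 0 1)) (.con 0 1)) (.con 8 0)) (.con 8 0)),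
  (.exp 1 (.ref 1453 5517840)),
  (.loc 5 (.typ 1 5 (.fbd 1 3 (.fbd 1 5 (.deg 5 (.ref 1454 336641) (.ref 1426 5517840)) (.con 0 1)) (.con 0 1)) (.con 8 0)) (.con 8 0)),
  (.exp 1 (.ref 1455 5517840)),
  (.deg 4 (.ref 1454 274960) (.ref 1456 274960)),
  (.loc 4 (.typ 0 4 (.fbd 0 2 (.fbd 0 4 (.ref 1457 274960) (.con 0 0)) (.con 0 0)) (.con 8 0)) (.con 8 0)),
  (.exp 0 (.ref 1458 274960)),
  (.fbd 0 1 (.fbd 1 2 (.fbd 0 3 (.fbd 2 3 (.ref 1459 12816) (.con 8 0)) (.con 8 0)) (.con 8 0)) (.con 8 0)),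
  (.ref 1460 12816),
  (.typ 1 4 (.deg 4 (.adj 3 4 (.adj 3 5 (.rfw 329 306 4) (.typ 3 5 (.deg 5 (.ref 1461 13600) (.rfw 116 152592 3)) (.con 8 0))) (.ref 1429 1311570)) (.rfw 348 65 0)) (.con 8 0)),
  (.deg 5 (.adj 3 5 (.rfw 329 306 5) (.typ 3 5 (.ref 1461 13600) (.con 8 0))) (.rfw 329 9536 3)),
  (.typ 3 4 (.adj 3 5 (.adj 1 5 (.ref 1463 4534800) (.typ 1 5 (.deg 4 (.ref 1461 13344) (.rfw 116 148752 3)) (.con 8 0))) (.ref 1430 1393410)) (.con 8 0))]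

theorem tc1442 : J.chkL tL tr1442 1442 = true := by decide +kernel

/-- Trees. -/
noncomputable def tr1465 : List J.Tr := [
  (.adj 4 3 (.ref 1463 5517840) (.ref 1464 5517840)),
  (.adj 4 1 (.ref 1465 5517840) (.ref 1462 5517840)),
  (.loc 5 (.typ 2 5 (.fbd 2 3 (.fbd 0 5 (.ref 1466 5517840) (.con 0 0)) (.con 0 2)) (.con 8 0)) (.con 8 0)),
  (.exp 2 (.ref 1467 5517840)),
  (.loc 4 (.typ 2 4 (.fbd 0 4 (.fbd 2 4 (.ref 1468 274960) (.con 8 0)) (.con 0 0)) (.con 8 0)) (.con 8 0)),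
  (.exp 2 (.ref 1469 274960)),
  (.fbd 5 4 (.rfw 82 136500 6) (.ref 1433 1981104898)),
  (.loc 6 (.typ 1 6 (.deg 6 (.ref 1471 106181136) (.rfw 348 97 0)) (.con 8 0)) (.con 8 0)),
  (.fbd 3 1 (.rfw 138 786 4) (.ref 1472 106181136)),
  (.adj 1 5 (.rfw 329 801 4) (.typ 1 5 (.fbd 1 5 (.adj 3 5 (.adj 3 4 (.rfw 329 306 4) (.typ 3 4 (.fbd 3 4 (.ref 1473 5517840) (.con 8 0)) (.con 8 0))) (.ref 1429 3473985)) (.con 8 0)) (.con 8 0))),
  (.adj 1 4 (.ref 1474 5517840) (.adj 3 4 (.ref 1474 5509680) (.ref 1429 3408465))),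
  (.deg 5 (.deg 4 (.ref 1475 5517840) (.ref 1470 20546)) (.deg 4 (.ref 1470 16466) (.ref 1428 5517840))),
  (.loc 5 (.typ 2 5 (.fbd 1 2 (.fbd 2 3 (.ref 1476 5517840) (.con 0 2)) (.con 0 2)) (.con 8 0)) (.con 8 0)),
  (.exp 2 (.ref 1477 5517840)),
  (.loc 4 (.typ 2 4 (.fbd 2 4 (.ref 1478 274960) (.con 8 0)) (.con 8 0)) (.con 8 0)),
  (.exp 2 (.ref 1479 274960)),
  (.deg 3 (.ref 1470 12816) (.ref 1480 12816)),
  (.deg 2 (.ref 1481 12816) (.deg 3 (.ref 1481 8976) (.ref 1423 12816))),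
  (.loc 3 (.typ 0 3 (.ref 1482 12816) (.con 8 0)) (.con 8 0)),
  (.exp 0 (.ref 1483 12816)),
  (.loc 2 (.typ 0 2 (.fbd 0 2 (.ref 1484 528) (.con 8 0)) (.con 8 0)) (.con 8 0)),
  (.exp 0 (.ref 1485 528)),
  (.fbd 0 1 (.ref 1486 16) (.con 8 0)),
  (.loc 3 (.ref 218 135220) (.loc 4 (.ref 373 148240) (.deg 4 (.con 2 2) (.ref 100 135940)))),
  (.loc 3 (.deg 3 (.con 7 12) (.loc 4 (.ref 237 1059) (.ref 125 1059))) (.ref 17 9264)),
  (.typ 3 4 (.ref 1489 274960) (.ref 1488 274960)),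
  (.fbd 2 4 (.typ 2 4 (.ref 368 9219) (.ref 1490 274960)) (.con 0 2)),
  (.fbd 3 4 (.ref 193 78850) (.ref 1491 344848)),
  (.fbd 6 3 (.ref 137 34628931) (.con 3 6)),
  (.fbd 6 3 (.ref 1493 72757266) (.con 7 78)),
  (.adj 3 6 (.adj 4 6 (.typ 2 6 (.deg 6 (.loc 6 (.ref 1494 106181136) (.con 2 2)) (.ref 184 2188547)) (.ref 207 9777)) (.con 3 4)) (.con 7 12))]

theorem tc1465 : J.chkL tL tr1465 1465 = true := by decide +kernel

end Pool.Agent.Lib.MP_efe3d7_co.D
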