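import Pool.Agent.Lib.MP_efe3d7_co.D.Tab

/-! Case trees. -/

set_option autoImplicit false

namespace Pool.Agent.Lib.MP_efe3d7_co.D

open H

/-- Trees. -/
noncomputable def tr1496 : List J.Tr := [
  (.fbd 5 2 (.ref 308 1070130) (.ref 1495 106181136)),
  (.fbd 6 3 (.ref 164 34628931) (.loc 7 (.con 0 6) (.con 5 0))),
  (.fbd 4 3 (.ref 1497 106181136) (.con 3 4)),
  (.loc 6 (.con 3 2) (.deg 6 (.typ 2 6 (.ref 1498 106181136) (.ref 207 9777)) (.con 3 2))),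
  (.exp 2 (.ref 1499 106181136)),
  (.door 2 (.ref 1500 5517840) (.ref 1496 5517840)),
  (.fbd 3 4 (.ref 79 77890) (.con 3 3)),
  (.loc 5 (.door 5 (.con 15 4) (.ref 1502 344592)) (.ref 1501 5517840)),
  (.door 4 (.ref 1503 5517840) (.ref 1492 344592)),
  (.loc 7 (.con 0 6) (.deg 7 (.con 2 3) (.typ 3 7 (.ref 371 50426962) (.ref 207 14112)))),
  (.fbd 6 3 (.ref 263 34628931) (.ref 1505 1985229328)),
  (.door 2 (.door 3 (.con 6 2) (.ref 1506 106181136)) (.con 2 2)),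
  (.typ 3 7 (.adj 6 7 (.ref 226 839939668) (.adj 5 6 (.loc 7 (.adj 4 7 (.ref 226 305157748) (.deg 7 (.con 7 141) (.ref 371 50426962))) (.ref 371 50426962)) (.con 7 78))) (.ref 207 14112)),
  (.exp 3 (.ref 1508 1985229328)),
  (.loc 6 (.ref 1509 106181136) (.ref 1507 106181136)),
  (.adj 3 6 (.typ 2 6 (.deg 6 (.ref 1510 106181136) (.ref 371 34628931)) (.ref 207 9777)) (.con 7 12)),
  (.exp 2 (.ref 1511 106181136)),
  (.typ 3 7 (.loc 7 (.adj 4 7 (.ref 1512 7606832) (.deg 7 (.door 4 (.door 7 (.con 3 7) (.adj 4 6 (.fbd 4 7 (.typ 4 7 (.typ 6 7 (.ref 126 120718913) (.ref 207 30275)) (.ref 79 213106)) (.con 0 7)) (.con 3 4))) (.con 7 141)) (.ref 377 50426917))) (.ref 377 50426917)) (.ref 207 14112)),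
  (.fbd 6 3 (.ref 343 34628931) (.ref 1513 1985229328)),
  (.loc 6 (.ref 1514 106181136) (.deg 6 (.con 2 2) (.ref 224 34628916))),
  (.adj 3 6 (.fbd 2 5 (.typ 2 6 (.ref 1515 106181136) (.ref 207 9777)) (.con 0 2)) (.con 7 12)),
  (.exp 2 (.ref 1516 106181136)),
  (.door 1 (.door 2 (.con 6 1) (.ref 1517 5517840)) (.con 2 1)),
  (.loc 5 (.ref 1512 5517840) (.ref 1518 5517840)),
  (.loc 5 (.con 3 2) (.deg 5 (.typ 2 5 (.ref 1519 5505825) (.ref 207 9521)) (.con 3 2))),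
  (.exp 2 (.ref 1520 5517840)),
  (.door 2 (.adj 2 6 (.typ 3 6 (.typ 4 6 (.ref 126 67311186) (.ref 267 17760)) (.ref 207 13856)) (.con 3 2)) (.con 7 27)),
  (.fbd 4 3 (.ref 69 1070130) (.ref 1522 106181136)),
  (.fbd 4 3 (.ref 1 83250) (.ref 1522 106181136)),
  (.fbd 5 2 (.ref 118 1070130) (.con 7 39)),
  (.fbd 4 3 (.ref 1525 5517840) (.con 7 27))]

theorem tc1496 : J.chkL tL tr1496 1496 = true := by decide +kernel

/-- Trees. -/
noncomputable def tr1527 : List J.Tr := [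
  (.door 3 (.ref 1521 271105) (.deg 5 (.ref 1526 5517840) (.ref 1524 5517840))),
  (.deg 5 (.ref 1521 148752) (.door 3 (.ref 1521 271105) (.ref 1524 5517840))),
  (.door 5 (.ref 1528 5517840) (.ref 1527 5517840)),
  (.loc 5 (.ref 1529 5517840) (.door 3 (.ref 1521 271105) (.ref 1523 5517840))),
  (.typ 5 4 (.ref 1530 5517840) (.door 3 (.ref 1521 271105) (.ref 1504 5517840))),
  (.adj 4 5 (.deg 5 (.ref 1519 5517840) (.ref 28 82725)) (.door 1 (.con 3 1) (.ref 1531 5517840))),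
  (.adj 2 5 (.adj 3 5 (.fbd 0 5 (.typ 1 5 (.ref 1532 5517840) (.ref 207 5408)) (.con 0 0)) (.con 7 10)) (.con 7 6)),
  (.exp 1 (.ref 1533 5517840)),
  (.door 2 (.con 3 2) (.adj 3 5 (.typ 2 5 (.loc 5 (.deg 5 (.ref 1534 339986) (.ref 184 2184195)) (.ref 184 2184195)) (.ref 207 9521)) (.con 7 12))),
  (.adj 3 6 (.typ 2 6 (.loc 6 (.deg 6 (.ref 1534 405522) (.ref 1535 5636387)) (.ref 159 34628931)) (.ref 207 9777)) (.con 7 12)),
  (.fbd 5 2 (.ref 150 1070130) (.ref 1536 106181136)),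
  (.fbd 5 2 (.ref 99 1070115) (.ref 1535 6631952)),
  (.loc 5 (.deg 5 (.ref 1534 336641) (.ref 1538 5517840)) (.door 2 (.con 17 7) (.ref 1537 5517840))),
  (.adj 2 5 (.adj 3 5 (.typ 1 5 (.ref 1539 5517840) (.ref 207 5408)) (.con 7 10)) (.con 7 6)),
  (.exp 1 (.ref 1540 5517840)),
  (.door 0 (.door 1 (.con 6 0) (.ref 1541 274960)) (.con 2 0)),
  (.loc 4 (.door 0 (.con 3 0) (.ref 1534 274960)) (.ref 1542 274960)),
  (.adj 2 5 (.adj 3 5 (.typ 1 5 (.deg 5 (.ref 1543 336641) (.ref 184 1070130)) (.ref 207 5408)) (.con 7 10)) (.con 7 6)),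
  (.exp 1 (.ref 1544 5517840)),
  (.deg 4 (.ref 1543 274960) (.ref 1545 274960)),
  (.adj 1 4 (.adj 2 4 (.adj 3 4 (.typ 0 4 (.ref 1546 274960) (.ref 207 1073)) (.con 7 9)) (.con 7 5)) (.con 7 3)),
  (.exp 0 (.ref 1547 274960)),
  (.ref 1548 12816),
  (.loc 8 (.door 8 (.con 11 0) (.con 11 0)) (.con 5 0)),
  (.typ 0 1 (.typ 0 2 (.ref 207 801) (.ref 319 291)) (.typ 0 2 (.ref 319 531) (.ref 336 801))),
  (.typ 1 3 (.ref 356 5155) (.adj 2 3 (.ref 319 5170) (.typ 2 3 (.ref 59 5170) (.ref 174 82720)))),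
  (.adj 3 4 (.con 1 3) (.deg 3 (.deg 4 (.typ 3 4 (.ref 281 67) (.ref 272 4392737)) (.con 1 4)) (.con 1 3))),
  (.deg 3 (.deg 4 (.ref 53 70322018) (.con 1 4)) (.ref 1553 1985229328))]

theorem tc1527 : J.chkL tL tr1527 1527 = true := by decide +kernel

/-- Trees. -/
noncomputable def tr1555 : List J.Tr := [
  (.typ 3 2 (.typ 2 4 (.ref 1554 1985229328) (.ref 319 9029)) (.typ 2 4 (.ref 319 9269) (.ref 336 9539))),
  (.typ 2 3 (.typ 2 4 (.ref 1554 1985229328) (.ref 356 9539)) (.ref 1552 344864)),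
  (.typ 2 5 (.ref 1556 1985229328) (.ref 1555 1985229328)),
  (.typ 1 3 (.typ 1 4 (.ref 1557 1985229328) (.ref 356 5699)) (.ref 1552 410384)),
  (.typ 1 6 (.ref 1558 1985229328) (.ref 1551 25649)),
  (.adj 1 3 (.con 1 1) (.adj 1 4 (.con 1 1) (.adj 2 5 (.con 1 5) (.adj 1 6 (.con 1 1) (.adj 2 6 (.adj 2 3 (.con 1 2) (.adj 2 4 (.con 1 2) (.adj 3 6 (.adj 4 6 (.deg 1 (.deg 2 (.ref 1559 1985229328) (.con 1 2)) (.con 1 1)) (.con 13 1)) (.con 13 1)))) (.con 13 1)))))),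
  (.adj 1 5 (.ref 1560 1985229328) (.ref 1560 1985229088)),
  (.typ 3 1 (.typ 1 4 (.ref 1561 1733571073) (.ref 356 5699)) (.typ 1 4 (.ref 356 5684) (.ref 293 1078851))),
  (.adj 1 3 (.con 1 1) (.adj 1 4 (.con 1 1) (.adj 2 5 (.con 1 5) (.adj 1 6 (.con 1 1) (.adj 2 6 (.adj 2 3 (.con 1 2) (.adj 2 4 (.con 1 2) (.deg 1 (.deg 6 (.typ 1 6 (.ref 1562 1985229328) (.ref 1551 25649)) (.con 3 1)) (.con 1 1)))) (.con 13 1)))))),
  (.adj 1 5 (.ref 1563 1985229328) (.ref 1563 1985229088)),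
  (.typ 0 4 (.ref 356 1844) (.adj 3 4 (.ref 319 1859) (.typ 3 4 (.ref 59 1859) (.ref 1564 1985229328)))),
  (.typ 0 3 (.typ 0 4 (.ref 1561 1985229328) (.ref 356 1859)) (.ref 1565 1985229328)),
  (.typ 0 7 (.ref 1566 1985229328) (.ref 1551 29744)),
  (.adj 0 3 (.con 1 0) (.adj 0 4 (.con 1 0) (.adj 0 7 (.con 1 0) (.adj 1 7 (.adj 2 7 (.adj 3 7 (.adj 4 7 (.deg 0 (.ref 1567 1985229328) (.con 1 0)) (.con 13 0)) (.con 13 0)) (.con 13 0)) (.con 13 0))))),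
  (.adj 0 6 (.ref 1568 1985229328) (.adj 0 7 (.ref 1568 1733571088) (.con 14 0))),
  (.adj 0 5 (.ref 1569 1985229328) (.ref 1569 1985229313)),
  (.alx (.ref 1570 1985229328) (.ref 1550 36344967696)),
  (.loc 7 (.door 7 (.con 11 0) (.con 11 0)) (.ref 1571 1985229328)),
  (.alx (.con 12 0) (.ref 1572 1985229328)),
  (.loc 6 (.door 6 (.con 11 0) (.con 11 0)) (.ref 1573 106181136)),
  (.alx (.con 12 0) (.ref 1574 106181136)),
  (.deg 5 (.adj 3 5 (.adj 4 5 (.ref 1575 5517840) (.con 2 4)) (.con 2 3)) (.con 5 0)),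
  (.loc 5 (.door 5 (.con 5 0) (.con 11 0)) (.ref 1576 5517840))]

theorem tc1555 : J.chkL tL tr1555 1555 = true := by decide +kernel

/-- Trees. -/
noncomputable def tr1578 : List J.Tr := [
  (.alx (.con 1 0) (.ref 1577 5517840)),
  (.loc 7 (.door 7 (.con 11 0) (.ref 1578 471568)) (.con 5 0)),
  (.adj 0 5 (.con 1 0) (.adj 0 6 (.con 1 0) (.con 14 0))),
  (.adj 0 4 (.ref 1580 106181136) (.ref 1580 106181121)),
  (.alx (.ref 1581 106181136) (.ref 1579 1985229328)),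
  (.loc 6 (.door 6 (.con 11 0) (.ref 1578 406032)) (.ref 1582 106181136)),
  (.alx (.con 12 0) (.ref 1583 106181136)),
  (.loc 5 (.door 5 (.con 11 0) (.ref 1578 340496)) (.ref 1584 5517840)),
  (.alx (.con 1 0) (.ref 1585 5517840)),
  (.loc 4 (.door 4 (.con 5 0) (.ref 1578 274960)) (.deg 4 (.ref 1586 274960) (.con 5 0))),
  (.alx (.con 1 0) (.ref 1587 274960)),
  (.door 3 (.con 5 0) (.adj 0 1 (.adj 0 2 (.adj 1 2 (.ref 1588 12816) (.con 15 1)) (.con 15 0)) (.con 15 0))),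
  (.adj 1 3 (.con 1 1) (.adj 1 4 (.con 1 1) (.con 14 1))),
  (.typ 1 2 (.typ 2 3 (.ref 235 132145) (.ref 207 8976)) (.typ 2 3 (.ref 304 132145) (.ref 350 8976))),
  (.adj 1 2 (.con 1 1) (.adj 1 4 (.con 1 1) (.adj 2 4 (.deg 1 (.ref 1591 344352) (.con 1 1)) (.con 13 1)))),
  (.adj 1 3 (.ref 1592 5517840) (.ref 1592 5517600)),
  (.typ 2 1 (.typ 1 4 (.ref 1593 4534785) (.ref 207 5152)) (.typ 1 4 (.ref 84 66882) (.ref 350 5152))),
  (.adj 1 4 (.con 1 1) (.adj 2 4 (.ref 1594 5517840) (.con 3 1))),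
  (.adj 2 4 (.con 1 2) (.deg 2 (.deg 4 (.ref 1595 5456400) (.con 3 2)) (.con 1 2))),
  (.adj 1 3 (.ref 1595 5517840) (.ref 1596 5517840)),
  (.deg 1 (.ref 1597 5517840) (.ref 1590 5517840)),
  (.adj 2 1 (.adj 1 3 (.con 1 1) (.con 1 2)) (.ref 1598 5517840)),
  (.typ 0 2 (.typ 0 5 (.ref 1593 5517840) (.ref 207 1313)) (.typ 0 5 (.ref 1599 5517840) (.ref 350 1313))),
  (.adj 1 2 (.con 1 1) (.adj 2 3 (.con 1 3) (.adj 1 4 (.con 1 1) (.typ 1 2 (.ref 1600 4534305) (.typ 2 3 (.typ 1 4 (.adj 3 4 (.ref 188 136245) (.typ 3 4 (.ref 353 136240) (.adj 3 5 (.ref 188 1180980) (.typ 3 5 (.ref 353 132401) (.adj 4 5 (.ref 188 2164035) (.typ 4 5 (.ref 353 66882) (.ref 41 2164035))))))) (.ref 336 5152)) (.ref 336 8976)))))),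
  (.adj 1 3 (.ref 1601 5517840) (.ref 1601 5517600)),
  (.typ 0 2 (.ref 1600 5517600) (.typ 0 5 (.deg 1 (.deg 2 (.ref 1602 5517840) (.ref 1590 5517600)) (.ref 1590 5517840)) (.ref 336 1313)))]

theorem tc1578 : J.chkL tL tr1578 1578 = true := by decide +kernel

/-- Trees. -/
noncomputable def tr1604 : List J.Tr := [
  (.typ 0 1 (.ref 1600 5517840) (.ref 1603 5517840)),
  (.adj 0 1 (.con 1 0) (.adj 0 2 (.con 1 0) (.adj 0 5 (.con 1 0) (.adj 1 5 (.adj 2 5 (.deg 0 (.ref 1604 5517840) (.con 1 0)) (.con 13 0)) (.con 13 0))))),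
  (.adj 0 4 (.ref 1605 5517840) (.adj 0 5 (.ref 1605 4534800) (.con 14 0))),
  (.adj 0 3 (.ref 1606 5517840) (.ref 1606 5517825)),
  (.alx (.ref 1607 5517840) (.loc 6 (.ref 1589 25104) (.con 5 0))),
  (.alx (.con 12 0) (.loc 5 (.ref 1589 21008) (.ref 1608 5517840))),
  (.alx (.con 12 0) (.loc 4 (.ref 1589 16912) (.ref 1609 274960))),
  (.loc 3 (.ref 1589 12816) (.deg 3 (.ref 1610 12816) (.con 5 0))),
  (.alx (.con 1 0) (.ref 1611 12816)),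
  (.loc 7 (.door 7 (.ref 1612 1808) (.con 11 0)) (.con 5 0)),
  (.adj 0 5 (.con 1 0) (.adj 0 6 (.con 1 0) (.con 14 0))),
  (.adj 0 4 (.ref 1614 106181136) (.adj 0 5 (.ref 1614 105198096) (.con 14 0))),
  (.adj 1 5 (.con 1 1) (.adj 2 5 (.adj 3 5 (.typ 1 5 (.ref 293 1074482) (.ref 1551 21281)) (.con 3 1)) (.con 3 1))),
  (.adj 1 4 (.ref 1616 106181136) (.ref 1616 105198096)),
  (.adj 0 6 (.con 1 0) (.adj 1 6 (.adj 2 6 (.adj 3 6 (.typ 0 6 (.adj 2 3 (.ref 319 1586) (.deg 2 (.con 7 5) (.deg 3 (.con 7 9) (.typ 2 3 (.ref 59 1586) (.ref 1617 106181136))))) (.ref 1551 25376)) (.con 3 0)) (.con 3 0)) (.con 3 0))),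
  (.adj 0 5 (.ref 1618 106181136) (.ref 1618 90452496)),
  (.adj 0 4 (.ref 1619 106181136) (.ref 1619 105198096)),
  (.adj 0 6 (.con 1 0) (.adj 1 6 (.adj 1 4 (.con 1 1) (.adj 1 5 (.con 1 1) (.con 14 1))) (.con 3 0))),
  (.adj 0 5 (.ref 1621 106181136) (.ref 1621 90452496)),
  (.adj 0 4 (.ref 1622 106181136) (.ref 1622 105198096)),
  (.adj 0 6 (.con 1 0) (.adj 2 6 (.adj 3 6 (.typ 0 6 (.ref 356 1586) (.ref 1551 25376)) (.con 3 0)) (.con 3 0))),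
  (.adj 0 5 (.ref 1624 106181136) (.ref 1624 90452496)),
  (.adj 0 4 (.ref 1625 106181136) (.ref 1625 105198096)),
  (.adj 1 5 (.con 1 1) (.adj 2 5 (.adj 3 5 (.typ 1 5 (.ref 1552 340496) (.ref 1551 21281)) (.con 3 1)) (.con 3 1))),
  (.adj 1 4 (.ref 1627 106181136) (.ref 1627 105198096)),
  (.adj 0 6 (.con 1 0) (.adj 1 6 (.ref 1628 106181136) (.con 3 0))),
  (.adj 0 5 (.ref 1629 106181136) (.ref 1629 90452496)),
  (.adj 0 4 (.ref 1630 106181136) (.ref 1630 105198096))]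

theorem tc1604 : J.chkL tL tr1604 1604 = true := by decide +kernel

/-- Trees. -/
noncomputable def tr1632 : List J.Tr := [
  (.typ 3 0 (.ref 1631 106181136) (.ref 1626 106181136)),
  (.typ 3 4 (.typ 2 4 (.ref 349 1074) (.ref 287 144400)) (.typ 2 4 (.ref 287 205840) (.ref 75 205840))),
  (.deg 2 (.con 7 6) (.adj 2 4 (.con 1 2) (.deg 2 (.deg 3 (.con 7 10) (.adj 3 4 (.con 1 3) (.deg 3 (.typ 2 3 (.ref 281 50) (.ref 1633 274960)) (.con 1 3)))) (.con 1 2)))),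
  (.adj 2 4 (.con 1 2) (.adj 3 4 (.con 1 3) (.deg 2 (.deg 3 (.typ 2 4 (.typ 3 4 (.ref 15 3277846) (.ref 207 13328)) (.ref 207 9232)) (.con 1 3)) (.con 1 2)))),
  (.adj 3 2 (.ref 1635 106181136) (.ref 1634 90452481)),
  (.adj 1 5 (.con 1 1) (.adj 2 5 (.adj 3 5 (.typ 1 5 (.typ 1 3 (.ref 1636 106181136) (.ref 1552 336656)) (.ref 1551 21281)) (.con 3 1)) (.con 3 1))),
  (.adj 1 4 (.ref 1637 106181136) (.ref 1637 105198096)),
  (.adj 0 6 (.con 1 0) (.adj 1 6 (.adj 2 6 (.adj 3 6 (.typ 0 6 (.typ 0 3 (.ref 1638 106181136) (.ref 356 1586)) (.ref 1551 25376)) (.con 3 0)) (.con 3 0)) (.con 3 0))),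
  (.adj 0 5 (.ref 1639 106181136) (.ref 1639 90452496)),
  (.adj 0 4 (.ref 1640 106181136) (.ref 1640 105198096)),
  (.deg 1 (.ref 1641 106181136) (.ref 1623 106181136)),
  (.typ 2 1 (.ref 1642 106181136) (.deg 1 (.ref 1632 106181136) (.ref 1623 106181136))),
  (.deg 0 (.ref 1643 106181136) (.ref 1615 106181136)),
  (.typ 1 2 (.ref 1644 106181121) (.typ 0 3 (.ref 1644 106177296) (.typ 1 3 (.ref 1644 106177281) (.deg 0 (.deg 1 (.ref 1620 106181136) (.ref 1615 106181121)) (.ref 1615 106181136))))),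
  (.typ 2 0 (.ref 1644 106181136) (.ref 1645 106181136)),
  (.adj 0 4 (.ref 1580 106181136) (.adj 0 5 (.ref 1580 105198096) (.con 14 0))),
  (.adj 1 2 (.ref 1647 106181121) (.adj 0 3 (.ref 1647 106177296) (.adj 1 3 (.ref 1647 106177281) (.ref 1646 106181136)))),
  (.adj 2 0 (.ref 1647 106181136) (.ref 1648 106181136)),
  (.alx (.ref 1649 106181136) (.ref 1613 1985229328)),
  (.loc 6 (.door 6 (.ref 1612 1552) (.con 11 0)) (.ref 1650 106181136)),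
  (.alx (.con 12 0) (.ref 1651 106181136)),
  (.loc 5 (.door 5 (.ref 1612 1296) (.con 11 0)) (.ref 1652 5517840)),
  (.alx (.con 12 0) (.ref 1653 5517840)),
  (.loc 4 (.door 4 (.ref 1612 1040) (.con 11 0)) (.ref 1654 274960)),
  (.alx (.con 1 0) (.ref 1655 274960)),
  (.adj 0 1 (.door 3 (.ref 1612 784) (.ref 1656 12816)) (.con 15 0)),
  (.adj 2 5 (.con 1 5) (.deg 5 (.con 2 2) (.con 1 5)))]

theorem tc1632 : J.chkL tL tr1632 1632 = true := by decide +kernel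

/-- Trees. -/
noncomputable def tr1659 : List J.Tr := [
  (.adj 1 3 (.adj 1 4 (.adj 0 1 (.con 1 1) (.adj 1 2 (.con 1 1) (.deg 1 (.adj 0 3 (.ref 1658 3490320) (.adj 0 2 (.adj 0 4 (.con 1 0) (.con 14 0)) (.con 7 3))) (.con 1 1)))) (.con 14 1)) (.con 14 1)),
  (.adj 5 1 (.ref 1658 5517840) (.ref 1659 5517840)),
  (.adj 0 3 (.adj 0 4 (.deg 0 (.ref 1660 3490320) (.con 1 0)) (.con 14 0)) (.con 14 0)),
  (.adj 5 0 (.deg 0 (.ref 1660 5517840) (.ref 1590 5517825)) (.ref 1661 5517840)),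
  (.alx (.ref 1662 5517840) (.loc 6 (.ref 1657 25104) (.con 5 0))),
  (.alx (.con 12 0) (.loc 5 (.ref 1657 21008) (.ref 1663 5517840))),
  (.alx (.con 12 0) (.loc 4 (.ref 1657 16912) (.ref 1664 274960))),
  (.loc 3 (.ref 1657 12816) (.ref 1665 12816)),
  (.alx (.con 1 0) (.ref 1666 12816)),
  (.door 2 (.ref 1612 528) (.ref 1667 528)),
  (.adj 0 1 (.con 1 0) (.adj 0 3 (.con 1 0) (.adj 0 4 (.con 1 0) (.deg 0 (.deg 1 (.con 10 0) (.adj 1 3 (.con 1 1) (.adj 1 4 (.con 1 1) (.con 3 0)))) (.con 1 0))))),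
  (.adj 1 2 (.ref 1669 274945) (.adj 0 3 (.ref 1669 271120) (.adj 1 3 (.ref 1669 271105) (.adj 0 4 (.con 13 0) (.adj 1 4 (.con 13 1) (.con 13 0)))))),
  (.adj 0 2 (.ref 1669 274960) (.ref 1670 274960)),
  (.alx (.ref 1671 274960) (.loc 5 (.ref 1668 1296) (.con 5 0))),
  (.alx (.con 12 0) (.loc 4 (.ref 1668 1040) (.ref 1672 274960))),
  (.alx (.con 1 0) (.loc 3 (.ref 1668 784) (.ref 1673 12816))),
  (.loc 2 (.ref 1668 528) (.ref 1674 528)),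
  (.alx (.con 1 0) (.ref 1675 528)),
  (.loc 6 (.door 6 (.ref 1676 96) (.con 11 0)) (.con 5 0)),
  (.adj 1 2 (.con 1 1) (.typ 1 2 (.ref 281 33) (.typ 2 4 (.ref 349 1057) (.ref 125 1057)))),
  (.typ 0 2 (.ref 356 786) (.adj 1 2 (.ref 319 801) (.deg 1 (.deg 2 (.typ 1 2 (.ref 59 801) (.typ 1 4 (.ref 1678 5517840) (.typ 2 4 (.ref 1678 5517600) (.typ 1 5 (.ref 1678 4534800) (.typ 2 5 (.ref 1678 4534560) (.ref 51 136272)))))) (.con 1 2)) (.con 1 1)))),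
  (.adj 1 2 (.con 1 2) (.deg 1 (.deg 2 (.typ 1 2 (.ref 281 33) (.ref 338 2164035)) (.con 1 2)) (.con 1 1))),
  (.deg 2 (.deg 1 (.ref 65 136512) (.con 1 1)) (.ref 1680 5517840))]

theorem tc1659 : J.chkL tL tr1659 1659 = true := by decide +kernel

/-- Trees. -/
noncomputable def tr1682 : List J.Tr := [
  (.deg 1 (.ref 17 5440) (.adj 1 2 (.con 1 1) (.deg 1 (.deg 2 (.typ 1 2 (.ref 281 33) (.ref 338 2164035)) (.con 1 2)) (.con 1 1)))),
  (.typ 5 4 (.ref 1682 5517840) (.ref 1681 5517840)),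
  (.deg 1 (.ref 283 5200) (.adj 1 2 (.con 1 1) (.deg 1 (.deg 2 (.typ 1 2 (.ref 281 33) (.ref 338 2164035)) (.con 1 2)) (.con 1 1)))),
  (.adj 4 5 (.ref 1684 5517840) (.ref 1683 5517840)),
  (.typ 2 5 (.adj 4 5 (.ref 15 2163795) (.typ 4 5 (.ref 187 5440) (.ref 298 136512))) (.ref 267 9296)),
  (.typ 2 5 (.ref 1686 4534800) (.adj 4 5 (.ref 283 9296) (.typ 4 5 (.ref 187 5440) (.ref 100 136197)))),
  (.typ 2 4 (.ref 1686 5517840) (.ref 1687 5517840)),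
  (.deg 2 (.typ 1 5 (.ref 1688 5517840) (.ref 267 5200)) (.con 1 2)),
  (.deg 1 (.ref 1689 5517840) (.ref 1678 5517840)),
  (.typ 2 4 (.ref 1690 5517600) (.typ 1 5 (.ref 1690 4534800) (.typ 2 5 (.ref 1690 4534560) (.ref 1685 5517840)))),
  (.typ 4 1 (.ref 1690 5517840) (.ref 1691 5517840)),
  (.typ 0 1 (.typ 0 2 (.ref 1692 5517840) (.ref 356 801)) (.ref 1679 5517840)),
  (.adj 0 1 (.con 1 0) (.adj 0 2 (.con 1 0) (.adj 0 3 (.con 1 0) (.adj 1 3 (.adj 2 3 (.typ 0 3 (.adj 1 4 (.ref 1658 4534800) (.deg 4 (.con 2 1) (.adj 2 4 (.con 1 4) (.ref 1693 5517840)))) (.ref 1551 12816)) (.con 3 0)) (.con 3 0))))),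
  (.adj 4 0 (.ref 1694 5517840) (.adj 0 3 (.ref 1694 5456400) (.con 14 0))),
  (.adj 1 5 (.ref 1658 5517840) (.deg 5 (.con 2 1) (.adj 2 5 (.con 1 5) (.deg 0 (.ref 1695 5517840) (.ref 1590 5517825))))),
  (.adj 5 0 (.ref 1696 5517840) (.adj 0 3 (.ref 1696 3490320) (.con 14 0))),
  (.alx (.ref 1697 5517840) (.ref 1677 106181136)),
  (.loc 5 (.door 5 (.ref 1676 80) (.con 11 0)) (.ref 1698 5517840)),
  (.alx (.con 12 0) (.ref 1699 5517840)),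
  (.loc 4 (.door 4 (.ref 1676 64) (.con 11 0)) (.ref 1700 274960)),
  (.alx (.con 12 0) (.ref 1701 274960)),
  (.loc 3 (.door 3 (.ref 1676 48) (.con 11 0)) (.ref 1702 12816)),
  (.alx (.con 1 0) (.ref 1703 12816)),
  (.loc 5 (.door 5 (.ref 1676 80) (.ref 1704 1296)) (.con 5 0)),
  (.adj 1 2 (.con 1 1) (.adj 1 3 (.con 1 1) (.adj 1 4 (.con 1 1) (.con 3 0)))),
  (.typ 1 4 (.typ 1 3 (.ref 369 4163) (.ref 273 66370)) (.typ 1 3 (.ref 273 66610) (.ref 127 5168)))]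

theorem tc1682 : J.chkL tL tr1682 1682 = true := by decide +kernel

end Pool.Agent.Lib.MP_efe3d7_co.D
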