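import Pool.Agent.Lib.MP_efe3d7_co.D.Tab

/-! Case trees. -/

set_option autoImplicit false

namespace Pool.Agent.Lib.MP_efe3d7_co.D

open H

/-- Trees. -/
noncomputable def tr1708 : List J.Tr := [
  (.adj 1 2 (.con 1 2) (.adj 1 3 (.adj 1 4 (.con 1 1) (.ref 1707 271120)) (.ref 1707 205840))),
  (.adj 1 3 (.con 1 1) (.adj 1 4 (.con 1 1) (.ref 1707 274960))),
  (.deg 2 (.ref 1709 274960) (.ref 1708 274960)),
  (.adj 1 2 (.con 1 2) (.typ 1 2 (.ref 349 513) (.ref 125 528))),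
  (.typ 1 3 (.typ 1 4 (.ref 369 4163) (.ref 176 66595)) (.typ 1 4 (.ref 176 66340) (.ref 127 5168))),
  (.adj 1 3 (.con 1 1) (.typ 1 3 (.ref 349 769) (.ref 125 784))),
  (.deg 2 (.ref 1713 274960) (.ref 1711 274960)),
  (.adj 1 2 (.adj 1 3 (.con 1 1) (.adj 1 4 (.con 1 1) (.typ 0 4 (.ref 1714 213520) (.ref 1712 274960)))) (.ref 1711 274960)),
  (.typ 0 3 (.ref 1714 274960) (.ref 1715 274960)),
  (.typ 0 3 (.ref 1716 271120) (.typ 0 4 (.ref 1716 205840) (.ref 1710 274960))),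
  (.typ 0 2 (.ref 1716 274960) (.ref 1717 274960)),
  (.typ 1 3 (.typ 1 4 (.ref 340 66610) (.ref 369 5168)) (.typ 1 4 (.ref 369 4928) (.ref 177 66610))),
  (.adj 1 2 (.con 1 2) (.adj 1 3 (.adj 1 4 (.con 1 1) (.ref 1719 271120)) (.ref 1719 205840))),
  (.adj 1 3 (.con 1 1) (.adj 1 4 (.con 1 1) (.ref 1719 274960))),
  (.deg 2 (.ref 1721 274960) (.ref 1720 274960)),
  (.typ 1 3 (.adj 2 4 (.ref 309 66115) (.typ 2 4 (.ref 313 66370) (.adj 3 4 (.ref 309 66370) (.typ 3 4 (.ref 313 66115) (.ref 123 66370))))) (.ref 369 4896)),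
  (.typ 1 2 (.ref 1723 274960) (.typ 1 3 (.ref 1723 271120) (.ref 88 66370))),
  (.adj 1 4 (.con 1 1) (.typ 1 4 (.ref 243 1040) (.ref 204 1040))),
  (.adj 1 2 (.con 1 2) (.deg 3 (.ref 1725 271120) (.adj 1 3 (.con 1 3) (.ref 1724 274960)))),
  (.deg 2 (.ref 1725 274960) (.ref 1726 274960)),
  (.adj 4 1 (.adj 1 2 (.con 1 1) (.ref 203 12865)) (.adj 1 2 (.ref 203 13345) (.ref 136 13345))),
  (.adj 4 1 (.adj 1 2 (.con 1 1) (.ref 248 12865)) (.adj 1 2 (.ref 248 13345) (.ref 248 16945))),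
  (.typ 0 3 (.ref 1729 274960) (.ref 1728 274960)),
  (.typ 0 2 (.ref 1730 274960) (.typ 0 3 (.ref 1730 271120) (.ref 1727 274960))),
  (.typ 0 2 (.ref 1731 148240) (.typ 0 3 (.ref 1731 213520) (.ref 1722 274960))),
  (.typ 0 4 (.ref 1731 274960) (.ref 1732 274960)),
  (.deg 1 (.ref 1733 274960) (.ref 1706 274960)),
  (.typ 0 1 (.ref 1734 274960) (.deg 1 (.ref 1718 274960) (.ref 1706 274960))),
  (.adj 0 2 (.ref 1669 274960) (.adj 0 3 (.ref 1669 271120) (.adj 0 4 (.ref 1669 205840) (.deg 0 (.con 17 1) (.adj 0 1 (.con 1 0) (.deg 0 (.ref 1735 274960) (.con 1 0)))))))]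

theorem tc1708 : J.chkL tL tr1708 1708 = true := by decide +kernel

/-- Trees. -/
noncomputable def tr1737 : List J.Tr := [
  (.alx (.ref 1736 274960) (.ref 1705 5517840)),
  (.loc 4 (.door 4 (.ref 1676 64) (.ref 1704 1040)) (.ref 1737 274960)),
  (.alx (.con 12 0) (.ref 1738 274960)),
  (.loc 3 (.door 3 (.ref 1676 48) (.ref 1704 784)) (.ref 1739 12816)),
  (.alx (.con 1 0) (.ref 1740 12816)),
  (.loc 2 (.door 2 (.ref 1676 32) (.ref 1704 528)) (.ref 1741 528)),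
  (.alx (.con 1 0) (.ref 1742 528)),
  (.door 1 (.ref 1676 16) (.ref 1743 16)),
  (.alx (.con 12 0) (.loc 4 (.ref 1744 64) (.con 5 0))),
  (.alx (.con 1 0) (.loc 3 (.ref 1744 48) (.ref 1745 12816))),
  (.alx (.con 1 0) (.loc 2 (.ref 1744 32) (.ref 1746 528))),
  (.loc 1 (.ref 1744 16) (.ref 1747 16)),
  (.alx (.con 1 0) (.ref 1748 16)),
  (.loc 5 (.door 5 (.ref 1749 5) (.con 11 0)) (.con 5 0)),
  (.deg 0 (.ref 127 834) (.adj 0 1 (.con 1 0) (.deg 0 (.deg 1 (.typ 0 1 (.ref 281 16) (.ref 152 66610)) (.con 1 1)) (.con 1 0)))),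
  (.deg 0 (.ref 127 579) (.adj 0 1 (.con 1 0) (.deg 0 (.typ 0 1 (.ref 281 16) (.ref 20 13345)) (.con 1 0)))),
  (.deg 0 (.ref 143 1074) (.adj 0 1 (.con 1 0) (.deg 0 (.typ 0 1 (.ref 281 16) (.ref 20 13345)) (.con 1 0)))),
  (.typ 4 3 (.ref 1753 274960) (.ref 1752 274960)),
  (.typ 4 2 (.ref 1754 274960) (.ref 1751 274960)),
  (.deg 0 (.ref 90 834) (.adj 0 1 (.con 1 0) (.deg 0 (.deg 1 (.typ 0 1 (.ref 281 16) (.ref 152 66610)) (.con 1 1)) (.con 1 0)))),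
  (.adj 3 4 (.ref 1756 274960) (.adj 2 4 (.ref 1756 271120) (.ref 1755 274960))),
  (.adj 3 2 (.ref 1757 274960) (.adj 2 4 (.ref 1757 213520) (.ref 1755 148240))),
  (.adj 0 1 (.con 1 0) (.typ 0 1 (.ref 281 16) (.ref 1711 274960))),
  (.typ 1 4 (.ref 285 5155) (.typ 1 2 (.ref 369 5170) (.ref 8 66610))),
  (.typ 1 4 (.ref 1760 213520) (.typ 1 2 (.ref 65 66610) (.ref 127 5170))),
  (.typ 1 3 (.ref 1760 274960) (.ref 1761 274960)),
  (.adj 2 3 (.ref 347 564) (.typ 2 3 (.ref 129 1074) (.adj 2 4 (.ref 347 579) (.typ 2 4 (.ref 129 834) (.ref 1762 274960))))),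
  (.adj 2 3 (.ref 17 834) (.typ 2 3 (.ref 129 1074) (.ref 217 1074))),
  (.typ 4 3 (.ref 1764 274960) (.ref 1763 274960)),
  (.typ 0 4 (.ref 369 834) (.adj 3 4 (.ref 292 834) (.ref 1765 274960)))]

theorem tc1737 : J.chkL tL tr1737 1737 = true := by decide +kernel

/-- Trees. -/
noncomputable def tr1767 : List J.Tr := [
  (.typ 1 4 (.ref 369 4930) (.adj 3 4 (.ref 292 4930) (.typ 3 4 (.ref 2 834) (.adj 2 3 (.ref 347 4660) (.typ 2 3 (.ref 129 5170) (.adj 2 4 (.ref 347 4675) (.typ 2 4 (.ref 129 4930) (.ref 213 66370)))))))),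
  (.adj 3 4 (.ref 154 1074) (.typ 3 4 (.ref 2 834) (.ref 298 66610))),
  (.typ 2 4 (.ref 2 579) (.adj 3 4 (.ref 1768 271120) (.typ 3 4 (.ref 2 834) (.ref 258 66610)))),
  (.adj 4 2 (.ref 1768 274960) (.ref 1769 274960)),
  (.typ 2 3 (.ref 2 564) (.adj 2 4 (.ref 1770 213520) (.typ 2 4 (.ref 2 579) (.adj 3 4 (.ref 1770 148240) (.typ 3 4 (.ref 2 834) (.ref 189 66610)))))),
  (.adj 3 2 (.ref 1770 274960) (.ref 1771 274960)),
  (.typ 1 3 (.typ 1 4 (.ref 1772 274960) (.ref 369 5170)) (.ref 1767 274960)),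
  (.typ 1 3 (.ref 1773 271120) (.typ 1 4 (.ref 1773 205840) (.ref 141 66610))),
  (.typ 1 2 (.ref 1773 274960) (.ref 1774 274960)),
  (.typ 0 3 (.typ 0 4 (.ref 1775 274960) (.ref 369 1074)) (.ref 1766 274960)),
  (.deg 0 (.deg 1 (.ref 1776 274960) (.con 1 1)) (.ref 1759 274960)),
  (.typ 1 2 (.ref 1777 274945) (.typ 0 3 (.ref 1777 271120) (.typ 1 3 (.ref 1777 271105) (.typ 0 4 (.ref 1777 205840) (.typ 1 4 (.ref 1777 205825) (.ref 1758 274960)))))),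
  (.typ 2 0 (.ref 1777 274960) (.ref 1778 274960)),
  (.adj 0 2 (.adj 1 2 (.con 1 2) (.con 2 1)) (.con 2 0)),
  (.adj 0 2 (.con 1 2) (.adj 1 2 (.con 1 2) (.deg 3 (.ref 1780 271120) (.adj 0 3 (.con 1 3) (.adj 1 3 (.con 1 3) (.deg 4 (.ref 1780 205840) (.adj 0 4 (.con 1 4) (.adj 1 4 (.con 1 4) (.ref 1779 274960))))))))),
  (.deg 2 (.ref 1780 274960) (.ref 1781 274960)),
  (.alx (.ref 1782 274960) (.ref 1750 5517840)),
  (.loc 4 (.door 4 (.ref 1749 4) (.con 11 0)) (.ref 1783 274960)),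
  (.alx (.con 12 0) (.ref 1784 274960)),
  (.loc 3 (.door 3 (.ref 1749 3) (.con 11 0)) (.ref 1785 12816)),
  (.alx (.con 1 0) (.ref 1786 12816)),
  (.loc 2 (.door 2 (.ref 1749 2) (.con 11 0)) (.ref 1787 528)),
  (.alx (.con 1 0) (.ref 1788 528)),
  (.loc 4 (.door 4 (.ref 1749 4) (.ref 1789 64)) (.con 5 0)),
  (.alx (.con 12 0) (.ref 1790 274960)),
  (.loc 3 (.door 3 (.ref 1749 3) (.ref 1789 48)) (.ref 1791 12816)),
  (.alx (.con 1 0) (.ref 1792 12816)),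
  (.loc 2 (.door 2 (.ref 1749 2) (.ref 1789 32)) (.ref 1793 528))]

theorem tc1767 : J.chkL tL tr1767 1767 = true := by decide +kernel

/-- Trees. -/
noncomputable def tr1795 : List J.Tr := [
  (.alx (.con 1 0) (.ref 1794 528)),
  (.loc 1 (.door 1 (.ref 1749 1) (.ref 1789 16)) (.ref 1795 16)),
  (.alx (.con 1 0) (.ref 1796 16)),
  (.door 0 (.ref 1749 0) (.ref 1797 0)),
  (.alx (.con 1 0) (.loc 3 (.ref 1798 3) (.con 5 0))),
  (.alx (.con 1 0) (.loc 2 (.ref 1798 2) (.ref 1799 528))),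
  (.alx (.con 1 0) (.loc 1 (.ref 1798 1) (.ref 1800 16))),
  (.loc 0 (.ref 1798 0) (.ref 1801 0)),
  (.alx (.con 12 0) (.ref 1802 0)),
  (.ref 1803 0)]

theorem tc1795 : J.chkL tL tr1795 1795 = true := by decide +kernel

/-- Trees. -/
noncomputable def tr1871 : List J.Tr := [
  (.typ 1 3 (.ref 2 786) (.adj 2 3 (.ref 1827 801) (.ref 1011 8496))),
  (.typ 1 2 (.ref 16 33) (.adj 1 3 (.adj 2 3 (.ref 1855 531) (.ref 1011 12576)) (.ref 1011 12816))),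
  (.typ 0 2 (.ref 374 32) (.typ 1 2 (.ref 125 513) (.ref 1848 513))),
  (.fbd 2 6 (.ref 1873 609) (.loc 7 (.con 0 2) (.con 5 0))),
  (.adj 4 5 (.ref 1874 90448656) (.typ 4 6 (.ref 125 1046) (.ref 1847 410161))),
  (.adj 6 4 (.ref 1874 106181136) (.ref 1875 106181136)),
  (.deg 5 (.adj 2 5 (.typ 3 5 (.adj 4 5 (.ref 1824 344865) (.ref 910 17173)) (.ref 919 849)) (.ref 910 12821)) (.ref 30 21)),
  (.loc 6 (.door 6 (.con 5 0) (.typ 1 6 (.ref 1877 6562576) (.deg 6 (.ref 759 22) (.typ 2 6 (.ref 125 534) (.ref 1876 106181136))))) (.con 5 0)),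
  (.fbd 2 1 (.ref 1857 9265) (.ref 1878 106181136)),
  (.adj 2 5 (.ref 1879 5517840) (.typ 2 5 (.ref 125 533) (.ref 1853 344865))),
  (.deg 4 (.ref 1880 5387280) (.ref 1826 16945)),
  (.deg 2 (.ref 1880 5517840) (.ref 1881 5517840)),
  (.deg 5 (.ref 759 21) (.typ 3 5 (.ref 125 789) (.ref 1882 5517840))),
  (.typ 1 5 (.ref 1877 5517840) (.ref 1883 5517840)),
  (.loc 5 (.door 5 (.con 5 0) (.ref 1884 5517840)) (.con 5 0)),
  (.fbd 3 1 (.ref 1857 13345) (.ref 1885 5517840)),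
  (.deg 4 (.ref 1886 213520) (.ref 1826 17185)),
  (.deg 3 (.ref 1886 274960) (.ref 1887 274960)),
  (.deg 2 (.con 17 3) (.deg 4 (.con 17 3) (.ref 1861 17185))),
  (.deg 2 (.ref 1889 271120) (.deg 4 (.ref 1889 213520) (.ref 1888 274960))),
  (.deg 3 (.ref 1889 274960) (.ref 1890 274960)),
  (.loc 5 (.fbd 1 2 (.fbd 1 3 (.typ 1 5 (.adj 2 5 (.ref 1857 9265) (.adj 3 5 (.ref 1857 13345) (.ref 30 21))) (.ref 68 1070130)) (.con 0 1)) (.con 0 1)) (.con 5 0)),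
  (.fbd 4 1 (.ref 1857 17185) (.ref 1892 5517840)),
  (.deg 1 (.ref 1893 274960) (.ref 1891 274960)),
  (.adj 2 4 (.ref 1873 513) (.typ 2 4 (.ref 20 13345) (.adj 3 4 (.ref 1873 769) (.typ 3 4 (.ref 20 9265) (.ref 1832 17185))))),
  (.typ 2 3 (.ref 20 17185) (.adj 2 4 (.ref 1895 213520) (.typ 2 4 (.ref 20 13345) (.adj 3 4 (.ref 1895 148240) (.typ 3 4 (.ref 20 9265) (.ref 1894 274960)))))),
  (.adj 2 3 (.ref 1895 274960) (.ref 1896 274960)),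
  (.deg 1 (.ref 1016 274960) (.ref 1829 17185)),
  (.deg 1 (.ref 1021 274960) (.deg 2 (.ref 1021 274720) (.ref 1814 17185))),
  (.adj 4 3 (.deg 3 (.ref 1026 5517600) (.ref 1813 9025)) (.typ 3 4 (.ref 1017 196930) (.ref 27 16945)))]

theorem tc1871 : J.chkL tL tr1871 1871 = true := by decide +kernel

/-- Trees. -/
noncomputable def tr1901 : List J.Tr := [
  (.adj 1 3 (.ref 64 5170) (.typ 1 3 (.ref 32 8980) (.adj 2 3 (.ref 108 13314) (.deg 3 (.con 7 9) (.ref 1834 784))))),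
  (.adj 1 3 (.ref 1901 271120) (.typ 1 2 (.ref 1017 66340) (.typ 1 3 (.ref 1017 66100) (.deg 1 (.fbd 1 2 (.adj 2 3 (.ref 1024 262945) (.typ 2 3 (.ref 1017 131380) (.ref 27 12580))) (.con 0 1)) (.ref 1900 5448720))))),
  (.adj 1 2 (.ref 1901 274960) (.ref 1902 5517840)),
  (.adj 2 3 (.typ 1 3 (.ref 1027 274690) (.deg 1 (.fbd 1 2 (.ref 34 12610) (.con 0 1)) (.ref 1852 12306))) (.con 7 9)),
  (.adj 4 5 (.fbd 3 5 (.ref 1852 789) (.con 0 3)) (.con 7 25)),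
  (.adj 3 4 (.ref 1852 21264) (.ref 1905 5517840)),
  (.loc 6 (.door 6 (.con 15 1) (.typ 1 6 (.ref 1034 6566416) (.deg 1 (.ref 324 90885) (.typ 3 6 (.deg 6 (.ref 919 355) (.ref 16 99)) (.ref 1906 6566416))))) (.con 14 1)),
  (.fbd 1 2 (.ref 291 12610) (.ref 1907 106112016)),
  (.adj 3 2 (.ref 1908 5517840) (.ref 1029 106181136)),
  (.loc 6 (.ref 1035 6566416) (.ref 1909 106181136)),
  (.typ 6 4 (.ref 1038 106181136) (.ref 1910 106181136)),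
  (.typ 6 3 (.ref 1039 6566416) (.ref 1911 106181136)),
  (.fbd 4 3 (.ref 146 9235) (.ref 1912 106181136)),
  (.deg 6 (.ref 759 22) (.typ 3 6 (.ref 16 99) (.deg 1 (.ref 1055 221265) (.ref 1906 6566416)))),
  (.typ 6 1 (.ref 1034 6566416) (.ref 1914 106181136)),
  (.loc 6 (.door 6 (.con 15 1) (.ref 1915 106181136)) (.con 14 1)),
  (.fbd 1 2 (.fbd 3 4 (.adj 1 6 (.adj 4 6 (.ref 81 4660) (.typ 2 6 (.ref 1017 406560) (.typ 3 6 (.ref 32 136032) (.ref 216 2295316)))) (.ref 1916 106112016)) (.con 0 3)) (.con 0 2)),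
  (.fbd 3 2 (.ref 73 13345) (.ref 1917 106181136)),
  (.fbd 1 2 (.ref 291 12610) (.ref 1916 106112016)),
  (.adj 3 2 (.deg 1 (.ref 1056 3428370) (.ref 1919 5517840)) (.typ 2 3 (.ref 1017 131380) (.ref 1918 5517840))),
  (.typ 1 5 (.ref 1920 5517840) (.deg 1 (.ref 336 5408) (.ref 1913 5517840))),
  (.adj 1 3 (.deg 2 (.ref 1921 5517840) (.ref 1834 528)) (.ref 1904 5517840)),
  (.typ 2 1 (.adj 1 3 (.ref 32 12820) (.ref 1017 66340)) (.ref 1922 5517840)),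
  (.adj 3 4 (.ref 64 17185) (.door 3 (.ref 1006 52) (.deg 3 (.ref 759 3) (.typ 3 4 (.ref 125 1027) (.deg 3 (.adj 1 2 (.ref 1057 205840) (.door 2 (.con 15 1) (.deg 2 (.ref 759 2) (.ref 1923 5517840)))) (.ref 1873 1027)))))),
  (.door 2 (.ref 1006 36) (.adj 3 4 (.ref 1924 5514000) (.door 3 (.ref 1006 52) (.deg 2 (.ref 759 2) (.typ 2 4 (.ref 1017 262945) (.deg 3 (.ref 759 3) (.typ 3 4 (.ref 1017 262705) (.ref 1903 5517840))))))))]

theorem tc1901 : J.chkL tL tr1901 1901 = true := by decide +kernel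

/-- Trees. -/
noncomputable def tr1926 : List J.Tr := [
  (.adj 4 2 (.ref 1924 5517840) (.ref 1925 5517840)),
  (.prm 1 (.ref 1926 5517840)),
  (.deg 1 (.fbd 1 2 (.ref 62 5155) (.con 0 1)) (.ref 1821 17185)),
  (.adj 2 4 (.ref 1852 12306) (.typ 2 4 (.ref 1017 131395) (.adj 3 4 (.ref 1852 8211) (.typ 3 4 (.ref 1017 196930) (.deg 2 (.ref 1059 5517840) (.ref 361 17170)))))),
  (.typ 2 3 (.ref 1017 131380) (.adj 2 4 (.ref 1929 5456400) (.typ 2 4 (.ref 1017 131395) (.adj 3 4 (.ref 1929 5391120) (.typ 3 4 (.ref 1017 196930) (.ref 1928 5517840)))))),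
  (.adj 3 2 (.ref 1929 5517840) (.ref 1930 5517840)),
  (.adj 3 4 (.typ 1 4 (.ref 1027 147715) (.deg 1 (.fbd 1 3 (.ref 212 5170) (.con 0 1)) (.ref 1852 16403))) (.con 7 17)),
  (.fbd 1 3 (.ref 291 8515) (.ref 1907 106181136)),
  (.fbd 1 3 (.ref 291 8515) (.ref 1916 106181136)),
  (.deg 1 (.adj 3 4 (.ref 96 1070130) (.typ 3 4 (.ref 1027 78850) (.ref 5 1069890))) (.ref 1934 5517840)),
  (.typ 5 1 (.ref 1935 5517840) (.deg 1 (.ref 336 5424) (.ref 1933 5517840))),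
  (.adj 1 4 (.deg 3 (.ref 1936 5517840) (.ref 1834 784)) (.ref 1932 5517840)),
  (.typ 3 1 (.adj 1 4 (.ref 32 17170) (.ref 1017 66610)) (.ref 1937 5517840)),
  (.adj 2 4 (.ref 64 9265) (.typ 2 4 (.ref 225 576) (.deg 4 (.adj 1 3 (.ref 1057 274960) (.ref 1938 5517840)) (.ref 1834 1056)))),
  (.adj 1 4 (.ref 64 5170) (.typ 1 4 (.ref 32 13330) (.adj 3 4 (.ref 1939 5391120) (.deg 4 (.con 7 17) (.ref 1834 1040))))),
  (.adj 1 4 (.ref 1940 5456400) (.typ 1 3 (.ref 1017 66610) (.typ 1 4 (.ref 1017 66370) (.deg 1 (.fbd 1 3 (.adj 3 4 (.ref 1024 132145) (.typ 3 4 (.ref 1017 196930) (.ref 120 9265))) (.con 0 1)) (.ref 1900 5517840))))),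
  (.adj 3 1 (.ref 1940 5517840) (.ref 1941 5517840)),
  (.typ 2 3 (.ref 16 50) (.adj 2 4 (.ref 1939 5456400) (.typ 2 4 (.ref 1017 131905) (.ref 1942 5517840)))),
  (.adj 2 3 (.ref 1939 5517840) (.ref 1943 5517840)),
  (.adj 1 3 (.ref 1944 5514000) (.typ 1 2 (.ref 1017 66340) (.typ 1 3 (.ref 1017 66100) (.adj 1 4 (.ref 1944 5448720) (.typ 1 4 (.ref 1017 66115) (.ref 1931 5517840)))))),
  (.adj 2 1 (.ref 1944 5517840) (.ref 1945 5517840)),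
  (.deg 3 (.deg 4 (.ref 1061 274960) (.ref 1822 17185)) (.ref 1822 13345)),
  (.deg 2 (.ref 1947 274960) (.ref 1822 9265)),
  (.adj 3 5 (.ref 302 5200) (.deg 3 (.con 7 11) (.typ 3 5 (.ref 307 77893) (.ref 1808 77893)))),
  (.adj 4 5 (.ref 1949 5517840) (.door 1 (.con 3 1) (.ref 910 20545)))]

theorem tc1926 : J.chkL tL tr1926 1926 = true := by decide +kernel

/-- Trees. -/
noncomputable def tr1951 : List J.Tr := [
  (.fbd 0 5 (.typ 1 5 (.ref 1950 5514000) (.ref 369 5440)) (.con 0 0)),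
  (.prm 1 (.ref 1951 5517840)),
  (.typ 1 4 (.deg 2 (.deg 3 (.door 1 (.ref 1952 274960) (.ref 1063 205840)) (.ref 1868 16945)) (.ref 1868 17185)) (.ref 919 1040)),
  (.deg 2 (.deg 3 (.deg 4 (.ref 1061 274960) (.ref 1859 12865)) (.ref 1859 16945)) (.ref 1859 17185)),
  (.adj 4 1 (.ref 1954 274960) (.ref 1953 274960)),
  (.loc 1 (.door 0 (.con 3 0) (.ref 1955 274960)) (.ref 1948 274960)),
  (.typ 3 4 (.ref 1017 196930) (.deg 1 (.ref 1956 274513) (.ref 27 16945))),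
  (.deg 1 (.fbd 1 3 (.ref 1055 17233) (.con 0 1)) (.deg 3 (.ref 1026 5517600) (.ref 1813 9025))),
  (.adj 4 3 (.ref 1958 106181136) (.ref 1957 5517840)),
  (.typ 1 5 (.ref 1959 106181136) (.deg 1 (.ref 324 82693) (.ref 1900 5517840))),
  (.adj 3 4 (.typ 1 4 (.ref 1027 147715) (.deg 1 (.fbd 1 3 (.ref 1066 147715) (.con 0 1)) (.ref 1852 16403))) (.con 7 17)),
  (.deg 2 (.ref 336 9792) (.deg 1 (.adj 3 4 (.ref 96 1070130) (.typ 3 4 (.ref 1017 196930) (.ref 5 1069890))) (.ref 1934 5517840))),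
  (.deg 2 (.ref 1067 106181136) (.deg 1 (.ref 1067 90390816) (.ref 1934 5517840))),
  (.typ 2 6 (.ref 1963 106181136) (.ref 1962 106181136)),
  (.typ 2 6 (.ref 1964 90390816) (.deg 1 (.ref 336 5424) (.deg 2 (.ref 336 9792) (.ref 1933 5517840)))),
  (.typ 1 5 (.ref 1964 106181136) (.ref 1965 106181136)),
  (.adj 1 4 (.deg 3 (.ref 1966 106181136) (.ref 1834 784)) (.ref 1961 5517840)),
  (.typ 3 1 (.adj 1 4 (.ref 32 17170) (.ref 1017 66610)) (.ref 1967 106181136)),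
  (.door 3 (.con 15 1) (.deg 3 (.ref 759 3) (.ref 1968 106181136))),
  (.adj 3 1 (.ref 1057 274960) (.ref 1969 106181136)),
  (.adj 2 4 (.ref 64 9265) (.door 4 (.con 15 2) (.deg 4 (.ref 759 4) (.typ 2 4 (.ref 237 516) (.deg 4 (.ref 1970 106181136) (.ref 1834 1056)))))),
  (.door 3 (.con 15 2) (.adj 1 3 (.ref 1971 90452256) (.deg 3 (.con 7 9) (.adj 1 4 (.ref 1971 90390816) (.door 4 (.con 15 1) (.typ 1 3 (.ref 1017 66610) (.adj 2 4 (.ref 1971 106119696) (.deg 4 (.con 7 17) (.typ 2 3 (.ref 1017 132145) (.typ 1 4 (.ref 1017 66370) (.typ 2 4 (.ref 1017 131905) (.ref 1960 106181136)))))))))))),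
  (.adj 2 3 (.ref 1971 106181136) (.ref 1972 106181136)),
  (.prm 2 (.ref 1973 106181136)),
  (.door 4 (.adj 1 4 (.ref 1974 5448720) (.con 15 1)) (.deg 4 (.ref 759 4) (.ref 1946 5517840)))]

theorem tc1951 : J.chkL tL tr1951 1951 = true := by decide +kernel

end Pool.Agent.Lib.MP_efe3d7_co.D
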