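import Pool.Agent.Lib.MP_efe3d7_co.D.Tab

/-! Case trees. -/

set_option autoImplicit false

namespace Pool.Agent.Lib.MP_efe3d7_co.D

open H

/-- Trees. -/
noncomputable def tr1976 : List J.Tr := [
  (.door 3 (.adj 1 3 (.ref 1974 5514000) (.con 15 1)) (.deg 3 (.ref 759 3) (.ref 1975 5517840))),
  (.door 2 (.adj 1 2 (.ref 1974 5517840) (.con 15 1)) (.deg 2 (.ref 759 2) (.ref 1976 5517840))),
  (.prm 1 (.ref 1977 5517840)),
  (.loc 4 (.ref 1978 274960) (.adj 1 4 (.ref 1927 274960) (.ref 1006 20))),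
  (.deg 5 (.ref 1084 106181136) (.deg 6 (.ref 1084 90452496) (.ref 1870 5712))),
  (.loc 6 (.door 6 (.con 5 0) (.fbd 1 5 (.fbd 0 6 (.fbd 1 6 (.typ 1 6 (.deg 6 (.ref 908 1537) (.adj 5 6 (.ref 154 5712) (.typ 5 6 (.ref 187 5712) (.ref 1980 106181136)))) (.ref 759 97)) (.con 0 1)) (.con 0 0)) (.con 0 1))) (.con 5 0)),
  (.exp 1 (.ref 1981 106181136)),
  (.adj 1 4 (.ref 1982 5517840) (.ref 1068 5517840)),
  (.loc 5 (.door 5 (.con 5 0) (.fbd 0 5 (.typ 1 5 (.deg 5 (.ref 908 1281) (.ref 1983 5517840)) (.ref 759 81)) (.con 0 0))) (.con 5 0)),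
  (.exp 1 (.ref 1984 5517840)),
  (.adj 3 1 (.ref 1985 274960) (.adj 1 4 (.ref 1985 213520) (.con 7 3))),
  (.adj 2 1 (.ref 1986 274960) (.adj 1 3 (.ref 1986 271120) (.con 7 3))),
  (.loc 1 (.deg 3 (.ref 1109 274960) (.ref 1848 1072)) (.con 2 0)),
  (.door 0 (.loc 1 (.con 3 0) (.con 14 0)) (.ref 1988 274960)),
  (.adj 4 1 (.ref 1989 274960) (.ref 1104 274960)),
  (.deg 3 (.fbd 3 4 (.ref 33 4660) (.con 0 3)) (.ref 1845 17168)),
  (.adj 4 2 (.ref 1991 5517840) (.ref 1160 5517840)),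
  (.door 1 (.con 15 1) (.adj 1 4 (.typ 1 3 (.ref 1992 5517840) (.ref 759 49)) (.con 7 3))),
  (.adj 1 4 (.adj 3 4 (.ref 208 16945) (.typ 3 4 (.ref 287 13345) (.ref 1993 5517840))) (.con 7 3)),
  (.adj 3 1 (.deg 4 (.ref 1173 5517840) (.ref 1834 1072)) (.ref 1993 5517840)),
  (.typ 4 3 (.adj 1 3 (.ref 287 17185) (.ref 16 67)) (.ref 1995 5517840)),
  (.adj 3 1 (.adj 3 4 (.ref 1155 5517840) (.ref 1996 5517600)) (.ref 1994 5517840)),
  (.adj 3 2 (.adj 3 4 (.ref 1155 5517600) (.ref 1996 5517840)) (.adj 2 4 (.ref 1997 5517840) (.con 7 5))),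
  (.door 4 (.adj 3 4 (.ref 1175 5517840) (.con 15 3)) (.deg 4 (.ref 759 4) (.ref 1998 5517840))),
  (.prm 3 (.fbd 0 5 (.ref 1999 5517840) (.con 0 0))),
  (.loc 4 (.ref 2000 274960) (.deg 4 (.con 2 0) (.ref 1157 274960))),
  (.door 0 (.con 15 0) (.loc 1 (.loc 2 (.adj 1 2 (.ref 2001 274960) (.ref 1096 528)) (.con 2 0)) (.con 2 0)))]

theorem tc1976 : J.chkL tL tr1976 1976 = true := by decide +kernel

/-- Trees. -/
noncomputable def tr2003 : List J.Tr := [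
  (.door 4 (.ref 2002 213520) (.deg 4 (.ref 759 4) (.deg 4 (.ref 1152 274960) (.ref 1834 1027)))),
  (.loc 4 (.ref 2003 274960) (.ref 1131 274960)),
  (.loc 4 (.door 4 (.ref 2002 213520) (.deg 4 (.ref 759 4) (.ref 225 832))) (.ref 16 52)),
  (.typ 3 4 (.ref 2005 274960) (.ref 2004 274960)),
  (.adj 2 5 (.fbd 0 5 (.typ 1 5 (.ref 1950 5517840) (.ref 369 5440)) (.con 0 0)) (.con 7 7)),
  (.exp 1 (.ref 2007 5517840)),
  (.door 4 (.ref 2002 213520) (.deg 4 (.ref 759 4) (.loc 1 (.door 0 (.con 3 0) (.adj 1 4 (.ref 2006 213520) (.ref 2008 213280))) (.ref 2006 213520)))),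
  (.loc 4 (.ref 2009 274960) (.ref 1990 274960)),
  (.loc 4 (.door 4 (.ref 2002 213520) (.loc 1 (.adj 1 4 (.ref 287 13345) (.deg 4 (.con 7 17) (.ref 16 67))) (.ref 225 1072))) (.ref 16 52)),
  (.typ 3 4 (.ref 2011 274960) (.ref 2010 274960)),
  (.adj 3 4 (.door 2 (.ref 1176 800) (.ref 1073 800)) (.ref 2012 274960)),
  (.typ 3 2 (.ref 2013 274960) (.door 2 (.ref 918 800) (.ref 759 50))),
  (.loc 2 (.adj 1 2 (.adj 2 4 (.ref 2014 274960) (.con 7 5)) (.con 7 5)) (.con 0 2)),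
  (.adj 3 2 (.adj 3 4 (.ref 357 3) (.ref 2006 274960)) (.ref 2015 274960)),
  (.loc 1 (.adj 1 4 (.loc 2 (.adj 2 3 (.ref 2016 274720) (.adj 2 4 (.adj 3 4 (.ref 328 8980) (.door 0 (.con 3 0) (.deg 3 (.con 7 9) (.typ 3 4 (.ref 2011 274960) (.loc 4 (.ref 1834 832) (.ref 1848 1072)))))) (.con 7 5))) (.ref 2016 274720)) (.con 7 3)) (.con 0 1)),
  (.adj 3 1 (.ref 2016 274960) (.ref 2017 274960)),
  (.door 3 (.ref 2002 274960) (.deg 3 (.ref 759 3) (.ref 2018 274960))),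
  (.loc 4 (.ref 2019 213520) (.door 0 (.con 14 0) (.loc 1 (.loc 2 (.deg 3 (.con 2 0) (.deg 4 (.con 2 0) (.adj 1 2 (.ref 993 274960) (.ref 1096 528)))) (.con 2 0)) (.con 2 0)))),
  (.loc 3 (.ref 2019 274960) (.ref 2020 274960)),
  (.door 5 (.con 17 35) (.deg 5 (.ref 1243 6631952) (.ref 1807 83536))),
  (.door 2 (.con 15 2) (.typ 2 4 (.deg 5 (.ref 1256 106181136) (.ref 1858 75072)) (.ref 759 66))),
  (.prm 5 (.ref 2023 105198096)),
  (.door 4 (.ref 2024 4530960) (.deg 5 (.ref 1252 5517840) (.ref 1858 79168))),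
  (.door 5 (.door 4 (.con 15 4) (.ref 2024 5517840)) (.ref 2025 5517840))]

theorem tc2003 : J.chkL tL tr2003 2003 = true := by decide +kernel

/-- Trees. -/
noncomputable def tr2027 : List J.Tr := [
  (.adj 5 2 (.ref 1249 344848) (.typ 2 5 (.ref 2026 5517840) (.ref 759 82))),
  (.adj 3 5 (.typ 3 4 (.ref 2027 5517840) (.ref 759 67)) (.con 7 10)),
  (.adj 4 3 (.ref 1081 21520) (.ref 2028 5517840)),
  (.adj 2 5 (.typ 2 4 (.adj 3 4 (.ref 2029 5514000) (.adj 3 5 (.ref 1249 344592) (.con 7 10))) (.ref 759 66)) (.con 7 6)),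
  (.adj 4 2 (.ref 2029 5517840) (.ref 2030 5517840)),
  (.deg 5 (.ref 2031 6631952) (.deg 6 (.ref 2031 5648912) (.ref 1864 83536))),
  (.loc 6 (.ref 2032 106181136) (.ref 2022 106181136)),
  (.loc 5 (.ref 2033 106181136) (.loc 6 (.ref 2033 90452496) (.con 17 3))),
  (.fbd 0 6 (.typ 1 6 (.deg 6 (.ref 908 1537) (.adj 5 6 (.ref 154 5712) (.typ 5 6 (.ref 187 5712) (.ref 2034 106181136)))) (.ref 759 97)) (.con 0 0)),
  (.exp 1 (.ref 2035 106181136)),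
  (.adj 1 3 (.ref 2036 5517840) (.adj 3 5 (.ref 384 1329) (.con 7 10))),
  (.fbd 0 5 (.typ 1 5 (.deg 5 (.ref 908 1281) (.ref 2037 5517840)) (.ref 759 81)) (.con 0 0)),
  (.exp 1 (.ref 2038 5517840)),
  (.adj 1 2 (.ref 2039 274960) (.adj 1 3 (.ref 2039 271120) (.con 7 3))),
  (.door 0 (.door 1 (.con 15 0) (.door 2 (.con 15 0) (.door 3 (.con 15 0) (.ref 2040 274960)))) (.con 2 0)),
  (.adj 2 3 (.ref 276 4928) (.typ 2 3 (.ref 1858 74800) (.ref 208 206145))),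
  (.adj 4 2 (.ref 2042 6636304) (.ref 2042 6636048)),
  (.door 7 (.adj 2 7 (.adj 3 7 (.loc 6 (.door 6 (.con 15 6) (.deg 6 (.ref 287 415553) (.ref 2043 124072464))) (.ref 764 1893)) (.con 3 7)) (.con 3 7)) (.ref 759 103)),
  (.typ 6 7 (.ref 952 484624) (.ref 2044 1985229328)),
  (.loc 7 (.deg 7 (.adj 4 7 (.ref 2045 1985229328) (.con 7 144)) (.ref 16 117)) (.ref 148 87)),
  (.typ 5 7 (.ref 2046 1985229328) (.ref 1262 1985229328)),
  (.fbd 5 6 (.ref 355 5382) (.ref 2047 1985229328)),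
  (.adj 2 4 (.ref 276 5200) (.door 2 (.con 15 2) (.typ 2 4 (.deg 5 (.ref 1256 106181136) (.ref 1858 75072)) (.ref 759 66)))),
  (.adj 5 2 (.ref 2049 124076816) (.ref 2023 124076560)),
  (.loc 6 (.door 6 (.con 15 5) (.ref 2050 1985229328)) (.con 14 5)),
  (.prm 5 (.ref 2051 1985229328)),
  (.door 5 (.ref 2052 106181136) (.deg 5 (.ref 2048 106181136) (.ref 1858 83296))),
  (.typ 6 4 (.door 4 (.ref 1216 6369856) (.ref 2053 106181136)) (.door 4 (.ref 392 24896) (.ref 759 100))),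
  (.adj 4 6 (.ref 276 5712) (.adj 4 5 (.adj 2 4 (.adj 3 4 (.ref 2054 106181136) (.ref 384 1588)) (.ref 384 1572)) (.con 7 18)))]

theorem tc2027 : J.chkL tL tr2027 2027 = true := by decide +kernel

/-- Trees. -/
noncomputable def tr2056 : List J.Tr := [
  (.adj 3 5 (.adj 2 3 (.adj 4 6 (.ref 2055 106119696) (.adj 3 4 (.adj 4 5 (.loc 6 (.ref 2055 90325776) (.door 3 (.ref 1142 6373936) (.adj 2 5 (.ref 288 4197) (.typ 3 6 (.typ 2 5 (.ref 155 1455362) (.door 2 (.ref 415 1312) (.ref 759 82))) (.ref 759 99))))) (.con 7 18)) (.con 7 24))) (.ref 384 1571)) (.con 7 10)),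
  (.adj 6 3 (.ref 2055 106181136) (.ref 2056 106181136)),
  (.adj 2 5 (.loc 6 (.ref 2057 90452496) (.adj 3 6 (.ref 2057 106177296) (.adj 3 5 (.adj 4 5 (.ref 288 4197) (.adj 4 6 (.ref 2057 106112016) (.con 7 18))) (.con 7 10)))) (.con 7 6)),
  (.adj 6 2 (.ref 2057 106181136) (.ref 2058 106181136)),
  (.adj 3 7 (.fbd 0 7 (.typ 2 7 (.deg 7 (.ref 908 1794) (.adj 6 7 (.ref 154 10080) (.typ 6 7 (.ref 187 10080) (.loc 7 (.ref 2059 108278048) (.ref 1257 1985225488))))) (.ref 759 114)) (.con 0 0)) (.con 7 12)),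
  (.exp 2 (.ref 2060 1985229328)),
  (.fbd 0 7 (.typ 3 7 (.deg 7 (.ref 908 1795) (.adj 6 7 (.ref 154 14176) (.typ 6 7 (.ref 187 14176) (.loc 7 (.ref 2059 108273968) (.door 2 (.con 5 0) (.deg 6 (.con 17 11) (.ref 1264 1985229328))))))) (.ref 759 115)) (.con 0 0)),
  (.exp 3 (.ref 2062 1985229328)),
  (.adj 3 6 (.ref 0 86534) (.door 3 (.ref 1142 6439216) (.adj 2 3 (.typ 3 6 (.ref 2063 106181136) (.ref 759 99)) (.ref 384 1571)))),
  (.door 2 (.ref 1142 6504736) (.typ 2 6 (.adj 3 6 (.ref 2064 106177296) (.adj 2 3 (.ref 2061 106181136) (.con 7 12))) (.ref 759 98))),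
  (.adj 2 6 (.ref 2064 106181136) (.ref 2065 106181136)),
  (.adj 4 5 (.ref 0 90629) (.adj 4 6 (.door 4 (.ref 764 1104) (.adj 2 4 (.adj 3 4 (.typ 4 5 (.ref 2066 106181136) (.ref 759 84)) (.ref 384 1332)) (.ref 384 1316))) (.con 7 18))),
  (.adj 3 6 (.adj 4 5 (.ref 2067 106119696) (.adj 4 6 (.ref 2067 90325776) (.con 7 18))) (.con 7 10)),
  (.adj 5 3 (.ref 2067 106181136) (.ref 2068 106181136)),
  (.adj 2 5 (.ref 2069 106181136) (.adj 2 6 (.ref 2069 90452496) (.con 7 6))),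
  (.loc 5 (.ref 2059 106181136) (.loc 6 (.ref 2059 90452496) (.ref 2070 106181136))),
  (.fbd 0 6 (.typ 1 6 (.deg 6 (.ref 908 1537) (.adj 5 6 (.ref 154 5712) (.typ 5 6 (.ref 187 5712) (.ref 2071 106181136)))) (.ref 759 97)) (.con 0 0)),
  (.exp 1 (.ref 2072 106181136)),
  (.adj 1 4 (.ref 2073 5517840) (.adj 4 5 (.ref 384 1345) (.con 7 18)))]

theorem tc2056 : J.chkL tL tr2056 2056 = true := by decide +kernel

/-- Trees. -/
noncomputable def tr2075 : List J.Tr := [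
  (.door 1 (.ref 1216 5517840) (.deg 5 (.ref 908 1281) (.ref 2074 5517840))),
  (.typ 5 1 (.ref 2075 5517840) (.ref 1143 5517840)),
  (.exp 1 (.fbd 0 5 (.ref 2076 5517840) (.con 0 0))),
  (.adj 1 3 (.ref 2077 274960) (.adj 2 3 (.ref 2077 274720) (.con 7 9))),
  (.adj 1 2 (.ref 2078 274960) (.adj 1 3 (.ref 2078 271120) (.con 7 3))),
  (.loc 4 (.door 0 (.con 3 0) (.ref 2079 274960)) (.ref 2041 274960)),
  (.loc 3 (.ref 2080 274960) (.loc 4 (.ref 2080 213520) (.con 4 0))),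
  (.loc 2 (.ref 2081 274960) (.loc 3 (.ref 2081 271120) (.con 4 0))),
  (.loc 1 (.ref 2082 274960) (.loc 2 (.ref 2082 274720) (.con 4 0))),
  (.typ 0 4 (.deg 4 (.ref 2083 274960) (.ref 16 4)) (.ref 1239 274960)),
  (.typ 0 4 (.deg 4 (.ref 2084 213520) (.ref 16 4)) (.ref 2021 274960)),
  (.typ 0 3 (.deg 3 (.ref 2084 274960) (.ref 16 3)) (.ref 2085 274960)),
  (.loc 6 (.fbd 3 5 (.fbd 4 5 (.fbd 5 6 (.typ 5 6 (.deg 6 (.ref 2086 275989) (.ref 16 101)) (.ref 124 5333824)) (.con 0 5)) (.con 0 5)) (.con 0 5)) (.con 5 0)),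
  (.fbd 3 5 (.ref 270 87088) (.ref 2087 106181136)),
  (.adj 3 5 (.ref 288 4165) (.typ 3 5 (.ref 953 214288) (.ref 2088 5517840))),
  (.typ 2 4 (.ref 314 1254480) (.adj 3 5 (.ref 2089 5514000) (.typ 3 5 (.ref 953 214288) (.ref 124 5321280)))),
  (.fbd 4 5 (.ref 987 1045) (.ref 2087 106177296)),
  (.adj 5 3 (.ref 2091 5517840) (.typ 3 5 (.ref 953 214288) (.ref 124 5321280))),
  (.adj 4 2 (.ref 2092 5517840) (.ref 2090 5517840)),
  (.adj 5 2 (.ref 2089 5517840) (.typ 2 5 (.ref 16 82) (.ref 2093 5517840))),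
  (.adj 6 2 (.ref 2094 6636304) (.ref 1093 6636048)),
  (.fbd 1 6 (.typ 1 5 (.adj 5 6 (.ref 154 5712) (.typ 5 6 (.ref 243 1302) (.deg 6 (.ref 2095 106181136) (.ref 1830 75344)))) (.ref 759 81)) (.con 0 1)),
  (.deg 6 (.ref 1285 1985229328) (.deg 7 (.ref 1285 1733571088) (.ref 1870 5984))),
  (.loc 7 (.door 7 (.con 5 0) (.fbd 1 6 (.fbd 0 7 (.fbd 1 7 (.typ 1 7 (.deg 7 (.ref 908 1793) (.adj 6 7 (.ref 154 5984) (.typ 6 7 (.ref 187 5984) (.ref 2097 1985229328)))) (.ref 759 113)) (.con 0 1)) (.con 0 0)) (.con 0 1))) (.con 5 0)),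
  (.exp 1 (.ref 2098 1985229328)),
  (.adj 1 5 (.ref 2099 106181136) (.ref 2096 106181136)),
  (.loc 6 (.door 6 (.con 5 0) (.fbd 0 6 (.typ 1 6 (.deg 6 (.ref 908 1537) (.ref 2100 106181136)) (.ref 759 97)) (.con 0 0))) (.con 5 0))]

theorem tc2075 : J.chkL tL tr2075 2075 = true := by decide +kernel

/-- Trees. -/
noncomputable def tr2102 : List J.Tr := [
  (.exp 1 (.ref 2101 106181136)),
  (.deg 5 (.ref 917 1106) (.typ 2 5 (.ref 16 37) (.loc 5 (.ref 108 1061) (.door 1 (.con 5 0) (.ref 2102 5517840))))),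
  (.typ 5 4 (.typ 2 5 (.ref 215 2118705) (.ref 32 132179)) (.ref 2103 5517840)),
  (.fbd 4 2 (.ref 110 17185) (.fbd 2 5 (.ref 2104 5517840) (.con 0 2))),
  (.fbd 2 4 (.adj 4 5 (.ref 2105 213520) (.ref 1092 5517840)) (.con 0 2)),
  (.fbd 3 2 (.ref 2105 274960) (.ref 2106 5517840)),
  (.adj 4 1 (.deg 2 (.ref 2107 274960) (.ref 1863 17185)) (.ref 1089 274960)),
  (.typ 4 3 (.ref 1286 274960) (.ref 2108 274960)),
  (.adj 3 4 (.deg 2 (.ref 1297 274960) (.ref 1873 770)) (.ref 2109 274960)),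
  (.adj 3 1 (.ref 2110 274960) (.adj 1 4 (.ref 2110 213520) (.con 7 3))),
  (.door 1 (.con 15 1) (.adj 1 4 (.typ 1 2 (.adj 2 3 (.ref 1154 21008) (.door 3 (.con 15 2) (.adj 3 4 (.ref 300 17185) (.deg 3 (.con 7 9) (.typ 2 3 (.ref 16 50) (.typ 3 4 (.ref 125 1027) (.deg 3 (.ref 1301 5517840) (.ref 1848 1072)))))))) (.ref 759 33)) (.con 7 3))),
  (.adj 6 3 (.deg 2 (.ref 1316 106181136) (.ref 1820 1074226)) (.typ 3 6 (.ref 16 54) (.ref 1315 106181136))),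
  (.typ 1 6 (.adj 4 6 (.ref 239 74566) (.typ 4 6 (.ref 187 5216) (.loc 6 (.ref 149 5216) (.adj 2 6 (.deg 6 (.con 2 1) (.ref 2113 106181136)) (.con 14 2))))) (.ref 759 97)),
  (.exp 1 (.ref 2114 106181136)),
  (.deg 2 (.fbd 1 2 (.ref 1324 5517840) (.con 0 2)) (.ref 2115 5517840)),
  (.adj 4 3 (.ref 2116 5517840) (.typ 3 4 (.ref 125 1027) (.ref 1313 5517840))),
  (.typ 2 5 (.ref 2117 5517840) (.ref 1302 5517840)),
  (.adj 1 3 (.door 1 (.ref 764 320) (.typ 1 4 (.ref 2118 5517840) (.ref 917 1040))) (.con 7 3)),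
  (.adj 4 1 (.ref 1333 5517840) (.ref 2119 5517840)),
  (.adj 2 3 (.ref 300 9265) (.door 3 (.con 15 2) (.deg 3 (.ref 759 3) (.typ 2 3 (.ref 237 515) (.deg 3 (.ref 2120 5517840) (.ref 1834 800)))))),
  (.adj 2 1 (.ref 2121 5517840) (.ref 2112 5517840)),
  (.adj 2 4 (.fbd 0 5 (.ref 2122 5517840) (.con 0 0)) (.con 14 2)),
  (.prm 2 (.ref 2123 5517840)),
  (.adj 2 4 (.ref 1154 21008) (.typ 2 4 (.ref 16 66) (.adj 3 4 (.ref 300 13345) (.typ 3 4 (.ref 225 832) (.deg 4 (.ref 1336 5517840) (.ref 1834 1072)))))),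
  (.typ 2 3 (.ref 16 50) (.adj 2 4 (.ref 2125 5456400) (.typ 2 4 (.ref 16 66) (.adj 3 4 (.ref 1845 12816) (.typ 3 4 (.ref 16 67) (.deg 3 (.deg 4 (.ref 1063 274960) (.ref 1854 9265)) (.ref 1854 9025)))))))]

theorem tc2102 : J.chkL tL tr2102 2102 = true := by decide +kernel

/-- Trees. -/
noncomputable def tr2127 : List J.Tr := [
  (.adj 2 3 (.ref 2125 5517840) (.ref 2126 5517840)),
  (.door 1 (.con 15 1) (.adj 1 3 (.adj 1 4 (.typ 1 2 (.ref 2127 5517840) (.ref 759 33)) (.con 7 3)) (.con 7 3))),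
  (.adj 3 4 (.ref 114 344625) (.typ 3 4 (.ref 16 67) (.adj 1 4 (.ref 1859 17185) (.typ 1 4 (.ref 1868 17185) (.door 1 (.ref 918 1040) (.ref 759 65)))))),
  (.adj 3 1 (.ref 2129 5517840) (.adj 1 4 (.ref 2129 5456400) (.con 7 3))),
  (.adj 2 6 (.ref 322 17185) (.loc 6 (.door 6 (.con 15 2) (.deg 3 (.con 7 25) (.ref 1854 17185))) (.con 14 2))),
  (.fbd 3 4 (.ref 259 12580) (.fbd 2 4 (.ref 2131 106181136) (.con 0 4))),
  (.deg 4 (.ref 2132 5517840) (.deg 2 (.ref 294 152384) (.ref 1868 17185))),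
  (.typ 4 1 (.ref 2133 5517840) (.door 1 (.ref 918 1040) (.ref 759 65))),
  (.adj 4 1 (.deg 2 (.ref 334 132149) (.ref 1859 17185)) (.deg 4 (.con 7 17) (.ref 2134 5517840))),
  (.adj 4 3 (.deg 2 (.ref 321 147509) (.ref 19 344625)) (.typ 3 4 (.ref 16 67) (.ref 2135 5517840))),
  (.adj 3 1 (.ref 2136 5517840) (.adj 1 4 (.ref 2136 5456400) (.con 7 3))),
  (.typ 2 5 (.ref 2137 5517840) (.deg 2 (.ref 324 148229) (.ref 2130 5517840))),
  (.typ 5 4 (.deg 5 (.ref 918 852) (.ref 16 84)) (.deg 3 (.ref 186 3409185) (.ref 1834 852))),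
  (.typ 3 5 (.typ 4 5 (.ref 18 4215090) (.ref 32 271184)) (.ref 2139 5517840)),
  (.door 6 (.adj 2 6 (.ref 2140 6566416) (.con 15 2)) (.ref 1338 106181136)),
  (.loc 6 (.ref 2141 106181136) (.ref 1028 6636320)),
  (.fbd 4 5 (.fbd 4 6 (.ref 2142 106181136) (.con 0 4)) (.con 0 4)),
  (.fbd 4 3 (.ref 1033 132115) (.ref 2143 106181136)),
  (.typ 3 4 (.ref 16 67) (.deg 2 (.ref 2008 213520) (.ref 2144 5517840))),
  (.adj 3 4 (.door 1 (.ref 1176 784) (.ref 1073 784)) (.ref 2145 5517840)),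
  (.typ 3 1 (.ref 2146 5517840) (.door 1 (.ref 918 784) (.ref 759 49))),
  (.adj 3 1 (.ref 1340 5517840) (.adj 1 4 (.ref 2147 5517840) (.con 7 3))),
  (.adj 2 4 (.ref 300 9265) (.typ 2 4 (.ref 237 516) (.deg 4 (.ref 2148 5517840) (.ref 1834 1056)))),
  (.adj 2 4 (.ref 2149 5456400) (.typ 2 3 (.ref 16 50) (.typ 2 4 (.ref 16 66) (.ref 2138 5517840)))),
  (.adj 2 3 (.ref 2149 5517840) (.ref 2150 5517840)),
  (.adj 2 1 (.ref 2151 5517840) (.ref 2128 5517840)),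
  (.adj 2 4 (.ref 300 9265) (.door 4 (.con 15 2) (.deg 4 (.ref 759 4) (.typ 2 4 (.ref 237 516) (.deg 4 (.ref 1350 106181136) (.ref 1834 1056))))))]

theorem tc2127 : J.chkL tL tr2127 2127 = true := by decide +kernel

/-- Trees. -/
noncomputable def tr2154 : List J.Tr := [
  (.adj 2 1 (.ref 2153 106181136) (.adj 1 3 (.ref 2153 90448656) (.con 7 3))),
  (.prm 3 (.fbd 0 6 (.ref 2154 106181136) (.con 0 0))),
  (.door 4 (.adj 2 4 (.ref 2155 5456400) (.con 15 2)) (.deg 4 (.ref 759 4) (.ref 2152 5517840))),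
  (.door 3 (.adj 2 3 (.ref 2155 5517840) (.con 15 2)) (.deg 3 (.ref 759 3) (.ref 2156 5517840))),
  (.prm 2 (.fbd 0 5 (.ref 2157 5517840) (.con 0 0))),
  (.loc 4 (.ref 2158 274960) (.deg 4 (.con 2 0) (.ref 2124 274960))),
  (.deg 3 (.con 2 0) (.loc 4 (.ref 2159 213520) (.door 1 (.con 17 7) (.deg 4 (.con 2 0) (.ref 1299 274960))))),
  (.loc 3 (.ref 2159 274960) (.ref 2160 274960)),
  (.door 0 (.con 15 0) (.loc 1 (.ref 2161 274960) (.con 2 0))),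
  (.loc 3 (.door 3 (.ref 2162 271120) (.adj 1 3 (.adj 3 4 (.ref 225 800) (.ref 1017 197665)) (.ref 1017 196900))) (.ref 16 35)),
  (.typ 2 5 (.loc 5 (.door 5 (.adj 4 5 (.ref 2139 5387280) (.ref 1006 84)) (.ref 1022 336944)) (.ref 125 1330)) (.ref 335 2118705)),
  (.typ 5 3 (.ref 1351 5517840) (.ref 2164 5517840)),
  (.fbd 3 2 (.ref 1352 77860) (.fbd 2 5 (.ref 2165 5517840) (.con 0 2))),
  (.adj 4 3 (.deg 2 (.ref 2166 274960) (.ref 1873 1026)) (.typ 3 4 (.ref 2163 148240) (.ref 1868 12865))),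
  (.deg 3 (.deg 2 (.ref 1063 205840) (.ref 1844 17185)) (.ref 1844 16945)),
  (.door 0 (.ref 1006 4) (.loc 1 (.adj 1 4 (.ref 1859 12865) (.door 1 (.ref 1006 20) (.typ 1 4 (.ref 2168 274960) (.ref 919 1040)))) (.con 2 0))),
  (.deg 4 (.con 7 17) (.door 4 (.ref 2162 205840) (.ref 1956 274960))),
  (.loc 4 (.ref 2170 274960) (.ref 2169 274960)),
  (.door 1 (.con 3 1) (.ref 1011 20529)),
  (.loc 5 (.door 5 (.ref 2140 5517840) (.ref 1334 5514000)) (.ref 1873 1347)),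
  (.deg 3 (.con 7 25) (.fbd 4 5 (.adj 2 5 (.ref 2173 5517840) (.ref 1024 344864)) (.con 0 4))),
  (.fbd 4 3 (.ref 1033 132115) (.ref 2174 5517840)),
  (.typ 3 4 (.ref 1017 262705) (.loc 4 (.deg 4 (.con 7 17) (.door 4 (.ref 2162 205840) (.deg 4 (.ref 2175 274960) (.ref 1823 17185)))) (.ref 108 13314))),
  (.adj 3 4 (.door 1 (.ref 1176 784) (.ref 1073 784)) (.ref 2176 274960)),
  (.loc 1 (.door 0 (.con 3 0) (.adj 1 4 (.door 3 (.ref 2162 271120) (.deg 3 (.ref 759 3) (.ref 2177 274960))) (.con 7 3))) (.con 0 1))]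

theorem tc2154 : J.chkL tL tr2154 2154 = true := by decide +kernel

end Pool.Agent.Lib.MP_efe3d7_co.D
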