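import Pool.Agent.Lib.MP_efe3d7_co.D.Tab

/-! Case trees. -/

set_option autoImplicit false

namespace Pool.Agent.Lib.MP_efe3d7_co.D

open H

/-- Trees. -/
noncomputable def tr2179 : List J.Tr := [
  (.loc 4 (.typ 1 4 (.deg 4 (.ref 2178 143425) (.ref 1017 201280)) (.ref 32 74560)) (.ref 16 52)),
  (.typ 3 4 (.ref 2179 274960) (.ref 1368 274960)),
  (.adj 2 4 (.fbd 1 2 (.fbd 1 3 (.fbd 1 4 (.ref 2180 274960) (.con 0 1)) (.con 0 1)) (.con 0 1)) (.con 7 6)),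
  (.loc 5 (.door 5 (.ref 1006 84) (.ref 108 21536)) (.door 1 (.con 5 0) (.ref 2102 5517840))),
  (.typ 4 5 (.ref 1270 344864) (.deg 5 (.ref 917 1106) (.ref 2182 5517840))),
  (.typ 2 5 (.ref 937 21536) (.ref 2183 5517840)),
  (.fbd 4 2 (.ref 37 13345) (.ref 2184 5517840)),
  (.door 0 (.con 14 0) (.loc 1 (.deg 3 (.con 2 0) (.adj 1 4 (.deg 2 (.ref 2185 274960) (.ref 1818 13345)) (.ref 936 16912))) (.con 2 0))),
  (.door 0 (.ref 1369 205840) (.loc 1 (.door 4 (.ref 2162 205840) (.deg 4 (.adj 1 4 (.ref 1363 274960) (.con 7 17)) (.ref 1823 17185))) (.con 2 0))),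
  (.loc 4 (.ref 2187 274960) (.ref 2186 274960)),
  (.typ 3 4 (.ref 1353 274960) (.deg 4 (.ref 917 832) (.ref 2188 274960))),
  (.deg 4 (.con 7 17) (.door 4 (.ref 2162 205840) (.deg 4 (.adj 1 4 (.ref 1055 274960) (.con 7 17)) (.ref 1823 17185)))),
  (.loc 4 (.ref 2190 274960) (.door 0 (.ref 1369 274960) (.ref 108 13314))),
  (.loc 4 (.door 4 (.ref 2162 205840) (.deg 4 (.ref 759 4) (.ref 225 576))) (.ref 16 36)),
  (.door 3 (.ref 2162 271120) (.deg 3 (.ref 759 3) (.typ 3 4 (.ref 2192 271120) (.ref 2191 274960)))),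
  (.loc 3 (.ref 2193 274960) (.ref 2189 274960)),
  (.adj 3 4 (.door 0 (.ref 1371 274960) (.ref 300 13345)) (.ref 2194 274960)),
  (.adj 2 4 (.fbd 1 2 (.fbd 1 3 (.fbd 1 4 (.adj 3 4 (.typ 1 4 (.loc 4 (.deg 4 (.ref 2195 143425) (.ref 16 65)) (.ref 148 20)) (.ref 64 82720)) (.ref 2181 274960)) (.con 0 1)) (.con 0 1)) (.con 0 1)) (.con 7 6)),
  (.exp 1 (.ref 2196 274960)),
  (.loc 6 (.door 6 (.con 15 5) (.adj 3 6 (.deg 5 (.con 3 5) (.fbd 1 3 (.fbd 1 5 (.fbd 1 6 (.typ 5 6 (.typ 1 6 (.deg 6 (.ref 2178 217185) (.ref 1024 333360)) (.ref 32 79200)) (.ref 1022 397395)) (.con 0 1)) (.con 0 1)) (.con 0 1))) (.con 7 10))) (.con 5 0)),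
  (.fbd 6 2 (.ref 1373 106181136) (.ref 2198 124076832)),
  (.adj 3 6 (.adj 5 6 (.ref 2199 106181136) (.ref 1006 101)) (.ref 1006 99))]

theorem tc2179 : J.chkL tL tr2179 2179 = true := by decide +kernel

/-- Trees. -/
noncomputable def tr2201 : List J.Tr := [
  (.door 6 (.ref 2200 106181136) (.deg 6 (.ref 759 38) (.ref 2197 25632))),
  (.loc 6 (.ref 2201 106181136) (.ref 1367 6636320)),
  (.typ 2 6 (.ref 1375 6566416) (.typ 4 6 (.ref 1375 6435856) (.ref 2202 106181136))),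
  (.fbd 2 4 (.ref 72 1069860) (.ref 2203 106181136)),
  (.adj 5 2 (.ref 2204 5517840) (.ref 2172 5517840)),
  (.typ 1 5 (.adj 3 5 (.ref 239 74805) (.typ 3 5 (.ref 187 4944) (.loc 5 (.ref 149 4944) (.deg 5 (.con 2 1) (.ref 2205 5517840))))) (.ref 759 81)),
  (.exp 1 (.ref 2206 5517840)),
  (.adj 3 4 (.deg 2 (.ref 2207 274960) (.ref 1823 9025)) (.typ 3 4 (.ref 1017 196930) (.ref 1357 274960))),
  (.door 4 (.ref 2162 205840) (.deg 4 (.ref 759 4) (.deg 4 (.ref 2208 274960) (.ref 1823 17185)))),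
  (.loc 4 (.ref 2209 274960) (.ref 943 274960)),
  (.door 0 (.con 3 0) (.adj 1 4 (.door 1 (.ref 1006 19) (.ref 2210 274960)) (.con 7 3))),
  (.loc 1 (.ref 2211 274960) (.door 0 (.con 14 0) (.con 2 0))),
  (.loc 3 (.ref 2178 274960) (.ref 2212 274960)),
  (.typ 3 1 (.ref 2213 274960) (.ref 919 784)),
  (.adj 3 1 (.ref 2195 274960) (.ref 2214 274960)),
  (.typ 2 4 (.ref 2192 274960) (.ref 2215 274960)),
  (.adj 3 4 (.ref 2216 148240) (.typ 3 4 (.ref 2163 148240) (.ref 2171 274960))),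
  (.door 4 (.ref 2162 205840) (.deg 4 (.ref 2008 205840) (.ref 2217 213520))),
  (.loc 4 (.ref 2218 274960) (.ref 2167 274960)),
  (.loc 1 (.door 0 (.con 3 0) (.adj 1 4 (.typ 1 3 (.ref 2219 274960) (.ref 919 784)) (.con 7 3))) (.con 0 1)),
  (.adj 3 1 (.ref 2217 274960) (.ref 2220 274960)),
  (.door 3 (.ref 2162 271120) (.deg 3 (.ref 759 3) (.ref 2221 274960))),
  (.loc 4 (.ref 2222 213520) (.door 0 (.con 14 0) (.loc 1 (.ref 2111 274960) (.con 2 0)))),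
  (.loc 3 (.ref 2222 274960) (.ref 2223 274960)),
  (.typ 2 3 (.ref 2163 274960) (.typ 2 4 (.ref 2163 213520) (.ref 2224 274960))),
  (.adj 2 3 (.adj 2 4 (.ref 357 2) (.ref 2216 274960)) (.adj 2 4 (.ref 2216 213520) (.ref 2225 274960))),
  (.door 3 (.ref 2162 271120) (.deg 3 (.ref 759 3) (.ref 2226 271120))),
  (.loc 4 (.ref 2227 213520) (.door 0 (.con 14 0) (.deg 3 (.con 2 0) (.ref 1086 274960)))),
  (.loc 3 (.ref 2227 274960) (.ref 2228 274960)),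
  (.adj 2 4 (.door 1 (.ref 1176 528) (.ref 1073 528)) (.ref 2229 274960)),
  (.adj 2 3 (.ref 2230 274960) (.ref 2229 213520)),
  (.loc 1 (.adj 1 3 (.adj 1 4 (.typ 1 2 (.ref 2231 274960) (.ref 919 528)) (.con 7 3)) (.con 7 3)) (.con 0 1))]

theorem tc2201 : J.chkL tL tr2201 2201 = true := by decide +kernel

/-- Trees. -/
noncomputable def tr2233 : List J.Tr := [
  (.adj 2 1 (.ref 2226 274960) (.ref 2232 274960)),
  (.door 2 (.ref 2162 274960) (.deg 2 (.ref 759 2) (.ref 2233 274960))),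
  (.loc 3 (.ref 2234 271120) (.door 0 (.con 14 0) (.loc 1 (.deg 2 (.con 2 0) (.deg 3 (.con 2 0) (.loc 4 (.ref 2234 205840) (.door 1 (.con 17 3) (.deg 4 (.con 2 0) (.ref 1987 274960)))))) (.con 2 0)))),
  (.loc 2 (.ref 2234 274960) (.ref 2235 274960)),
  (.typ 0 4 (.deg 4 (.ref 2086 205840) (.ref 16 4)) (.ref 2236 274960)),
  (.typ 0 3 (.deg 3 (.ref 2086 271120) (.ref 16 3)) (.ref 2237 274960)),
  (.typ 0 2 (.deg 2 (.ref 2086 274960) (.ref 16 2)) (.ref 2238 274960)),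
  (.loc 6 (.fbd 1 2 (.fbd 2 4 (.fbd 2 6 (.typ 2 6 (.deg 6 (.ref 2239 266338) (.ref 16 98)) (.ref 1979 286738)) (.con 0 2)) (.con 0 2)) (.con 0 2)) (.con 5 0)),
  (.fbd 4 2 (.ref 370 17185) (.ref 2240 106181136)),
  (.loc 6 (.door 6 (.con 15 1) (.typ 1 6 (.ref 1034 6562576) (.deg 1 (.ref 324 90629) (.typ 2 6 (.deg 6 (.ref 919 354) (.ref 16 98)) (.ref 1852 25104))))) (.con 14 1)),
  (.fbd 2 1 (.ref 201 17185) (.ref 2242 106181136)),
  (.adj 4 2 (.ref 2243 5517840) (.typ 2 4 (.ref 1017 262945) (.ref 2241 5517840))),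
  (.adj 3 2 (.ref 2244 5517840) (.adj 2 4 (.ref 2244 5456400) (.con 7 5))),
  (.loc 6 (.door 6 (.con 15 1) (.typ 1 6 (.ref 1034 6562576) (.deg 1 (.ref 1042 414224) (.typ 2 6 (.deg 6 (.ref 919 354) (.ref 16 98)) (.ref 1852 25104))))) (.con 14 1)),
  (.fbd 2 1 (.ref 201 17185) (.ref 2246 106181136)),
  (.adj 4 2 (.deg 1 (.ref 192 1070130) (.ref 2247 5517840)) (.typ 2 4 (.ref 1017 262945) (.ref 2241 5517840))),
  (.adj 3 2 (.ref 2248 5517840) (.adj 2 4 (.ref 2248 5456400) (.con 7 5))),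
  (.typ 1 5 (.ref 2249 5517840) (.deg 1 (.ref 336 5408) (.ref 2245 5517840))),
  (.typ 4 3 (.ref 1376 274960) (.ref 2250 5517840)),
  (.prm 1 (.ref 2251 5517840)),
  (.deg 3 (.con 2 0) (.loc 4 (.ref 1979 213520) (.door 2 (.con 17 7) (.deg 4 (.con 2 0) (.adj 1 3 (.adj 1 4 (.adj 1 2 (.ref 64 5170) (.deg 2 (.ref 759 2) (.typ 1 2 (.ref 237 258) (.deg 2 (.adj 3 4 (.ref 1057 147760) (.ref 2252 274960)) (.ref 1834 528))))) (.ref 1006 20)) (.ref 1006 19)))))),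
  (.loc 3 (.ref 1979 274960) (.ref 2253 274960)),
  (.loc 3 (.ref 2254 271120) (.loc 4 (.ref 2254 205840) (.con 17 3)))]

theorem tc2233 : J.chkL tL tr2233 2233 = true := by decide +kernel

/-- Trees. -/
noncomputable def tr2256 : List J.Tr := [
  (.loc 2 (.ref 2254 274960) (.ref 2255 274960)),
  (.door 0 (.con 3 0) (.door 2 (.ref 2256 274720) (.deg 2 (.ref 759 2) (.ref 1018 213280)))),
  (.loc 2 (.ref 2257 213520) (.loc 4 (.ref 2257 205840) (.door 0 (.con 14 0) (.deg 2 (.con 2 0) (.ref 191 17185))))),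
  (.typ 3 5 (.ref 2258 214273) (.deg 5 (.ref 917 849) (.ref 36 1070130))),
  (.typ 5 1 (.ref 1019 344848) (.ref 2259 5517840)),
  (.fbd 1 3 (.fbd 1 4 (.fbd 1 5 (.adj 3 5 (.ref 1287 148225) (.ref 2260 5517840)) (.con 0 1)) (.con 0 1)) (.con 0 1)),
  (.fbd 4 1 (.ref 1287 144385) (.ref 2261 5517840)),
  (.adj 4 3 (.deg 1 (.ref 2262 274960) (.ref 1813 16675)) (.typ 3 4 (.ref 40 17185) (.ref 1899 274960))),
  (.loc 4 (.deg 4 (.ref 2239 204865) (.ref 16 65)) (.ref 16 20)),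
  (.fbd 1 3 (.fbd 1 4 (.fbd 1 5 (.typ 1 5 (.ref 2264 341008) (.ref 367 1070115)) (.con 0 1)) (.con 0 1)) (.con 0 1)),
  (.fbd 1 3 (.adj 1 5 (.ref 73 12820) (.fbd 1 4 (.fbd 1 5 (.typ 1 5 (.ref 1017 340496) (.typ 3 5 (.ref 2257 283393) (.ref 216 201285))) (.con 0 1)) (.con 0 1))) (.con 0 3)),
  (.fbd 2 3 (.ref 146 4675) (.ref 2266 5517840)),
  (.loc 3 (.ref 2257 271120) (.door 0 (.con 14 0) (.deg 2 (.con 2 0) (.deg 3 (.con 2 0) (.ref 363 17185))))),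
  (.loc 2 (.ref 2257 274960) (.ref 2268 274960)),
  (.typ 3 4 (.ref 2269 148225) (.deg 4 (.ref 917 833) (.ref 212 74500))),
  (.typ 4 1 (.deg 4 (.ref 2239 204865) (.ref 16 65)) (.ref 2270 274960)),
  (.loc 6 (.door 6 (.con 5 0) (.adj 1 6 (.fbd 1 4 (.fbd 4 5 (.fbd 4 6 (.typ 4 6 (.adj 5 6 (.ref 1363 86116) (.ref 2271 414016)) (.ref 1358 414016)) (.con 0 4)) (.con 0 4)) (.con 0 4)) (.con 7 18))) (.con 5 0)),
  (.fbd 4 3 (.ref 1381 5517840) (.ref 2272 106181136)),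
  (.fbd 2 3 (.fbd 2 4 (.loc 4 (.door 4 (.con 15 3) (.typ 3 4 (.ref 2179 274720) (.ref 1022 270385))) (.ref 1006 52)) (.con 0 2)) (.con 0 2)),
  (.fbd 5 4 (.ref 223 344370) (.ref 2274 414736)),
  (.fbd 5 1 (.ref 2275 5517840) (.ref 2274 414016)),
  (.fbd 4 1 (.ref 2276 5517840) (.con 7 18)),
  (.adj 3 4 (.fbd 1 2 (.fbd 1 3 (.fbd 1 4 (.typ 1 4 (.loc 4 (.deg 4 (.ref 2239 204865) (.ref 16 65)) (.ref 148 20)) (.ref 1385 148225)) (.con 0 1)) (.con 0 1)) (.con 0 1)) (.con 3 3))]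

theorem tc2256 : J.chkL tL tr2256 2256 = true := by decide +kernel

/-- Trees. -/
noncomputable def tr2279 : List J.Tr := [
  (.exp 1 (.ref 2278 274960)),
  (.door 5 (.deg 5 (.ref 2279 21520) (.ref 2277 5517840)) (.deg 5 (.ref 759 21) (.ref 2197 21520))),
  (.loc 5 (.ref 2280 5517840) (.ref 2273 5517840)),
  (.typ 5 1 (.loc 5 (.ref 1034 5456400) (.ref 125 1345)) (.ref 2281 5517840)),
  (.typ 5 4 (.loc 5 (.ref 1034 5444160) (.ref 16 69)) (.ref 2282 5517840)),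
  (.fbd 4 1 (.ref 201 12865) (.ref 2283 5517840)),
  (.adj 3 4 (.deg 1 (.ref 2284 274960) (.ref 1867 4900)) (.typ 3 4 (.ref 1018 205120) (.ref 1379 274960))),
  (.adj 4 2 (.ref 2285 274960) (.adj 3 4 (.ref 2285 271120) (.con 7 17))),
  (.typ 5 6 (.ref 2269 222466) (.deg 6 (.ref 917 1378) (.ref 194 33968961))),
  (.typ 6 2 (.deg 6 (.ref 2239 340066) (.ref 16 98)) (.ref 2287 106181136)),
  (.loc 6 (.fbd 2 5 (.fbd 2 6 (.ref 2288 106181136) (.con 0 2)) (.con 0 2)) (.con 5 0)),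
  (.adj 5 6 (.ref 1385 222466) (.adj 3 6 (.ref 2289 106181136) (.deg 6 (.con 7 68) (.typ 3 6 (.ref 1018 217186) (.ref 10 144976))))),
  (.typ 6 2 (.deg 6 (.ref 2239 340066) (.ref 16 98)) (.ref 2290 106181136)),
  (.loc 6 (.fbd 2 3 (.fbd 2 5 (.fbd 2 6 (.ref 2291 106181136) (.con 0 2)) (.con 0 2)) (.con 0 2)) (.con 5 0)),
  (.exp 2 (.ref 2292 106181136)),
  (.loc 5 (.door 5 (.ref 1006 83) (.ref 108 21280)) (.ref 2293 5517840)),
  (.typ 2 5 (.ref 937 21280) (.typ 3 5 (.ref 1270 341024) (.ref 2294 5517840))),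
  (.fbd 3 2 (.ref 2271 82690) (.ref 2295 5517840)),
  (.adj 4 2 (.ref 2296 274960) (.typ 2 4 (.ref 1018 274720) (.ref 10 17185))),
  (.adj 4 2 (.deg 1 (.ref 2297 213280) (.ref 1806 17185)) (.typ 2 4 (.ref 1018 274720) (.ref 10 17185))),
  (.deg 2 (.ref 2297 274960) (.ref 2298 274960)),
  (.loc 5 (.fbd 1 4 (.fbd 1 5 (.ref 2271 344848) (.con 0 1)) (.con 0 1)) (.con 5 0)),
  (.fbd 5 1 (.ref 170 344865) (.ref 2300 6636304)),
  (.fbd 4 1 (.ref 2301 5517840) (.ref 1386 106181136)),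
  (.typ 1 5 (.ref 1039 5509680) (.typ 4 5 (.ref 1037 21520) (.ref 2302 5517840))),
  (.adj 1 5 (.ref 1387 5517840) (.ref 2303 5517840)),
  (.adj 4 5 (.ref 1388 5517840) (.ref 2304 5517840)),
  (.typ 2 5 (.ref 1039 5448000) (.typ 3 5 (.ref 1037 21280) (.loc 5 (.ref 1035 5448000) (.ref 2305 5517840)))),
  (.fbd 3 2 (.ref 146 4930) (.ref 2306 5517840)),
  (.adj 4 2 (.deg 1 (.ref 2307 274960) (.ref 1873 1025)) (.typ 2 4 (.ref 1018 274720) (.ref 108 9217))),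
  (.adj 3 4 (.deg 2 (.ref 2308 274960) (.ref 1873 770)) (.typ 3 4 (.ref 1027 144385) (.ref 2299 274960)))]

theorem tc2279 : J.chkL tL tr2279 2279 = true := by decide +kernel

/-- Trees. -/
noncomputable def tr2310 : List J.Tr := [
  (.fbd 3 2 (.ref 2197 17154) (.ref 1389 5517840)),
  (.typ 3 4 (.ref 1018 270640) (.loc 4 (.deg 4 (.con 7 17) (.door 4 (.ref 2256 205120) (.deg 4 (.ref 2310 274960) (.ref 1867 17185)))) (.ref 1901 274720))),
  (.fbd 5 3 (.ref 57 341010) (.ref 2274 414496)),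
  (.fbd 5 2 (.ref 2312 5517840) (.ref 2274 414256)),
  (.fbd 3 2 (.ref 2313 5517840) (.con 7 12)),
  (.door 5 (.deg 5 (.ref 2279 21520) (.ref 2314 5456160)) (.deg 5 (.ref 759 21) (.ref 2197 21520))),
  (.loc 5 (.ref 2315 5517840) (.ref 1392 5456160)),
  (.typ 5 1 (.loc 5 (.ref 1034 5456400) (.ref 125 1345)) (.ref 2316 5517840)),
  (.typ 5 4 (.loc 5 (.ref 1034 5444160) (.ref 16 69)) (.ref 2317 5517840)),
  (.fbd 3 2 (.ref 291 4930) (.ref 2318 5444640)),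
  (.fbd 4 1 (.ref 291 9265) (.ref 2318 5517840)),
  (.door 4 (.ref 2256 205120) (.deg 1 (.deg 4 (.ref 759 4) (.deg 4 (.ref 2320 274960) (.ref 1867 17185))) (.ref 1867 4900))),
  (.loc 4 (.ref 2321 274960) (.ref 2319 274960)),
  (.adj 4 3 (.deg 2 (.ref 2322 274960) (.ref 1867 9235)) (.ref 2311 274960)),
  (.typ 2 4 (.ref 1018 274720) (.loc 4 (.deg 4 (.con 7 17) (.door 4 (.ref 2256 205120) (.deg 4 (.adj 3 4 (.ref 2323 147760) (.con 7 17)) (.ref 1867 17185)))) (.ref 108 9217))),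
  (.adj 4 2 (.deg 3 (.ref 2323 274960) (.ref 1867 13330)) (.ref 2324 274960)),
  (.door 3 (.ref 2256 270640) (.deg 3 (.ref 759 3) (.ref 2325 274960))),
  (.door 4 (.ref 2256 205120) (.adj 2 4 (.ref 2326 213280) (.deg 4 (.con 7 17) (.typ 2 4 (.ref 1018 274720) (.deg 4 (.adj 3 4 (.deg 2 (.ref 2310 147760) (.ref 1873 770)) (.con 7 17)) (.ref 1867 17185)))))),
  (.loc 4 (.ref 2327 274960) (.ref 2309 274960)),
  (.loc 3 (.ref 2326 274960) (.ref 2328 274960)),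
  (.door 0 (.con 3 0) (.door 2 (.ref 2256 274720) (.deg 2 (.ref 759 2) (.ref 2329 274960)))),
  (.loc 3 (.ref 2330 271120) (.door 0 (.con 14 0) (.deg 2 (.con 2 0) (.deg 3 (.con 2 0) (.loc 4 (.door 4 (.ref 2256 205120) (.deg 4 (.ref 759 4) (.deg 4 (.ref 2286 274960) (.ref 1867 17185)))) (.ref 275 17185)))))),
  (.loc 2 (.ref 2330 274960) (.ref 2331 274960)),
  (.typ 3 2 (.ref 2269 274960) (.ref 2332 274960)),
  (.adj 2 3 (.ref 1385 274960) (.ref 2333 274960)),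
  (.typ 1 4 (.ref 1018 274960) (.ref 2334 274960)),
  (.door 2 (.ref 2256 274720) (.deg 2 (.ref 759 2) (.ref 2335 213280)))]

theorem tc2310 : J.chkL tL tr2310 2310 = true := by decide +kernel

/-- Trees. -/
noncomputable def tr2337 : List J.Tr := [
  (.deg 3 (.adj 3 4 (.loc 4 (.ref 2336 201760) (.deg 1 (.ref 2267 274960) (.ref 1873 1025))) (.con 7 9)) (.ref 1873 515)),
  (.loc 2 (.ref 2336 274960) (.ref 2337 274960)),
  (.door 0 (.con 3 0) (.deg 3 (.con 7 9) (.door 3 (.ref 2256 270640) (.ref 2338 274960)))),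
  (.typ 3 4 (.ref 2257 148225) (.adj 2 4 (.ref 2339 144385) (.typ 2 4 (.ref 181 74800) (.loc 4 (.ref 372 73780) (.ref 121 66115))))),
  (.typ 4 1 (.ref 2264 274960) (.ref 2340 274960)),
  (.fbd 1 2 (.fbd 1 3 (.fbd 1 4 (.ref 2341 274960) (.con 0 1)) (.con 0 1)) (.con 0 1)),
  (.fbd 3 1 (.ref 2342 144385) (.ref 2265 5517840)),
  (.typ 3 4 (.ref 1018 270640) (.deg 1 (.ref 2343 274960) (.ref 361 12865))),
  (.fbd 1 3 (.fbd 1 4 (.fbd 1 5 (.adj 3 5 (.ref 1024 262675) (.typ 1 5 (.ref 2264 341008) (.typ 3 5 (.ref 2258 214273) (.ref 195 1070130)))) (.con 0 1)) (.con 0 1)) (.con 0 1)),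
  (.fbd 1 4 (.ref 1024 197140) (.ref 2345 5517840)),
  (.adj 3 4 (.deg 1 (.ref 2346 274960) (.ref 1813 12580)) (.ref 2344 274960)),
  (.loc 5 (.fbd 1 3 (.fbd 1 4 (.fbd 1 5 (.typ 1 5 (.deg 5 (.ref 2239 274513) (.ref 16 81)) (.ref 2336 214273)) (.con 0 1)) (.con 0 1)) (.con 0 1)) (.con 5 0)),
  (.fbd 4 1 (.ref 47 17185) (.ref 2348 5517840)),
  (.deg 1 (.ref 2349 274960) (.ref 1393 274960)),
  (.deg 3 (.ref 2350 274960) (.ref 142 17185)),
  (.adj 4 3 (.deg 1 (.ref 1395 274960) (.ref 1873 1025)) (.ref 2351 274960)),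
  (.fbd 1 4 (.ref 121 4900) (.ref 2342 344848)),
  (.deg 1 (.ref 2353 274960) (.deg 4 (.ref 2353 78400) (.ref 1839 17185))),
  (.door 4 (.ref 2256 205120) (.adj 3 4 (.ref 2336 201760) (.deg 4 (.con 7 17) (.typ 3 4 (.ref 1018 205120) (.ref 2354 274960))))),
  (.loc 4 (.ref 2355 274960) (.ref 2352 274960)),
  (.door 0 (.ref 1006 3) (.loc 2 (.ref 2336 274960) (.deg 2 (.con 2 0) (.ref 2356 274960)))),
  (.loc 3 (.ref 2339 274960) (.ref 2357 274960)),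
  (.typ 3 2 (.loc 2 (.ref 2257 274960) (.ref 1353 205120)) (.ref 2358 274960)),
  (.fbd 1 3 (.fbd 1 4 (.fbd 1 5 (.typ 1 5 (.ref 2264 344848) (.adj 3 5 (.ref 2359 214273) (.typ 3 5 (.ref 2258 214273) (.ref 195 1070130)))) (.con 0 1)) (.con 0 1)) (.con 0 1)),
  (.fbd 3 1 (.ref 254 17185) (.ref 2360 5456400)),
  (.typ 3 4 (.ref 1018 270640) (.deg 1 (.ref 2361 274960) (.ref 361 16945)))]

theorem tc2337 : J.chkL tL tr2337 2337 = true := by decide +kernel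

/-- Trees. -/
noncomputable def tr2363 : List J.Tr := [
  (.fbd 1 4 (.ref 1024 197140) (.ref 2360 5517840)),
  (.deg 1 (.ref 2363 274960) (.deg 3 (.ref 2363 136240) (.ref 1813 9025))),
  (.adj 4 3 (.ref 2364 274960) (.ref 2362 274960)),
  (.deg 4 (.con 7 17) (.door 4 (.ref 2256 205120) (.ref 2365 274960))),
  (.loc 4 (.ref 2366 274960) (.ref 2347 274960)),
  (.deg 3 (.con 7 9) (.door 3 (.ref 2256 270640) (.ref 2367 274960))),
  (.loc 3 (.ref 2368 274960) (.loc 4 (.ref 2368 213520) (.ref 2263 274960))),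
  (.door 0 (.con 3 0) (.deg 2 (.con 7 5) (.door 2 (.ref 2256 274720) (.ref 2369 274960)))),
  (.door 4 (.ref 2256 205120) (.adj 3 4 (.ref 2370 136240) (.typ 3 4 (.ref 1018 270640) (.ref 27 16690)))),
  (.adj 3 4 (.ref 2371 136000) (.typ 3 4 (.ref 40 17185) (.ref 1898 274960))),
  (.deg 2 (.ref 1396 147760) (.ref 1821 17170)),
  (.deg 1 (.ref 2373 274960) (.ref 1821 17185)),
  (.typ 2 6 (.ref 125 598) (.deg 6 (.ref 1851 406817) (.ref 1816 1463344))),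
  (.deg 3 (.ref 1831 1393440) (.ref 9 1058100)),
  (.adj 6 2 (.ref 2376 6636304) (.ref 2375 106181136)),
  (.loc 6 (.door 6 (.con 5 0) (.fbd 1 3 (.fbd 1 4 (.fbd 1 5 (.fbd 0 6 (.adj 4 5 (.ref 1397 6566416) (.typ 4 5 (.ref 125 1045) (.adj 5 6 (.ref 108 1045) (.deg 6 (.ref 910 21270) (.typ 1 6 (.ref 30 22) (.typ 3 6 (.ref 125 790) (.typ 5 6 (.ref 16 101) (.deg 5 (.ref 262 84960306) (.ref 2377 106181136))))))))) (.con 0 0)) (.con 0 1)) (.con 0 1)) (.con 0 1))) (.con 5 0)),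
  (.fbd 3 1 (.ref 306 17185) (.ref 2378 106181136)),
  (.typ 3 5 (.ref 125 789) (.adj 4 5 (.ref 2379 5456400) (.typ 4 5 (.ref 125 1045) (.ref 1833 344865)))),
  (.adj 3 5 (.ref 2379 5517840) (.ref 2380 5517840)),
  (.deg 5 (.ref 759 21) (.typ 2 5 (.ref 16 82) (.ref 2381 5517840))),
  (.adj 4 5 (.ref 1397 6566416) (.typ 4 5 (.ref 1805 21537) (.ref 919 1105))),
  (.loc 6 (.door 6 (.con 5 0) (.fbd 1 3 (.fbd 1 4 (.ref 2383 106181136) (.con 0 1)) (.con 0 1))) (.con 5 0)),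
  (.fbd 3 1 (.ref 306 17185) (.ref 2384 106181136)),
  (.adj 3 5 (.ref 2385 5517840) (.ref 2385 5456400)),
  (.deg 5 (.typ 2 5 (.ref 2386 5517840) (.ref 759 37)) (.ref 30 21)),
  (.typ 1 5 (.ref 2387 5517840) (.ref 2382 5517840)),
  (.loc 5 (.door 5 (.con 5 0) (.ref 2388 5517840)) (.con 5 0)),
  (.fbd 2 1 (.ref 156 17185) (.ref 2389 5517840)),
  (.deg 1 (.ref 2390 274960) (.ref 366 17185))]

theorem tc2363 : J.chkL tL tr2363 2363 = true := by decide +kernel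

end Pool.Agent.Lib.MP_efe3d7_co.D
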