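import Pool.Agent.Lib.MP_efe3d7_co.D.Tab

/-! Case trees. -/

set_option autoImplicit false

namespace Pool.Agent.Lib.MP_efe3d7_co.D

open H

/-- Trees. -/
noncomputable def tr2392 : List J.Tr := [
  (.loc 5 (.fbd 1 4 (.fbd 1 5 (.typ 1 5 (.deg 5 (.ref 2239 274513) (.ref 16 81)) (.ref 2359 214273)) (.con 0 1)) (.con 0 1)) (.con 5 0)),
  (.fbd 4 1 (.ref 333 9265) (.ref 2392 5517840)),
  (.loc 5 (.fbd 1 3 (.fbd 1 4 (.fbd 1 5 (.adj 4 5 (.ref 2393 213520) (.typ 1 5 (.ref 1019 344848) (.typ 3 5 (.ref 2258 214273) (.typ 4 5 (.ref 2258 275713) (.ref 2370 275713))))) (.con 0 1)) (.con 0 1)) (.con 0 1)) (.con 5 0)),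
  (.fbd 3 1 (.ref 2393 274960) (.ref 2394 5517840)),
  (.deg 1 (.ref 2395 274960) (.ref 2391 274960)),
  (.deg 3 (.deg 4 (.con 17 3) (.ref 1869 17185)) (.ref 1869 13345)),
  (.adj 4 3 (.deg 1 (.ref 2262 274960) (.ref 2397 274960)) (.typ 3 4 (.ref 249 9264) (.ref 2396 274960))),
  (.fbd 1 3 (.fbd 1 4 (.fbd 1 5 (.typ 1 5 (.ref 2264 341008) (.typ 3 5 (.ref 2258 214273) (.adj 4 5 (.ref 2359 275713) (.typ 4 5 (.ref 2258 275713) (.ref 131 1069890))))) (.con 0 1)) (.con 0 1)) (.con 0 1)),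
  (.fbd 3 1 (.ref 2342 144385) (.ref 2399 5517840)),
  (.deg 1 (.ref 2400 274960) (.ref 1849 17185)),
  (.fbd 1 3 (.ref 1355 262675) (.ref 2399 5517840)),
  (.deg 1 (.ref 2402 274960) (.deg 3 (.ref 2402 136240) (.ref 1851 17185))),
  (.adj 3 4 (.ref 2403 274960) (.typ 3 4 (.ref 1018 270640) (.ref 2401 274960))),
  (.loc 4 (.ref 2371 274960) (.ref 2404 274960)),
  (.door 0 (.con 3 0) (.door 3 (.ref 2256 270640) (.ref 2405 274960))),
  (.door 0 (.con 14 0) (.deg 2 (.con 2 0) (.loc 4 (.ref 2406 213520) (.ref 2398 274960)))),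
  (.loc 3 (.ref 2406 274960) (.ref 2407 274960)),
  (.deg 3 (.ref 917 560) (.deg 4 (.ref 917 576) (.ref 2408 274960))),
  (.loc 2 (.ref 2370 274960) (.ref 2409 274960)),
  (.typ 4 2 (.ref 2258 274960) (.typ 2 3 (.ref 2258 213520) (.ref 2410 274960))),
  (.adj 4 2 (.adj 2 3 (.ref 1384 213520) (.ref 2359 274960)) (.adj 2 3 (.ref 2359 213520) (.ref 2411 274960))),
  (.typ 1 3 (.ref 1018 213520) (.adj 1 4 (.ref 2335 213520) (.typ 1 4 (.ref 1018 274960) (.ref 2412 274960)))),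
  (.adj 1 3 (.adj 1 4 (.ref 357 1) (.ref 2335 274960)) (.ref 2413 274960)),
  (.deg 3 (.con 7 9) (.door 3 (.ref 2256 270640) (.adj 3 4 (.ref 2414 136240) (.typ 3 4 (.ref 2257 148240) (.loc 4 (.door 4 (.ref 2256 205120) (.ref 2374 274960)) (.ref 1821 12820)))))),
  (.loc 3 (.ref 2415 274960) (.ref 2372 274960)),
  (.door 2 (.ref 2256 274720) (.deg 2 (.ref 759 2) (.adj 2 3 (.ref 2414 267040) (.typ 2 3 (.ref 2257 274960) (.adj 2 4 (.ref 2414 201760) (.deg 2 (.con 7 5) (.typ 2 4 (.ref 2257 213520) (.ref 2416 274960))))))))]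

theorem tc2392 : J.chkL tL tr2392 2392 = true := by decide +kernel

/-- Trees. -/
noncomputable def tr2418 : List J.Tr := [
  (.loc 3 (.ref 2417 271120) (.loc 4 (.ref 2417 205840) (.ref 1897 274960))),
  (.loc 2 (.ref 2417 274960) (.ref 2418 274960)),
  (.typ 1 2 (.ref 1018 148240) (.adj 1 3 (.ref 2414 271120) (.typ 1 3 (.ref 1018 213520) (.adj 1 4 (.ref 2414 205840) (.door 0 (.con 3 0) (.deg 1 (.con 7 3) (.typ 1 4 (.ref 1018 274960) (.ref 2419 274960)))))))),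
  (.adj 1 2 (.ref 2414 274960) (.ref 2420 274960)),
  (.door 1 (.door 0 (.con 15 0) (.ref 2256 274960)) (.deg 1 (.ref 759 1) (.ref 2421 274960))),
  (.loc 2 (.ref 2422 274720) (.loc 3 (.ref 2422 270640) (.loc 4 (.ref 2422 205120) (.con 5 0)))),
  (.loc 1 (.ref 2422 274960) (.ref 2423 274960)),
  (.typ 0 4 (.deg 4 (.ref 2239 205120) (.ref 16 4)) (.ref 2424 274960)),
  (.typ 0 3 (.deg 3 (.ref 2239 270640) (.ref 16 3)) (.ref 2425 274960)),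
  (.typ 0 2 (.deg 2 (.ref 2239 274720) (.ref 16 2)) (.ref 2426 274960)),
  (.typ 0 1 (.deg 1 (.ref 2239 274960) (.ref 16 1)) (.ref 2427 274960)),
  (.fbd 0 1 (.fbd 0 2 (.fbd 0 3 (.fbd 0 4 (.ref 2428 274960) (.con 0 0)) (.con 0 0)) (.con 0 0)) (.con 0 0)),
  (.exp 0 (.ref 2429 274960)),
  (.exp 0 (.ref 2430 12816)),
  (.exp 0 (.ref 2431 528)),
  (.exp 0 (.ref 2432 16)),
  (.ref 2433 0),
  (.loc 3 (.deg 3 (.ref 2434 3) (.ref 1872 4866)) (.ref 1871 12546)),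
  (.fbd 0 4 (.ref 1873 1027) (.loc 5 (.con 0 4) (.con 5 0))),
  (.deg 4 (.ref 2436 274960) (.ref 1810 17185)),
  (.fbd 3 4 (.ref 2437 344865) (.loc 6 (.con 0 3) (.con 5 0))),
  (.deg 3 (.ref 2438 5517840) (.deg 5 (.ref 2436 344865) (.ref 1817 344865))),
  (.deg 4 (.con 2 1) (.adj 2 4 (.ref 91 17185) (.typ 2 4 (.ref 247 17185) (.ref 1865 17185)))),
  (.adj 2 5 (.ref 1815 17185) (.deg 5 (.ref 1011 8245) (.typ 2 5 (.ref 16 82) (.typ 3 5 (.ref 30 53) (.ref 77 3490320))))),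
  (.deg 5 (.adj 2 5 (.ref 1815 17185) (.ref 1011 8245)) (.ref 30 5)),
  (.typ 0 5 (.ref 2442 5517840) (.ref 2441 5517840)),
  (.loc 5 (.door 5 (.con 5 0) (.fbd 2 3 (.ref 2443 5517840) (.con 0 3))) (.con 5 0)),
  (.fbd 3 0 (.ref 130 1072) (.ref 2444 5517840)),
  (.deg 3 (.ref 2445 274960) (.ref 49 17185)),
  (.fbd 1 3 (.ref 1860 16945) (.loc 6 (.con 0 3) (.con 5 0))),
  (.deg 3 (.ref 2447 5517840) (.ref 2446 344865)),
  (.fbd 4 3 (.ref 1873 1072) (.loc 5 (.con 0 4) (.con 5 0)))]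

theorem tc2418 : J.chkL tL tr2418 2418 = true := by decide +kernel

/-- Trees. -/
noncomputable def tr2450 : List J.Tr := [
  (.adj 5 3 (.deg 5 (.ref 2449 332340) (.ref 2448 5517840)) (.typ 3 5 (.ref 2440 340496) (.ref 2439 5517840))),
  (.deg 2 (.fbd 2 3 (.ref 1836 801) (.loc 5 (.con 0 2) (.con 5 0))) (.ref 1828 561)),
  (.adj 4 5 (.ref 2451 344864) (.typ 4 5 (.ref 374 84) (.ref 2450 5517840))),
  (.adj 3 4 (.ref 196 49) (.typ 3 4 (.ref 374 67) (.deg 4 (.fbd 0 4 (.ref 1873 1027) (.loc 5 (.con 0 4) (.con 5 0))) (.ref 1828 1073)))),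
  (.adj 4 3 (.ref 2453 344865) (.typ 3 4 (.ref 374 52) (.ref 2452 5517840))),
  (.loc 4 (.ref 1398 17168) (.ref 2440 274960)),
  (.typ 3 4 (.deg 4 (.ref 908 1043) (.adj 1 4 (.ref 154 13345) (.ref 2435 17185))) (.ref 1398 12864)),
  (.fbd 5 4 (.ref 1401 5517840) (.ref 2456 410128)),
  (.adj 5 4 (.ref 2457 5517840) (.adj 2 5 (.ref 2456 344592) (.ref 1011 8532))),
  (.fbd 2 4 (.ref 2458 5517840) (.loc 6 (.con 0 2) (.con 5 0))),
  (.deg 6 (.fbd 1 6 (.ref 1873 1557) (.loc 7 (.con 0 6) (.con 5 0))) (.ref 1828 1619)),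
  (.deg 6 (.ref 1409 106181136) (.ref 1837 287248)),
  (.loc 6 (.ref 154 17953) (.fbd 2 5 (.adj 2 6 (.ref 154 17953) (.typ 2 6 (.ref 187 17953) (.ref 2461 106181136))) (.loc 7 (.con 0 2) (.con 5 0)))),
  (.adj 6 1 (.ref 2462 106181136) (.ref 2435 25633)),
  (.typ 4 6 (.deg 6 (.ref 908 1556) (.ref 2463 106181136)) (.ref 759 100)),
  (.exp 4 (.ref 2464 106181136)),
  (.loc 5 (.door 5 (.con 6 3) (.deg 5 (.adj 4 5 (.typ 3 5 (.ref 2465 5517840) (.ref 759 53)) (.con 7 48)) (.ref 30 21))) (.ref 148 21)),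
  (.loc 6 (.con 0 3) (.fbd 1 3 (.fbd 3 5 (.adj 1 6 (.ref 1860 21041) (.typ 1 6 (.ref 2466 6566416) (.typ 3 6 (.ref 2455 406032) (.typ 5 6 (.ref 374 101) (.ref 2460 106181136))))) (.loc 7 (.con 0 3) (.con 5 0))) (.loc 7 (.con 0 3) (.con 5 0)))),
  (.fbd 5 3 (.ref 196 83) (.ref 2467 106181136)),
  (.door 5 (.con 6 3) (.deg 5 (.ref 759 21) (.deg 5 (.ref 2434 5) (.ref 2468 5517840)))),
  (.loc 5 (.ref 2469 5517840) (.ref 2459 5517840)),
  (.typ 5 3 (.ref 2455 340496) (.ref 2470 5517840)),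
  (.typ 1 5 (.ref 2466 5517840) (.ref 2471 5517840)),
  (.fbd 3 1 (.ref 315 561) (.ref 2472 5517840)),
  (.deg 3 (.ref 2473 274960) (.ref 1837 12820)),
  (.loc 4 (.door 4 (.con 6 2) (.deg 4 (.adj 3 4 (.typ 2 4 (.ref 2474 274960) (.ref 759 36)) (.con 7 17)) (.ref 30 20))) (.ref 148 20))]

theorem tc2450 : J.chkL tL tr2450 2450 = true := by decide +kernel

/-- Trees. -/
noncomputable def tr2476 : List J.Tr := [
  (.loc 5 (.con 0 2) (.fbd 2 4 (.typ 1 5 (.ref 2475 340496) (.typ 2 5 (.ref 2455 336656) (.ref 2454 5517840))) (.loc 6 (.con 0 2) (.con 5 0)))),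
  (.fbd 2 1 (.ref 1860 17185) (.ref 2476 5517840)),
  (.door 4 (.con 6 2) (.deg 4 (.ref 759 20) (.deg 4 (.ref 2434 4) (.ref 2477 274960)))),
  (.loc 5 (.typ 1 5 (.ref 2475 340496) (.typ 2 5 (.ref 2455 336656) (.ref 2478 340496))) (.con 5 0)),
  (.fbd 2 1 (.ref 1866 17185) (.ref 2479 5517840)),
  (.deg 4 (.deg 5 (.ref 759 21) (.deg 5 (.ref 2434 5) (.ref 2436 283425))) (.ref 2480 274960)),
  (.deg 4 (.ref 1412 344865) (.ref 2480 274960)),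
  (.deg 5 (.adj 3 5 (.typ 4 5 (.ref 2482 5517840) (.ref 919 1105)) (.ref 1011 12613)) (.ref 30 21)),
  (.typ 1 5 (.ref 2483 5517840) (.ref 2481 5517840)),
  (.loc 5 (.door 5 (.con 5 0) (.adj 2 5 (.ref 2484 5517840) (.ref 2479 5517840))) (.con 5 0)),
  (.fbd 1 4 (.ref 196 20) (.ref 2485 5517840)),
  (.fbd 2 1 (.ref 320 16945) (.ref 2479 5517840)),
  (.deg 5 (.ref 759 21) (.adj 2 5 (.ref 2449 283185) (.typ 2 5 (.ref 2455 336656) (.ref 2478 340496)))),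
  (.fbd 1 3 (.typ 1 3 (.ref 2435 8976) (.ref 196 49)) (.con 0 3)),
  (.adj 4 2 (.ref 1414 274960) (.ref 2489 17184)),
  (.adj 2 5 (.typ 4 5 (.deg 5 (.ref 2490 344865) (.ref 204 1045)) (.ref 225 1300)) (.ref 2475 340496)),
  (.typ 1 5 (.ref 2491 5517840) (.ref 2488 5517840)),
  (.loc 5 (.door 5 (.con 6 4) (.fbd 1 4 (.fbd 4 5 (.ref 2492 5517840) (.loc 6 (.con 0 4) (.con 5 0))) (.loc 6 (.con 0 4) (.con 5 0)))) (.con 5 0)),
  (.fbd 1 4 (.ref 196 20) (.ref 2493 5517840)),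
  (.deg 4 (.ref 2494 274960) (.ref 2487 274960)),
  (.adj 4 3 (.ref 2495 274960) (.typ 3 4 (.ref 2440 274960) (.ref 2486 274960))),
  (.loc 4 (.ref 2478 274960) (.deg 4 (.con 2 1) (.ref 2496 274960))),
  (.typ 1 4 (.ref 2475 274960) (.typ 2 4 (.ref 2455 271120) (.ref 2497 274960))),
  (.fbd 2 1 (.ref 315 801) (.ref 2498 274960)),
  (.door 1 (.con 17 3) (.ref 2499 12816)),
  (.adj 1 3 (.adj 2 3 (.ref 154 801) (.typ 2 3 (.ref 187 801) (.deg 2 (.ref 2500 12816) (.deg 3 (.ref 2500 8976) (.ref 1812 801))))) (.ref 2435 12321)),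
  (.adj 2 1 (.ref 2501 12816) (.adj 1 3 (.ref 2501 8976) (.ref 1011 12816))),
  (.adj 3 5 (.ref 1842 1393440) (.typ 3 5 (.ref 374 53) (.ref 1841 1393440)))]

theorem tc2476 : J.chkL tL tr2476 2476 = true := by decide +kernel

/-- Trees. -/
noncomputable def tr2504 : List J.Tr := [
  (.deg 6 (.adj 2 6 (.ref 1838 344865) (.ref 1011 8518)) (.ref 30 22)),
  (.adj 2 7 (.ref 2504 105198096) (.deg 7 (.ref 1011 8519) (.typ 4 7 (.ref 125 1047) (.adj 5 7 (.ref 1416 459794) (.typ 5 7 (.ref 125 1303) (.ref 1811 30017)))))),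
  (.typ 1 7 (.ref 2504 122958352) (.ref 2505 1985229328)),
  (.loc 7 (.door 7 (.con 5 0) (.fbd 1 2 (.fbd 1 4 (.fbd 1 7 (.adj 6 7 (.ref 2506 1985229328) (.ref 1011 29974)) (.con 0 1)) (.con 0 1)) (.con 0 1))) (.con 5 0)),
  (.fbd 4 1 (.ref 1840 1105) (.ref 2507 1985229328)),
  (.deg 6 (.adj 2 6 (.adj 4 6 (.ref 2508 106181136) (.ref 1011 21526)) (.ref 1011 8534)) (.ref 30 22)),
  (.loc 7 (.door 7 (.con 5 0) (.fbd 1 5 (.adj 5 7 (.ref 1846 5716) (.typ 1 7 (.ref 2509 122958352) (.deg 7 (.ref 1011 25879) (.typ 5 7 (.ref 125 1303) (.typ 6 7 (.ref 30 103) (.deg 7 (.ref 2434 7) (.ref 2503 6771728))))))) (.con 0 1))) (.con 5 0)),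
  (.fbd 6 1 (.ref 1811 25921) (.ref 2510 1985229328)),
  (.loc 7 (.door 7 (.con 5 0) (.fbd 1 6 (.typ 1 7 (.ref 2509 121975312) (.adj 6 7 (.ref 1416 394514) (.deg 7 (.ref 1011 25623) (.typ 4 7 (.ref 125 1047) (.typ 6 7 (.ref 30 103) (.deg 7 (.ref 2434 7) (.ref 2503 7754768))))))) (.con 0 1))) (.con 5 0)),
  (.fbd 4 1 (.ref 1840 1105) (.ref 2512 1985229328)),
  (.adj 4 6 (.ref 2513 106181136) (.typ 4 6 (.ref 374 70) (.ref 2511 105198096))),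
  (.loc 7 (.door 7 (.con 5 0) (.fbd 1 5 (.typ 1 7 (.ref 2509 121975312) (.adj 5 7 (.ref 2514 106181136) (.deg 7 (.ref 1011 21527) (.ref 166 276190258)))) (.con 0 1))) (.con 5 0)),
  (.fbd 4 1 (.ref 2514 105198096) (.ref 2515 1985229328)),
  (.adj 4 6 (.ref 1846 5443) (.typ 4 6 (.ref 374 70) (.adj 5 6 (.ref 1811 21553) (.typ 5 6 (.ref 1415 1573) (.ref 2503 5653264))))),
  (.adj 3 6 (.ref 1840 833) (.typ 3 6 (.ref 374 54) (.adj 5 6 (.ref 1416 328722) (.typ 5 6 (.ref 1415 1573) (.ref 2503 6636304))))),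
  (.adj 3 6 (.ref 2518 90452496) (.typ 3 6 (.ref 1415 806) (.ref 2517 90391056))),
  (.adj 7 2 (.ref 2519 124076560) (.ref 2514 122958352)),
  (.loc 7 (.door 7 (.con 5 0) (.fbd 1 4 (.fbd 1 5 (.fbd 1 7 (.typ 1 7 (.ref 2509 122958352) (.deg 7 (.ref 759 23) (.typ 5 7 (.ref 125 1303) (.deg 7 (.ref 2434 7) (.ref 2520 1985229328))))) (.con 0 1)) (.con 0 1)) (.con 0 1))) (.con 5 0))]

theorem tc2504 : J.chkL tL tr2504 2504 = true := by decide +kernel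

/-- Trees. -/
noncomputable def tr2522 : List J.Tr := [
  (.fbd 5 1 (.ref 1840 1345) (.ref 2521 1985229328)),
  (.adj 4 6 (.ref 2522 105198096) (.typ 4 6 (.ref 374 70) (.typ 5 6 (.ref 374 86) (.ref 2516 106181136)))),
  (.adj 5 6 (.ref 2522 106181136) (.ref 2523 106181136)),
  (.typ 2 6 (.ref 1415 1554) (.deg 6 (.ref 759 22) (.deg 6 (.ref 2434 6) (.ref 2524 106181136)))),
  (.loc 7 (.door 7 (.con 5 0) (.fbd 1 4 (.fbd 1 7 (.typ 1 7 (.ref 2509 122958352) (.adj 4 7 (.ref 1840 1105) (.deg 7 (.ref 1011 21527) (.typ 4 7 (.ref 125 1047) (.typ 5 7 (.ref 125 1303) (.adj 2 7 (.adj 6 7 (.ref 1811 30017) (.typ 6 7 (.ref 264 23397490) (.ref 1415 1650))) (.ref 2511 122958352))))))) (.con 0 1)) (.con 0 1))) (.con 5 0)),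
  (.fbd 5 1 (.ref 1840 1345) (.ref 2526 1985229328)),
  (.typ 2 6 (.adj 4 6 (.adj 5 6 (.deg 6 (.ref 2527 106181136) (.ref 30 22)) (.ref 2509 106181136)) (.ref 2509 105198096)) (.ref 1415 1569)),
  (.typ 6 1 (.ref 2528 106181136) (.ref 2525 106181136)),
  (.loc 6 (.door 6 (.con 5 0) (.ref 2529 106181136)) (.con 5 0)),
  (.fbd 2 1 (.ref 1838 344865) (.ref 2530 106181136)),
  (.deg 1 (.ref 2531 5517840) (.ref 1825 344865)),
  (.loc 5 (.con 0 3) (.deg 5 (.con 2 1) (.fbd 1 3 (.fbd 2 3 (.typ 1 5 (.ref 374 81) (.adj 2 5 (.ref 1809 17185) (.typ 2 5 (.ref 1415 1298) (.typ 3 5 (.ref 1835 21281) (.deg 5 (.ref 43 21281) (.adj 4 5 (.ref 76 344865) (.typ 4 5 (.ref 1850 1345) (.ref 2532 5517840)))))))) (.loc 6 (.con 0 3) (.con 5 0))) (.loc 6 (.con 0 3) (.con 5 0))))),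
  (.fbd 3 1 (.ref 1856 17185) (.ref 2533 5517840)),
  (.deg 5 (.fbd 1 5 (.deg 6 (.ref 759 22) (.deg 6 (.ref 2434 6) (.ref 1873 1302))) (.loc 7 (.con 0 5) (.con 5 0))) (.ref 1856 21281)),
  (.deg 5 (.ref 1419 106181136) (.ref 1856 21281)),
  (.deg 6 (.typ 5 6 (.ref 2536 106181136) (.ref 919 1377)) (.ref 30 22)),
  (.typ 1 6 (.ref 2537 106181136) (.ref 2535 106181136)),
  (.loc 6 (.door 6 (.con 5 0) (.ref 2538 106181136)) (.con 5 0)),
  (.fbd 5 1 (.ref 182 81) (.ref 2539 106181136)),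
  (.loc 5 (.con 0 3) (.deg 5 (.con 2 1) (.fbd 1 3 (.typ 1 5 (.ref 374 81) (.typ 3 5 (.ref 1835 21281) (.ref 2540 5517840))) (.loc 6 (.con 0 3) (.con 5 0))))),
  (.fbd 3 1 (.ref 276 801) (.ref 2541 5517840)),
  (.loc 4 (.con 0 3) (.deg 4 (.con 2 2) (.adj 1 4 (.ref 2542 274960) (.typ 1 4 (.ref 374 65) (.typ 2 4 (.ref 1415 1042) (.typ 3 4 (.ref 1835 17185) (.deg 4 (.ref 43 17185) (.ref 2534 274960))))))))]

theorem tc2522 : J.chkL tL tr2522 2522 = true := by decide +kernel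

/-- Trees. -/
noncomputable def tr2544 : List J.Tr := [
  (.fbd 3 2 (.ref 987 4866) (.ref 2543 274960)),
  (.prm 1 (.typ 1 4 (.ref 1807 17185) (.ref 1819 17185))),
  (.door 2 (.con 6 3) (.door 1 (.ref 2545 12816) (.deg 1 (.ref 2434 1) (.ref 2544 12816)))),
  (.adj 2 3 (.ref 154 801) (.typ 2 3 (.ref 243 770) (.deg 3 (.ref 2546 12816) (.ref 1862 801)))),
  (.adj 3 1 (.ref 2547 12816) (.adj 2 3 (.ref 2547 12576) (.ref 1011 8496))),
  (.typ 2 4 (.deg 4 (.ref 759 20) (.ref 16 66)) (.ref 1830 17185)),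
  (.typ 2 4 (.ref 1858 17185) (.deg 4 (.ref 759 36) (.ref 30 20))),
  (.typ 4 1 (.ref 2550 274960) (.ref 2549 274960)),
  (.loc 5 (.door 5 (.con 15 2) (.ref 2551 340496)) (.con 14 2)),
  (.fbd 2 1 (.ref 276 561) (.ref 2552 5517840)),
  (.prm 1 (.typ 1 4 (.ref 1864 17185) (.ref 1843 17185))),
  (.door 1 (.ref 2554 12816) (.ref 2553 274960)),
  (.prm 2 (.ref 2555 274960)),
  (.door 2 (.door 3 (.con 15 2) (.ref 2556 12816)) (.door 3 (.ref 2556 8976) (.ref 1870 801))),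
  (.adj 2 3 (.ref 154 801) (.typ 2 3 (.ref 187 801) (.ref 2557 12816))),
  (.adj 3 1 (.ref 2558 12816) (.adj 2 3 (.ref 2558 12576) (.ref 1011 8496))),
  (.adj 2 1 (.ref 2559 12816) (.adj 1 3 (.ref 2559 8976) (.ref 1011 12816))),
  (.loc 3 (.deg 3 (.ref 2434 3) (.ref 2560 12816)) (.adj 1 2 (.ref 2548 12816) (.ref 1872 12816))),
  (.loc 3 (.deg 3 (.ref 2434 3) (.ref 2561 8976)) (.ref 2502 12816)),
  (.loc 2 (.deg 2 (.ref 2434 2) (.ref 2561 12816)) (.ref 2562 12816)),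
  (.loc 3 (.deg 3 (.ref 2434 3) (.ref 2563 8496)) (.con 17 1)),
  (.loc 2 (.deg 2 (.ref 2434 2) (.ref 2563 12576)) (.ref 2564 12816)),
  (.loc 1 (.deg 1 (.ref 2434 1) (.ref 2563 12816)) (.ref 2565 12816)),
  (.typ 0 3 (.deg 3 (.ref 908 784) (.ref 2566 12816)) (.ref 759 48)),
  (.exp 0 (.ref 2567 12816)),
  (.typ 0 2 (.deg 2 (.ref 908 528) (.ref 2568 528)) (.ref 759 32)),
  (.exp 0 (.ref 2569 528)),
  (.ref 2570 16)]

theorem tc2544 : J.chkL tL tr2544 2544 = true := by decide +kernel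

end Pool.Agent.Lib.MP_efe3d7_co.D
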