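import Pool.Agent.Lib.MP_efe3d7_co.D.Ca516

/-! Exceptional columns. -/

set_option autoImplicit false

namespace Pool.Agent.Lib.MP_efe3d7_co.D

open H

/-- A range of tables. -/
def ra516_1 : ℕ × ℕ × ℕ :=
  (232492351723552517870071938527247877728918557446305759953734443184515774022146,
   29599705292717971390129839850888383458171931140521101399029069021534307156016853741851974315118892294442889215927559567841337918666076804961266150991628988577642316290,
   57016244867669536945264006208670367336121459876096702181935024565771227819777786828317566033540488682763241433711237052772505800562743418064190494254995792331469520898134800836121561483595977466133215677894958685420812047425153278065535611941467409531991719954640718936450251604102542415289283526384024661105128700791464904857619849447416031292796449152165867717457108483333182317626811395547136206436682841466824883152451280808877994775173708042891845641908109815150315397104048696068263380171497249937716581435924433765570420822146625012310822052027192152114815033788047539233298130385928354717589390176963341345651088008621328313649404098836644241981056603101650233312742886262428684287798497024679497411669772523425800318869412405993494726367795055376938378909710958068226)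

theorem xa516_1 : J.certXR ⟨true, false, false, false, false, false⟩ ka516 ca516
    ra516_1.1 ra516_1.2.1 ra516_1.2.2 = true := by
  decide +kernel

end Pool.Agent.Lib.MP_efe3d7_co.D
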