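import Pool.Agent.Lib.MP_efe3d7_co.D.Ca516

/-! Exceptional columns. -/

set_option autoImplicit false

namespace Pool.Agent.Lib.MP_efe3d7_co.D

open H

/-- A range of tables. -/
def ra516_2 : ℕ × ℕ × ℕ :=
  (464984703447105035740143877054495755457837114892611519907468886369031548044292,
   59199410585435942780259679701776766916343862281042202798058138043068614312033707483703948630237784588885778431855119135682675837332153609922532301983257977155284632580,
   114032489735339073890528012417340734672242919752193404363870049131542455639555573656635132067080977365526482867422474105545011601125486836128380988509991584662939041796269601672243122967191954932266431355789917370841624094850306556131071223882934819063983439909281437872900503208205084830578567052768049322210257401582929809715239698894832062585592898304331735434914216966666364635253622791094272412873365682933649766304902561617755989550347416085783691283816219630300630794208097392136526760342994499875433162871848867531140841644293250024621644104054384304229630067576095078466596260771856709435178780353926682691302176017242656627298808197673288483962113206203300466625485772524857368575596994049358994823339545046851600637738824811986989452735590110753876757819421916136452)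

theorem xa516_2 : J.certXR ⟨true, false, false, false, false, false⟩ ka516 ca516
    ra516_2.1 ra516_2.2.1 ra516_2.2.2 = true := by
  decide +kernel

end Pool.Agent.Lib.MP_efe3d7_co.D
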