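import Pool.Agent.Lib.MP_efe3d7_co.D.Ca516

/-! Exceptional columns. -/

set_option autoImplicit false

namespace Pool.Agent.Lib.MP_efe3d7_co.D

open H

/-- A range of tables. -/
def ra516_3 : ℕ × ℕ × ℕ :=
  (929969406894210071480287754108991510915674229785223039814937772738063096088584,
   118398821170871885560519359403553533832687724562084405596116276086137228624067414967407897260475569177771556863710238271365351674664307219845064603966515954310569265160,
   228064979470678147781056024834681469344485839504386808727740098263084911279111147313270264134161954731052965734844948211090023202250973672256761977019983169325878083592539203344486245934383909864532862711579834741683248189700613112262142447765869638127966879818562875745801006416410169661157134105536098644420514803165859619430479397789664125171185796608663470869828433933332729270507245582188544825746731365867299532609805123235511979100694832171567382567632439260601261588416194784273053520685988999750866325743697735062281683288586500049243288208108768608459260135152190156933192521543713418870357560707853365382604352034485313254597616395346576967924226412406600933250971545049714737151193988098717989646679090093703201275477649623973978905471180221507753515638843832272904)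

theorem xa516_3 : J.certXR ⟨true, false, false, false, false, false⟩ ka516 ca516
    ra516_3.1 ra516_3.2.1 ra516_3.2.2 = true := by
  decide +kernel

end Pool.Agent.Lib.MP_efe3d7_co.D
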