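import Pool.Agent.Lib.MP_efe3d7_co.D.Ca516

/-! Exceptional columns. -/

set_option autoImplicit false

namespace Pool.Agent.Lib.MP_efe3d7_co.D

open H

/-- A range of tables. -/
def ra516_4 : ℕ × ℕ × ℕ :=
  (7265385991361016183439748078976496179028704920197054998554201349516117938192,
   924990790397436605941557495340261983067872848141284418719658406922947098625526679432874197347465384201340287997736236495041809958314900155039567218488405893051322384,
   456129958941356295562112049669362938688971679008773617455480196526169822558222294626540528268323909462105931469689896422180046404501947344513523954039966338651756167185078406688972491868767819729065725423159669483366496379401226224524284895531739276255933759637125751491602012832820339322314268211072197288841029606331719238860958795579328250342371593217326941739656867866665458541014491164377089651493462731734599065219610246471023958201389664343134765135264878521202523176832389568546107041371977999501732651487395470124563366577173000098486576416217537216918520270304380313866385043087426837740715121415706730765208704068970626509195232790693153935848452824813201866501943090099429474302387976197435979293358180187406402550955299247947957810942360443015507031277687664545808)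

theorem xa516_4 : J.certXR ⟨true, false, false, false, false, false⟩ ka516 ca516
    ra516_4.1 ra516_4.2.1 ra516_4.2.2 = true := by
  decide +kernel

end Pool.Agent.Lib.MP_efe3d7_co.D
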