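import Pool.Agent.Lib.MP_efe3d7_co.D.Ca516

/-! Exceptional columns. -/

set_option autoImplicit false

namespace Pool.Agent.Lib.MP_efe3d7_co.D

open H

/-- A range of tables. -/
def ra516_5 : ℕ × ℕ × ℕ :=
  (14530771982722032366879496157952992358057409840394109997108402699032235876384,
   1849981580794873211883114990680523966135745696282568837439316813845894197251053358865748394694930768402680575995472472990083619916629800310079134436976811786102644768,
   912259917882712591124224099338725877377943358017547234910960393052339645116444589253081056536647818924211862939379792844360092809003894689027047908079932677303512334370156813377944983737535639458131450846319338966732992758802452449048569791063478552511867519274251502983204025665640678644628536422144394577682059212663438477721917591158656500684743186434653883479313735733330917082028982328754179302986925463469198130439220492942047916402779328686269530270529757042405046353664779137092214082743955999003465302974790940249126733154346000196973152832435074433837040540608760627732770086174853675481430242831413461530417408137941253018390465581386307871696905649626403733003886180198858948604775952394871958586716360374812805101910598495895915621884720886031014062555375329091616)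

theorem xa516_5 : J.certXR ⟨true, false, false, false, false, false⟩ ka516 ca516
    ra516_5.1 ra516_5.2.1 ra516_5.2.2 = true := by
  decide +kernel

end Pool.Agent.Lib.MP_efe3d7_co.D
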