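import Pool.Agent.Lib.MP_efe3d7_co.D.Ca516

/-! Exceptional columns. -/

set_option autoImplicit false

namespace Pool.Agent.Lib.MP_efe3d7_co.D

open H

/-- A range of tables. -/
def ra516_6 : ℕ × ℕ × ℕ :=
  (29061543965444064733758992315905984716114819680788219994216805398064471752768,
   3699963161589746423766229981361047932271491392565137674878633627691788394502106717731496789389861536805361151990944945980167239833259600620158268873953623572205289536,
   1824519835765425182248448198677451754755886716035094469821920786104679290232889178506162113073295637848423725878759585688720185618007789378054095816159865354607024668740313626755889967475071278916262901692638677933465985517604904898097139582126957105023735038548503005966408051331281357289257072844288789155364118425326876955443835182317313001369486372869307766958627471466661834164057964657508358605973850926938396260878440985884095832805558657372539060541059514084810092707329558274184428165487911998006930605949581880498253466308692000393946305664870148867674081081217521255465540172349707350962860485662826923060834816275882506036780931162772615743393811299252807466007772360397717897209551904789743917173432720749625610203821196991791831243769441772062028125110750658183232)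

theorem xa516_6 : J.certXR ⟨true, false, false, false, false, false⟩ ka516 ca516
    ra516_6.1 ra516_6.2.1 ra516_6.2.2 = true := by
  decide +kernel

end Pool.Agent.Lib.MP_efe3d7_co.D
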