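import Pool.Agent.Lib.MP_efe3d7_co.D.Ca516

/-! Exceptional columns. -/

set_option autoImplicit false

namespace Pool.Agent.Lib.MP_efe3d7_co.D

open H

/-- A range of tables. -/
def ra516_7 : ℕ × ℕ × ℕ :=
  (58123087930888129467517984631811969432229639361576439988433610796128943505536,
   7399926323179492847532459962722095864542982785130275349757267255383576789004213435462993578779723073610722303981889891960334479666519201240316537747907247144410579072,
   3649039671530850364496896397354903509511773432070188939643841572209358580465778357012324226146591275696847451757519171377440371236015578756108191632319730709214049337480627253511779934950142557832525803385277355866931971035209809796194279164253914210047470077097006011932816102662562714578514145688577578310728236850653753910887670364634626002738972745738615533917254942933323668328115929315016717211947701853876792521756881971768191665611117314745078121082119028169620185414659116548368856330975823996013861211899163760996506932617384000787892611329740297735348162162435042510931080344699414701925720971325653846121669632551765012073561862325545231486787622598505614932015544720795435794419103809579487834346865441499251220407642393983583662487538883544124056250221501316366464)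

theorem xa516_7 : J.certXR ⟨true, false, false, false, false, false⟩ ka516 ca516
    ra516_7.1 ra516_7.2.1 ra516_7.2.2 = true := by
  decide +kernel

end Pool.Agent.Lib.MP_efe3d7_co.D
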