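import Pool.Agent.Lib.MP_efe3d7_co.D.Xa516_0
import Pool.Agent.Lib.MP_efe3d7_co.D.Xa516_1
import Pool.Agent.Lib.MP_efe3d7_co.D.Xa516_2
import Pool.Agent.Lib.MP_efe3d7_co.D.Xa516_3
import Pool.Agent.Lib.MP_efe3d7_co.D.Xa516_4
import Pool.Agent.Lib.MP_efe3d7_co.D.Xa516_5
import Pool.Agent.Lib.MP_efe3d7_co.D.Xa516_6
import Pool.Agent.Lib.MP_efe3d7_co.D.Xa516_7
import Pool.Agent.Lib.MP_efe3d7_co.D.E0
import Pool.Agent.Lib.MP_efe3d7_co.D.E1
import Pool.Agent.Lib.MP_efe3d7_co.D.E2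
import Pool.Agent.Lib.MP_efe3d7_co.D.E3
import Pool.Agent.Lib.MP_efe3d7_co.D.E4
import Pool.Agent.Lib.MP_efe3d7_co.D.E5
import Pool.Agent.Lib.MP_efe3d7_co.D.E6
import Pool.Agent.Lib.MP_efe3d7_co.D.E7
import Pool.Agent.Lib.MP_efe3d7_co.D.E8
import Pool.Agent.Lib.MP_efe3d7_co.D.E9
import Pool.Agent.Lib.MP_efe3d7_co.D.E10
import Pool.Agent.Lib.MP_efe3d7_co.D.E11
import Pool.Agent.Lib.MP_efe3d7_co.D.E12
import Pool.Agent.Lib.MP_efe3d7_co.D.E13
import Pool.Agent.Lib.MP_efe3d7_co.D.E14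
import Pool.Agent.Lib.MP_efe3d7_co.D.E15
import Pool.Agent.Lib.MP_efe3d7_co.D.Tb0
import Pool.Agent.Lib.MP_efe3d7_co.D.Tb1
import Pool.Agent.Lib.MP_efe3d7_co.D.Tb2
import Pool.Agent.Lib.MP_efe3d7_co.D.Tb3
import Pool.Agent.Lib.MP_efe3d7_co.D.Tb4
import Pool.Agent.Lib.MP_efe3d7_co.D.Tb5
import Pool.Agent.Lib.MP_efe3d7_co.D.Tb6
import Pool.Agent.Lib.MP_efe3d7_co.D.Tb7
import Pool.Agent.Lib.MP_efe3d7_co.D.Tb8
import Pool.Agent.Lib.MP_efe3d7_co.D.Tb9
import Pool.Agent.Lib.MP_efe3d7_co.J.Crt3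

/-! All entries of the table are valid. -/

set_option autoImplicit false

namespace Pool.Agent.Lib.MP_efe3d7_co.D

open H

variable {α : Type} [Fintype α] [DecidableEq α] {x : ℝ}

theorem vu0 (_hI : J.Iv x) (_hK : J.HK α x) : J.VU α x tL 0 := J.VU.zero tL

theorem nl : false = true → J.Valid α x J.mQ J.kL := nofun

theorem vu20 (hI : J.Iv x) (hK : J.HK α x) : J.VU α x tL 20 :=
  (vu0 hI hK).app
    (.cons (J.cert3_sound hI hK nl sa492 ea492)
    (.cons (J.cert3_sound hI hK nl sc39 ec39)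
    (.cons (J.cert3_sound hI hK nl sd361 ed361)
    (.cons (J.cert3_sound hI hK nl sg496 eg496)
    (.cons (J.cert3_sound hI hK nl sw360 ew360)
    (.cons (J.cert3_sound hI hK nl sw747 ew747)
    (.cons (J.cert3_sound hI hK nl sw172 ew172)
    (.cons (J.cert3_sound hI hK nl sw356 ew356)
    (.cons (J.cert3_sound hI hK nl sd370 ed370)
    (.cons (J.cert3_sound hI hK nl sk1231 ek1231)
    (.cons (J.cert3_sound hI hK nl sw854 ew854)
    (.cons (J.cert3_sound hI hK nl sc685 ec685)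
    (.cons (J.cert3_sound hI hK nl sb99 eb99)
    (.cons (J.cert3_sound hI hK nl sa101 ea101)
    (.cons (J.cert3_sound hI hK nl sb243 eb243)
    (.cons (J.cert3_sound hI hK nl sd248 ed248)
    (.cons (J.cert3_sound hI hK nl sa31 ea31)
    (.cons (J.cert3_sound hI hK nl sa383 ea383)
    (.cons (J.cert3_sound hI hK nl sa724 ea724)
    (.cons (J.cert3_sound hI hK nl sk632 ek632)
    .nil)))))))))))))))))))) (by decide +kernel)

theorem vu40 (hI : J.Iv x) (hK : J.HK α x) : J.VU α x tL 40 :=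
  (vu20 hI hK).app
    (.cons (J.cert3_sound hI hK nl sh1026 eh1026)
    (.cons (J.cert3_sound hI hK nl sw315 ew315)
    (.cons (J.cert3_sound hI hK nl sh449 eh449)
    (.cons (J.cert3_sound hI hK nl sh418 eh418)
    (.cons (J.cert3_sound hI hK nl sw232 ew232)
    (.cons (J.cert3_sound hI hK nl sq136 eq136)
    (.cons (J.cert3_sound hI hK nl sc201 ec201)
    (.cons (J.cert3_sound hI hK nl sc556 ec556)
    (.cons (J.cert3_sound hI hK nl sa570 ea570)
    (.cons (J.cert3_sound hI hK nl sa756 ea756)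
    (.cons (J.cert3_sound hI hK nl sd176 ed176)
    (.cons (J.cert3_sound hI hK nl sc106 ec106)
    (.cons (J.cert3_sound hI hK nl sh308 eh308)
    (.cons (J.cert3_sound hI hK nl sa172 ea172)
    (.cons (J.cert3_sound hI hK nl sk970 ek970)
    (.cons (J.cert3_sound hI hK nl sk853 ek853)
    (.cons (J.cert3_sound hI hK nl sw1014 ew1014)
    (.cons (J.cert3_sound hI hK nl sk4104 ek4104)
    (.cons (J.cert3_sound hI hK nl sg604 eg604)
    (.cons (J.cert3_sound hI hK nl sg368 eg368)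
    .nil)))))))))))))))))))) (by decide +kernel)

theorem vu60 (hI : J.Iv x) (hK : J.HK α x) : J.VU α x tL 60 :=
  (vu40 hI hK).app
    (.cons (J.cert3_sound hI hK nl sh390 eh390)
    (.cons (J.cert3_sound hI hK nl sd156 ed156)
    (.cons (J.cert3_sound hI hK nl sd84 ed84)
    (.cons (J.cert3_sound hI hK nl sx201 ex201)
    (.cons (J.cert3_sound hI hK nl sw482 ew482)
    (.cons (J.cert3_sound hI hK nl sw588 ew588)
    (.cons (J.cert3_sound hI hK nl sa158 ea158)
    (.cons (J.cert3_sound hI hK nl sw983 ew983)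
    (.cons (J.cert3_sound hI hK nl sp536 ep536)
    (.cons (J.cert3_sound hI hK nl sH48 eH48)
    (.cons (J.cert3_sound hI hK nl sg613 eg613)
    (.cons (J.cert3_sound hI hK nl sd273 ed273)
    (.cons (J.cert3_sound hI hK nl sh998 eh998)
    (.cons (J.cert3_sound hI hK nl sd85 ed85)
    (.cons (J.cert3_sound hI hK nl sB16 eB16)
    (.cons (J.cert3_sound hI hK nl sw986 ew986)
    (.cons (J.cert3_sound hI hK nl sc129 ec129)
    (.cons (J.cert3_sound hI hK nl sw861 ew861)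
    (.cons (J.cert3_sound hI hK nl sa405 ea405)
    (.cons (J.cert3_sound hI hK nl sd469 ed469)
    .nil)))))))))))))))))))) (by decide +kernel)

theorem vu80 (hI : J.Iv x) (hK : J.HK α x) : J.VU α x tL 80 :=
  (vu60 hI hK).app
    (.cons (J.cert3_sound hI hK nl sk191 ek191)
    (.cons (J.cert3_sound hI hK nl sa126 ea126)
    (.cons (J.cert3_sound hI hK nl sh1019 eh1019)
    (.cons (J.cert3_sound hI hK nl sd12 ed12)
    (.cons (J.cert3_sound hI hK nl sq615 eq615)
    (.cons (J.cert3_sound hI hK nl sd264 ed264)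
    (.cons (J.cert3_sound hI hK nl sc87 ec87)
    (.cons (J.cert3_sound hI hK nl sa757 ea757)
    (.cons (J.cert3_sound hI hK nl sh1014 eh1014)
    (.cons (J.cert3_sound hI hK nl sc583 ec583)
    (.cons (J.cert3_sound hI hK nl sa765 ea765)
    (.cons (J.cert3_sound hI hK nl sa766 ea766)
    (.cons (J.cert3_sound hI hK nl sw461 ew461)
    (.cons (J.cert3_sound hI hK nl sc364 ec364)
    (.cons (J.cert3_sound hI hK nl sa99 ea99)
    (.cons (J.cert3_sound hI hK nl sd94 ed94)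
    (.cons (J.cert3_sound hI hK nl sI14 eI14)
    (.cons (J.cert3_sound hI hK nl sH52 eH52)
    (.cons (J.cert3_sound hI hK nl sw638 ew638)
    (.cons (J.cert3_sound hI hK nl sa53 ea53)
    .nil)))))))))))))))))))) (by decide +kernel)

theorem vu100 (hI : J.Iv x) (hK : J.HK α x) : J.VU α x tL 100 :=
  (vu80 hI hK).app
    (.cons (J.cert3_sound hI hK nl sb162 eb162)
    (.cons (J.cert3_sound hI hK nl sh845 eh845)
    (.cons (J.cert3_sound hI hK nl sd11 ed11)
    (.cons (J.cert3_sound hI hK nl sa7 ea7)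
    (.cons (J.cert3_sound hI hK nl sd145 ed145)
    (.cons (J.cert3_sound hI hK nl sa144 ea144)
    (.cons (J.cert3_sound hI hK nl sa222 ea222)
    (.cons (J.cert3_sound hI hK nl sb245 eb245)
    (.cons (J.cert3_sound hI hK nl sd311 ed311)
    (.cons (J.cert3_sound hI hK nl sw145 ew145)
    (.cons (J.cert3_sound hI hK nl sa252 ea252)
    (.cons (J.cert3_sound hI hK nl sy220 ey220)
    (.cons (J.cert3_sound hI hK nl sa620 ea620)
    (.cons (J.cert3_sound hI hK nl sq432 eq432)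
    (.cons (J.cert3_sound hI hK nl sd6 ed6)
    (.cons (J.cert3_sound hI hK nl sg626 eg626)
    (.cons (J.cert3_sound hI hK nl sk923 ek923)
    (.cons (J.cert3_sound hI hK nl sc413 ec413)
    (.cons (J.cert3_sound hI hK nl sb453 eb453)
    (.cons (J.cert3_sound hI hK nl sc16 ec16)
    .nil)))))))))))))))))))) (by decide +kernel)

theorem vu120 (hI : J.Iv x) (hK : J.HK α x) : J.VU α x tL 120 :=
  (vu100 hI hK).app
    (.cons (J.cert3_sound hI hK nl sa510 ea510)
    (.cons (J.cert3_sound hI hK nl sw162 ew162)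
    (.cons (J.cert3_sound hI hK nl sw254 ew254)
    (.cons (J.cert3_sound hI hK nl sa92 ea92)
    (.cons (J.cert3_sound hI hK nl sk152 ek152)
    (.cons (J.cert3_sound hI hK nl se72 ee72)
    (.cons (J.cert3_sound hI hK nl sw40 ew40)
    (.cons (J.cert3_sound hI hK nl sm552 em552)
    (.cons (J.cert3_sound hI hK nl sc112 ec112)
    (.cons (J.cert3_sound hI hK nl sk4505 ek4505)
    (.cons (J.cert3_sound hI hK nl sc250 ec250)
    (.cons (J.cert3_sound hI hK nl sw1067 ew1067)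
    (.cons (J.cert3_sound hI hK nl sB14 eB14)
    (.cons (J.cert3_sound hI hK nl sk1577 ek1577)
    (.cons (J.cert3_sound hI hK nl sk633 ek633)
    (.cons (J.cert3_sound hI hK nl sw328 ew328)
    (.cons (J.cert3_sound hI hK nl sd53 ed53)
    (.cons (J.cert3_sound hI hK nl sm634 em634)
    (.cons (J.cert3_sound hI hK nl sc29 ec29)
    (.cons (J.cert3_sound hI hK nl sg369 eg369)
    .nil)))))))))))))))))))) (by decide +kernel)

theorem vu140 (hI : J.Iv x) (hK : J.HK α x) : J.VU α x tL 140 :=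
  (vu120 hI hK).app
    (.cons (J.cert3_sound hI hK nl sc540 ec540)
    (.cons (J.cert3_sound hI hK nl sh407 eh407)
    (.cons (J.cert3_sound hI hK nl sb143 eb143)
    (.cons (J.cert3_sound hI hK nl sd306 ed306)
    (.cons (J.cert3_sound hI hK nl sq104 eq104)
    (.cons (J.cert3_sound hI hK nl sd178 ed178)
    (.cons (J.cert3_sound hI hK nl sc18 ec18)
    (.cons (J.cert3_sound hI hK nl sa468 ea468)
    (.cons (J.cert3_sound hI hK nl sg411 eg411)
    (.cons (J.cert3_sound hI hK nl sd372 ed372)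
    (.cons (J.cert3_sound hI hK nl sB27 eB27)
    (.cons (J.cert3_sound hI hK nl sh419 eh419)
    (.cons (J.cert3_sound hI hK nl sc508 ec508)
    (.cons (J.cert3_sound hI hK nl sb167 eb167)
    (.cons (J.cert3_sound hI hK nl sa433 ea433)
    (.cons (J.cert3_sound hI hK nl sa521 ea521)
    (.cons (J.cert3_sound hI hK nl sd296 ed296)
    (.cons (J.cert3_sound hI hK nl sc595 ec595)
    (.cons (J.cert3_sound hI hK nl sd49 ed49)
    (.cons (J.cert3_sound hI hK nl sw173 ew173)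
    .nil)))))))))))))))))))) (by decide +kernel)

theorem vu160 (hI : J.Iv x) (hK : J.HK α x) : J.VU α x tL 160 :=
  (vu140 hI hK).app
    (.cons (J.cert3_sound hI hK nl sw522 ew522)
    (.cons (J.cert3_sound hI hK nl sd367 ed367)
    (.cons (J.cert3_sound hI hK nl sw981 ew981)
    (.cons (J.cert3_sound hI hK nl sd384 ed384)
    (.cons (J.cert3_sound hI hK nl sq547 eq547)
    (.cons (J.cert3_sound hI hK nl sa426 ea426)
    (.cons (J.cert3_sound hI hK nl sm3833 em3833)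
    (.cons (J.cert3_sound hI hK nl sg217 eg217)
    (.cons (J.cert3_sound hI hK nl sa13 ea13)
    (.cons (J.cert3_sound hI hK nl sg665 eg665)
    (.cons (J.cert3_sound hI hK nl sc59 ec59)
    (.cons (J.cert3_sound hI hK nl sb475 eb475)
    (.cons (J.cert3_sound hI hK nl sd385 ed385)
    (.cons (J.cert3_sound hI hK nl sw329 ew329)
    (.cons (J.cert3_sound hI hK nl sa637 ea637)
    (.cons (J.cert3_sound hI hK nl sg600 eg600)
    (.cons (J.cert3_sound hI hK nl sw1046 ew1046)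
    (.cons (J.cert3_sound hI hK nl sa44 ea44)
    (.cons (J.cert3_sound hI hK nl sa449 ea449)
    (.cons (J.cert3_sound hI hK nl sc60 ec60)
    .nil)))))))))))))))))))) (by decide +kernel)

theorem vu180 (hI : J.Iv x) (hK : J.HK α x) : J.VU α x tL 180 :=
  (vu160 hI hK).app
    (.cons (J.cert3_sound hI hK nl sd2 ed2)
    (.cons (J.cert3_sound hI hK nl sw640 ew640)
    (.cons (J.cert3_sound hI hK nl sc268 ec268)
    (.cons (J.cert3_sound hI hK nl sw450 ew450)
    (.cons (J.cert3_sound hI hK nl sc589 ec589)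
    (.cons (J.cert3_sound hI hK nl sa124 ea124)
    (.cons (J.cert3_sound hI hK nl sZ0 eZ0)
    (.cons (J.cert3_sound hI hK nl sg113 eg113)
    (.cons (J.cert3_sound hI hK nl sd1 ed1)
    (.cons (J.cert3_sound hI hK nl sg367 eg367)
    (.cons (J.cert3_sound hI hK nl sw892 ew892)
    (.cons (J.cert3_sound hI hK nl sa404 ea404)
    (.cons (J.cert3_sound hI hK nl sh433 eh433)
    (.cons (J.cert3_sound hI hK nl sc15 ec15)
    (.cons (J.cert3_sound hI hK nl sd201 ed201)
    (.cons (J.cert3_sound hI hK nl sm436 em436)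
    (.cons (J.cert3_sound hI hK nl sd322 ed322)
    (.cons (J.cert3_sound hI hK nl sd330 ed330)
    (.cons (J.cert3_sound hI hK nl sw987 ew987)
    (.cons (J.cert3_sound hI hK nl sa127 ea127)
    .nil)))))))))))))))))))) (by decide +kernel)

theorem vu200 (hI : J.Iv x) (hK : J.HK α x) : J.VU α x tL 200 :=
  (vu180 hI hK).app
    (.cons (J.cert3_sound hI hK nl sw869 ew869)
    (.cons (J.cert3_sound hI hK nl sc411 ec411)
    (.cons (J.cert3_sound hI hK nl sI0 eI0)
    (.cons (J.cert3_sound hI hK nl sb173 eb173)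
    (.cons (J.cert3_sound hI hK nl sc69 ec69)
    (.cons (J.cert3_sound hI hK nl sa171 ea171)
    (.cons (J.cert3_sound hI hK nl sc216 ec216)
    (.cons (J.cert3_sound hI hK nl sd249 ed249)
    (.cons (J.cert3_sound hI hK nl sd154 ed154)
    (.cons (J.cert3_sound hI hK nl sh657 eh657)
    (.cons (J.cert3_sound hI hK nl sh274 eh274)
    (.cons (J.cert3_sound hI hK nl sw996 ew996)
    (.cons (J.cert3_sound hI hK nl sc494 ec494)
    (.cons (J.cert3_sound hI hK nl sc594 ec594)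
    (.cons (J.cert3_sound hI hK nl sh887 eh887)
    (.cons (J.cert3_sound hI hK nl sh374 eh374)
    (.cons (J.cert3_sound hI hK nl sH22 eH22)
    (.cons (J.cert3_sound hI hK nl sa105 ea105)
    (.cons (J.cert3_sound hI hK nl sa945 ea945)
    (.cons (J.cert3_sound hI hK nl sb112 eb112)
    .nil)))))))))))))))))))) (by decide +kernel)

theorem vu220 (hI : J.Iv x) (hK : J.HK α x) : J.VU α x tL 220 :=
  (vu200 hI hK).app
    (.cons (J.cert3_sound hI hK nl sw689 ew689)
    (.cons (J.cert3_sound hI hK nl sc497 ec497)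
    (.cons (J.cert3_sound hI hK nl sf629 ef629)
    (.cons (J.cert3_sound hI hK nl sd295 ed295)
    (.cons (J.cert3_sound hI hK nl sd301 ed301)
    (.cons (J.cert3_sound hI hK nl sw358 ew358)
    (.cons (J.cert3_sound hI hK nl sa713 ea713)
    (.cons (J.cert3_sound hI hK nl sd90 ed90)
    (.cons (J.cert3_sound hI hK nl sq441 eq441)
    (.cons (J.cert3_sound hI hK nl sw147 ew147)
    (.cons (J.cert3_sound hI hK nl sw156 ew156)
    (.cons (J.cert3_sound hI hK nl sc362 ec362)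
    (.cons (J.cert3_sound hI hK nl sk4151 ek4151)
    (.cons (J.cert3_sound hI hK nl sd364 ed364)
    (.cons (J.cert3_sound hI hK nl sa67 ea67)
    (.cons (J.cert3_sound hI hK nl sq395 eq395)
    (.cons (J.cert3_sound hI hK nl sc365 ec365)
    (.cons (J.cert3_sound hI hK nl sa368 ea368)
    (.cons (J.cert3_sound hI hK nl sa38 ea38)
    (.cons (J.cert3_sound hI hK nl sa123 ea123)
    .nil)))))))))))))))))))) (by decide +kernel)

theorem vu240 (hI : J.Iv x) (hK : J.HK α x) : J.VU α x tL 240 :=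
  (vu220 hI hK).app
    (.cons (J.cert3_sound hI hK nl sk657 ek657)
    (.cons (J.cert3_sound hI hK nl sk302 ek302)
    (.cons (J.cert3_sound hI hK nl sa549 ea549)
    (.cons (J.cert3_sound hI hK nl sa715 ea715)
    (.cons (J.cert3_sound hI hK nl sa21 ea21)
    (.cons (J.cert3_sound hI hK nl sa178 ea178)
    (.cons (J.cert3_sound hI hK nl sc0 ec0)
    (.cons (J.cert3_sound hI hK nl sm412 em412)
    (.cons (J.cert3_sound hI hK nl sm1372 em1372)
    (.cons (J.cert3_sound hI hK nl sg722 eg722)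
    (.cons (J.cert3_sound hI hK nl sm446 em446)
    (.cons (J.cert3_sound hI hK nl sk322 ek322)
    (.cons (J.cert3_sound hI hK nl sB19 eB19)
    (.cons (J.cert3_sound hI hK nl sk295 ek295)
    (.cons (J.cert3_sound hI hK nl sa679 ea679)
    (.cons (J.cert3_sound hI hK nl sd136 ed136)
    (.cons (J.cert3_sound hI hK nl sa726 ea726)
    (.cons (J.cert3_sound hI hK nl sa173 ea173)
    (.cons (J.cert3_sound hI hK nl sq164 eq164)
    (.cons (J.cert3_sound hI hK nl sk748 ek748)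
    .nil)))))))))))))))))))) (by decide +kernel)

theorem vu260 (hI : J.Iv x) (hK : J.HK α x) : J.VU α x tL 260 :=
  (vu240 hI hK).app
    (.cons (J.cert3_sound hI hK nl sc320 ec320)
    (.cons (J.cert3_sound hI hK nl sb3 eb3)
    (.cons (J.cert3_sound hI hK nl sw475 ew475)
    (.cons (J.cert3_sound hI hK nl sd300 ed300)
    (.cons (J.cert3_sound hI hK nl sd5 ed5)
    (.cons (J.cert3_sound hI hK nl sa746 ea746)
    (.cons (J.cert3_sound hI hK nl sq139 eq139)
    (.cons (J.cert3_sound hI hK nl sA403 eA403)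
    (.cons (J.cert3_sound hI hK nl sd292 ed292)
    (.cons (J.cert3_sound hI hK nl sq565 eq565)
    (.cons (J.cert3_sound hI hK nl sa387 ea387)
    (.cons (J.cert3_sound hI hK nl sa140 ea140)
    (.cons (J.cert3_sound hI hK nl sm981 em981)
    (.cons (J.cert3_sound hI hK nl sa467 ea467)
    (.cons (J.cert3_sound hI hK nl sh391 eh391)
    (.cons (J.cert3_sound hI hK nl sB2 eB2)
    (.cons (J.cert3_sound hI hK nl sa568 ea568)
    (.cons (J.cert3_sound hI hK nl sa550 ea550)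
    (.cons (J.cert3_sound hI hK nl sh654 eh654)
    (.cons (J.cert3_sound hI hK nl sb476 eb476)
    .nil)))))))))))))))))))) (by decide +kernel)

theorem vu280 (hI : J.Iv x) (hK : J.HK α x) : J.VU α x tL 280 :=
  (vu260 hI hK).app
    (.cons (J.cert3_sound hI hK nl sw585 ew585)
    (.cons (J.cert3_sound hI hK nl sk271 ek271)
    (.cons (J.cert3_sound hI hK nl sm1082 em1082)
    (.cons (J.cert3_sound hI hK nl sc5 ec5)
    (.cons (J.cert3_sound hI hK nl sx463 ex463)
    (.cons (J.cert3_sound hI hK nl sh808 eh808)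
    (.cons (J.cert3_sound hI hK nl sm2086 em2086)
    (.cons (J.cert3_sound hI hK nl sd253 ed253)
    (.cons (J.cert3_sound hI hK nl sw344 ew344)
    (.cons (J.cert3_sound hI hK nl sb67 eb67)
    (.cons (J.cert3_sound hI hK nl sw554 ew554)
    (.cons (J.cert3_sound hI hK nl sb101 eb101)
    (.cons (J.cert3_sound hI hK nl sd87 ed87)
    (.cons (J.cert3_sound hI hK nl sd337 ed337)
    (.cons (J.cert3_sound hI hK nl sw343 ew343)
    (.cons (J.cert3_sound hI hK nl sh929 eh929)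
    (.cons (J.cert3_sound hI hK nl sa482 ea482)
    (.cons (J.cert3_sound hI hK nl sa530 ea530)
    (.cons (J.cert3_sound hI hK nl sg207 eg207)
    (.cons (J.cert3_sound hI hK nl sk1423 ek1423)
    .nil)))))))))))))))))))) (by decide +kernel)

theorem vu300 (hI : J.Iv x) (hK : J.HK α x) : J.VU α x tL 300 :=
  (vu280 hI hK).app
    (.cons (J.cert3_sound hI hK nl sw639 ew639)
    (.cons (J.cert3_sound hI hK nl sa12 ea12)
    (.cons (J.cert3_sound hI hK nl sf446 ef446)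
    (.cons (J.cert3_sound hI hK nl sa66 ea66)
    (.cons (J.cert3_sound hI hK nl sm560 em560)
    (.cons (J.cert3_sound hI hK nl sa596 ea596)
    (.cons (J.cert3_sound hI hK nl sB32 eB32)
    (.cons (J.cert3_sound hI hK nl sg662 eg662)
    (.cons (J.cert3_sound hI hK nl sa8 ea8)
    (.cons (J.cert3_sound hI hK nl sa547 ea547)
    (.cons (J.cert3_sound hI hK nl sh1020 eh1020)
    (.cons (J.cert3_sound hI hK nl sk944 ek944)
    (.cons (J.cert3_sound hI hK nl sd373 ed373)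
    (.cons (J.cert3_sound hI hK nl sd210 ed210)
    (.cons (J.cert3_sound hI hK nl sk1115 ek1115)
    (.cons (J.cert3_sound hI hK nl sw313 ew313)
    (.cons (J.cert3_sound hI hK nl sa14 ea14)
    (.cons (J.cert3_sound hI hK nl sm444 em444)
    (.cons (J.cert3_sound hI hK nl sd250 ed250)
    (.cons (J.cert3_sound hI hK nl sk4492 ek4492)
    .nil)))))))))))))))))))) (by decide +kernel)

theorem vu320 (hI : J.Iv x) (hK : J.HK α x) : J.VU α x tL 320 :=
  (vu300 hI hK).app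
    (.cons (J.cert3_sound hI hK nl sc240 ec240)
    (.cons (J.cert3_sound hI hK nl sc319 ec319)
    (.cons (J.cert3_sound hI hK nl sa193 ea193)
    (.cons (J.cert3_sound hI hK nl sa110 ea110)
    (.cons (J.cert3_sound hI hK nl sd137 ed137)
    (.cons (J.cert3_sound hI hK nl sb139 eb139)
    (.cons (J.cert3_sound hI hK nl sw1044 ew1044)
    (.cons (J.cert3_sound hI hK nl sq130 eq130)
    (.cons (J.cert3_sound hI hK nl sc588 ec588)
    (.cons (J.cert3_sound hI hK nl sd303 ed303)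
    (.cons (J.cert3_sound hI hK nl sw149 ew149)
    (.cons (J.cert3_sound hI hK nl sf124 ef124)
    (.cons (J.cert3_sound hI hK nl sB28 eB28)
    (.cons (J.cert3_sound hI hK nl sd305 ed305)
    (.cons (J.cert3_sound hI hK nl sq424 eq424)
    (.cons (J.cert3_sound hI hK nl sH0 eH0)
    (.cons (J.cert3_sound hI hK nl sa100 ea100)
    (.cons (J.cert3_sound hI hK nl sk3513 ek3513)
    (.cons (J.cert3_sound hI hK nl sw634 ew634)
    (.cons (J.cert3_sound hI hK nl sd468 ed468)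
    .nil)))))))))))))))))))) (by decide +kernel)

theorem vu340 (hI : J.Iv x) (hK : J.HK α x) : J.VU α x tL 340 :=
  (vu320 hI hK).app
    (.cons (J.cert3_sound hI hK nl sH28 eH28)
    (.cons (J.cert3_sound hI hK nl sc288 ec288)
    (.cons (J.cert3_sound hI hK nl sw411 ew411)
    (.cons (J.cert3_sound hI hK nl sc709 ec709)
    (.cons (J.cert3_sound hI hK nl sf168 ef168)
    (.cons (J.cert3_sound hI hK nl sw192 ew192)
    (.cons (J.cert3_sound hI hK nl sb16 eb16)
    (.cons (J.cert3_sound hI hK nl sa339 ea339)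
    (.cons (J.cert3_sound hI hK nl sa648 ea648)
    (.cons (J.cert3_sound hI hK nl sd50 ed50)
    (.cons (J.cert3_sound hI hK nl sa43 ea43)
    (.cons (J.cert3_sound hI hK nl sw244 ew244)
    (.cons (J.cert3_sound hI hK nl sa253 ea253)
    (.cons (J.cert3_sound hI hK nl sc253 ec253)
    (.cons (J.cert3_sound hI hK nl sc293 ec293)
    (.cons (J.cert3_sound hI hK nl sc228 ec228)
    (.cons (J.cert3_sound hI hK nl sd163 ed163)
    (.cons (J.cert3_sound hI hK nl sa400 ea400)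
    (.cons (J.cert3_sound hI hK nl sd265 ed265)
    (.cons (J.cert3_sound hI hK nl sw694 ew694)
    .nil)))))))))))))))))))) (by decide +kernel)

theorem vu360 (hI : J.Iv x) (hK : J.HK α x) : J.VU α x tL 360 :=
  (vu340 hI hK).app
    (.cons (J.cert3_sound hI hK nl sd329 ed329)
    (.cons (J.cert3_sound hI hK nl sm1402 em1402)
    (.cons (J.cert3_sound hI hK nl sa567 ea567)
    (.cons (J.cert3_sound hI hK nl sc17 ec17)
    (.cons (J.cert3_sound hI hK nl sb90 eb90)
    (.cons (J.cert3_sound hI hK nl sa444 ea444)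
    (.cons (J.cert3_sound hI hK nl sb249 eb249)
    (.cons (J.cert3_sound hI hK nl sa233 ea233)
    (.cons (J.cert3_sound hI hK nl sd16 ed16)
    (.cons (J.cert3_sound hI hK nl sd378 ed378)
    (.cons (J.cert3_sound hI hK nl sd138 ed138)
    (.cons (J.cert3_sound hI hK nl sd13 ed13)
    (.cons (J.cert3_sound hI hK nl sa677 ea677)
    (.cons (J.cert3_sound hI hK nl sd155 ed155)
    (.cons (J.cert3_sound hI hK nl sw325 ew325)
    (.cons (J.cert3_sound hI hK nl sa629 ea629)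
    (.cons (J.cert3_sound hI hK nl sd461 ed461)
    (.cons (J.cert3_sound hI hK nl sa0 ea0)
    (.cons (J.cert3_sound hI hK nl sa185 ea185)
    (.cons (J.cert3_sound hI hK nl sw705 ew705)
    .nil)))))))))))))))))))) (by decide +kernel)

theorem vu378 (hI : J.Iv x) (hK : J.HK α x) : J.VU α x tL 378 :=
  (vu360 hI hK).app
    (.cons (J.cert3_sound hI hK nl sw948 ew948)
    (.cons (J.cert3_sound hI hK nl sq605 eq605)
    (.cons (J.cert3_sound hI hK nl sb251 eb251)
    (.cons (J.cert3_sound hI hK nl sw858 ew858)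
    (.cons (J.cert3_sound hI hK nl sm417 em417)
    (.cons (J.cert3_sound hI hK nl sd75 ed75)
    (.cons (J.cert3_sound hI hK nl sw1089 ew1089)
    (.cons (J.cert3_sound hI hK nl sc469 ec469)
    (.cons (J.cert3_sound hI hK nl sa1 ea1)
    (.cons (J.cert3_sound hI hK nl sd309 ed309)
    (.cons (J.cert3_sound hI hK nl sc501 ec501)
    (.cons (J.cert3_sound hI hK nl sc10 ec10)
    (.cons (J.cert3_sound hI hK nl sc398 ec398)
    (.cons (J.cert3_sound hI hK nl sa54 ea54)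
    (.cons (J.cert3_sound hI hK nl sd290 ed290)
    (.cons (J.cert3_sound hI hK nl sm2132 em2132)
    (.cons (J.cert3_sound hI hK nl sm490 em490)
    (.cons (J.certR3_sound hI hK nl sa516 ea516
      [ra516_0, ra516_1, ra516_2, ra516_3, ra516_4, ra516_5, ra516_6, ra516_7] (by decide +kernel)
      (List.forall_mem_cons.2 ⟨xa516_0, List.forall_mem_cons.2 ⟨xa516_1, List.forall_mem_cons.2 ⟨xa516_2, List.forall_mem_cons.2 ⟨xa516_3, List.forall_mem_cons.2 ⟨xa516_4, List.forall_mem_cons.2 ⟨xa516_5, List.forall_mem_cons.2 ⟨xa516_6, List.forall_mem_cons.2 ⟨xa516_7, fun _ h => nomatch h⟩⟩⟩⟩⟩⟩⟩⟩))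
    .nil)))))))))))))))))) (by decide +kernel)

theorem vu379 (hI : J.Iv x) (hK : J.HK α x) : J.VU α x tL 379 :=
  (vu378 hI hK).base hI hK (j := 11) (σ := 3) (by decide +kernel)

theorem vu405 (hI : J.Iv x) (hK : J.HK α x) : J.VU α x tL 405 :=
  J.chkL_sound tL tr379 379 tc379 (vu379 hI hK)

theorem vu434 (hI : J.Iv x) (hK : J.HK α x) : J.VU α x tL 434 :=
  J.chkL_sound tL tr405 405 tc405 (vu405 hI hK)

theorem vu457 (hI : J.Iv x) (hK : J.HK α x) : J.VU α x tL 457 :=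
  J.chkL_sound tL tr434 434 tc434 (vu434 hI hK)

theorem vu484 (hI : J.Iv x) (hK : J.HK α x) : J.VU α x tL 484 :=
  J.chkL_sound tL tr457 457 tc457 (vu457 hI hK)

theorem vu514 (hI : J.Iv x) (hK : J.HK α x) : J.VU α x tL 514 :=
  J.chkL_sound tL tr484 484 tc484 (vu484 hI hK)

theorem vu542 (hI : J.Iv x) (hK : J.HK α x) : J.VU α x tL 542 :=
  J.chkL_sound tL tr514 514 tc514 (vu514 hI hK)

theorem vu567 (hI : J.Iv x) (hK : J.HK α x) : J.VU α x tL 567 :=
  J.chkL_sound tL tr542 542 tc542 (vu542 hI hK)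

theorem vu592 (hI : J.Iv x) (hK : J.HK α x) : J.VU α x tL 592 :=
  J.chkL_sound tL tr567 567 tc567 (vu567 hI hK)

theorem vu618 (hI : J.Iv x) (hK : J.HK α x) : J.VU α x tL 618 :=
  J.chkL_sound tL tr592 592 tc592 (vu592 hI hK)

theorem vu649 (hI : J.Iv x) (hK : J.HK α x) : J.VU α x tL 649 :=
  J.chkL_sound tL tr618 618 tc618 (vu618 hI hK)

theorem vu675 (hI : J.Iv x) (hK : J.HK α x) : J.VU α x tL 675 :=
  J.chkL_sound tL tr649 649 tc649 (vu649 hI hK)

theorem vu701 (hI : J.Iv x) (hK : J.HK α x) : J.VU α x tL 701 :=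
  J.chkL_sound tL tr675 675 tc675 (vu675 hI hK)

theorem vu733 (hI : J.Iv x) (hK : J.HK α x) : J.VU α x tL 733 :=
  J.chkL_sound tL tr701 701 tc701 (vu701 hI hK)

theorem vu766 (hI : J.Iv x) (hK : J.HK α x) : J.VU α x tL 766 :=
  J.chkL_sound tL tr733 733 tc733 (vu733 hI hK)

theorem vu797 (hI : J.Iv x) (hK : J.HK α x) : J.VU α x tL 797 :=
  J.chkL_sound tL tr766 766 tc766 (vu766 hI hK)

theorem vu826 (hI : J.Iv x) (hK : J.HK α x) : J.VU α x tL 826 :=
  J.chkL_sound tL tr797 797 tc797 (vu797 hI hK)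

theorem vu854 (hI : J.Iv x) (hK : J.HK α x) : J.VU α x tL 854 :=
  J.chkL_sound tL tr826 826 tc826 (vu826 hI hK)

theorem vu882 (hI : J.Iv x) (hK : J.HK α x) : J.VU α x tL 882 :=
  J.chkL_sound tL tr854 854 tc854 (vu854 hI hK)

theorem vu910 (hI : J.Iv x) (hK : J.HK α x) : J.VU α x tL 910 :=
  J.chkL_sound tL tr882 882 tc882 (vu882 hI hK)

theorem vu940 (hI : J.Iv x) (hK : J.HK α x) : J.VU α x tL 940 :=
  J.chkL_sound tL tr910 910 tc910 (vu910 hI hK)

theorem vu971 (hI : J.Iv x) (hK : J.HK α x) : J.VU α x tL 971 :=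
  J.chkL_sound tL tr940 940 tc940 (vu940 hI hK)

theorem vu1000 (hI : J.Iv x) (hK : J.HK α x) : J.VU α x tL 1000 :=
  J.chkL_sound tL tr971 971 tc971 (vu971 hI hK)

theorem vu1029 (hI : J.Iv x) (hK : J.HK α x) : J.VU α x tL 1029 :=
  J.chkL_sound tL tr1000 1000 tc1000 (vu1000 hI hK)

theorem vu1056 (hI : J.Iv x) (hK : J.HK α x) : J.VU α x tL 1056 :=
  J.chkL_sound tL tr1029 1029 tc1029 (vu1029 hI hK)

theorem vu1085 (hI : J.Iv x) (hK : J.HK α x) : J.VU α x tL 1085 :=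
  J.chkL_sound tL tr1056 1056 tc1056 (vu1056 hI hK)

theorem vu1113 (hI : J.Iv x) (hK : J.HK α x) : J.VU α x tL 1113 :=
  J.chkL_sound tL tr1085 1085 tc1085 (vu1085 hI hK)

theorem vu1145 (hI : J.Iv x) (hK : J.HK α x) : J.VU α x tL 1145 :=
  J.chkL_sound tL tr1113 1113 tc1113 (vu1113 hI hK)

theorem vu1177 (hI : J.Iv x) (hK : J.HK α x) : J.VU α x tL 1177 :=
  J.chkL_sound tL tr1145 1145 tc1145 (vu1145 hI hK)

theorem vu1202 (hI : J.Iv x) (hK : J.HK α x) : J.VU α x tL 1202 :=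
  J.chkL_sound tL tr1177 1177 tc1177 (vu1177 hI hK)

theorem vu1231 (hI : J.Iv x) (hK : J.HK α x) : J.VU α x tL 1231 :=
  J.chkL_sound tL tr1202 1202 tc1202 (vu1202 hI hK)

theorem vu1255 (hI : J.Iv x) (hK : J.HK α x) : J.VU α x tL 1255 :=
  J.chkL_sound tL tr1231 1231 tc1231 (vu1231 hI hK)

theorem vu1283 (hI : J.Iv x) (hK : J.HK α x) : J.VU α x tL 1283 :=
  J.chkL_sound tL tr1255 1255 tc1255 (vu1255 hI hK)

theorem vu1309 (hI : J.Iv x) (hK : J.HK α x) : J.VU α x tL 1309 :=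
  J.chkL_sound tL tr1283 1283 tc1283 (vu1283 hI hK)

theorem vu1334 (hI : J.Iv x) (hK : J.HK α x) : J.VU α x tL 1334 :=
  J.chkL_sound tL tr1309 1309 tc1309 (vu1309 hI hK)

theorem vu1360 (hI : J.Iv x) (hK : J.HK α x) : J.VU α x tL 1360 :=
  J.chkL_sound tL tr1334 1334 tc1334 (vu1334 hI hK)

theorem vu1387 (hI : J.Iv x) (hK : J.HK α x) : J.VU α x tL 1387 :=
  J.chkL_sound tL tr1360 1360 tc1360 (vu1360 hI hK)

theorem vu1414 (hI : J.Iv x) (hK : J.HK α x) : J.VU α x tL 1414 :=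
  J.chkL_sound tL tr1387 1387 tc1387 (vu1387 hI hK)

theorem vu1442 (hI : J.Iv x) (hK : J.HK α x) : J.VU α x tL 1442 :=
  J.chkL_sound tL tr1414 1414 tc1414 (vu1414 hI hK)

theorem vu1465 (hI : J.Iv x) (hK : J.HK α x) : J.VU α x tL 1465 :=
  J.chkL_sound tL tr1442 1442 tc1442 (vu1442 hI hK)

theorem vu1496 (hI : J.Iv x) (hK : J.HK α x) : J.VU α x tL 1496 :=
  J.chkL_sound tL tr1465 1465 tc1465 (vu1465 hI hK)

theorem vu1527 (hI : J.Iv x) (hK : J.HK α x) : J.VU α x tL 1527 :=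
  J.chkL_sound tL tr1496 1496 tc1496 (vu1496 hI hK)

theorem vu1555 (hI : J.Iv x) (hK : J.HK α x) : J.VU α x tL 1555 :=
  J.chkL_sound tL tr1527 1527 tc1527 (vu1527 hI hK)

theorem vu1578 (hI : J.Iv x) (hK : J.HK α x) : J.VU α x tL 1578 :=
  J.chkL_sound tL tr1555 1555 tc1555 (vu1555 hI hK)

theorem vu1604 (hI : J.Iv x) (hK : J.HK α x) : J.VU α x tL 1604 :=
  J.chkL_sound tL tr1578 1578 tc1578 (vu1578 hI hK)

theorem vu1632 (hI : J.Iv x) (hK : J.HK α x) : J.VU α x tL 1632 :=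
  J.chkL_sound tL tr1604 1604 tc1604 (vu1604 hI hK)

theorem vu1659 (hI : J.Iv x) (hK : J.HK α x) : J.VU α x tL 1659 :=
  J.chkL_sound tL tr1632 1632 tc1632 (vu1632 hI hK)

theorem vu1682 (hI : J.Iv x) (hK : J.HK α x) : J.VU α x tL 1682 :=
  J.chkL_sound tL tr1659 1659 tc1659 (vu1659 hI hK)

theorem vu1708 (hI : J.Iv x) (hK : J.HK α x) : J.VU α x tL 1708 :=
  J.chkL_sound tL tr1682 1682 tc1682 (vu1682 hI hK)

theorem vu1737 (hI : J.Iv x) (hK : J.HK α x) : J.VU α x tL 1737 :=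
  J.chkL_sound tL tr1708 1708 tc1708 (vu1708 hI hK)

theorem vu1767 (hI : J.Iv x) (hK : J.HK α x) : J.VU α x tL 1767 :=
  J.chkL_sound tL tr1737 1737 tc1737 (vu1737 hI hK)

theorem vu1795 (hI : J.Iv x) (hK : J.HK α x) : J.VU α x tL 1795 :=
  J.chkL_sound tL tr1767 1767 tc1767 (vu1767 hI hK)

theorem vu1805 (hI : J.Iv x) (hK : J.HK α x) : J.VU α x tL 1805 :=
  J.chkL_sound tL tr1795 1795 tc1795 (vu1795 hI hK)

theorem l3 (hI : J.Iv x) (hK : J.HK α x) (_ : true = true) : J.Valid α x J.mQ J.kL :=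
  (vu1805 hI hK).root (j := 1011) (σ := 12816) (by decide +kernel)

theorem vu1825 (hI : J.Iv x) (hK : J.HK α x) : J.VU α x tL 1825 :=
  (vu1805 hI hK).app
    (.cons (J.cert3_sound hI hK (l3 hI hK) sw1047 ew1047)
    (.cons (J.cert3_sound hI hK (l3 hI hK) sw929 ew929)
    (.cons (J.cert3_sound hI hK (l3 hI hK) sq255 eq255)
    (.cons (J.cert3_sound hI hK (l3 hI hK) sq35 eq35)
    (.cons (J.cert3_sound hI hK (l3 hI hK) sI1 eI1)
    (.cons (J.cert3_sound hI hK (l3 hI hK) sH60 eH60)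
    (.cons (J.cert3_sound hI hK (l3 hI hK) sI19 eI19)
    (.cons (J.cert3_sound hI hK (l3 hI hK) sD148 eD148)
    (.cons (J.cert3_sound hI hK (l3 hI hK) sq661 eq661)
    (.cons (J.cert3_sound hI hK (l3 hI hK) sw1021 ew1021)
    (.cons (J.cert3_sound hI hK (l3 hI hK) sH50 eH50)
    (.cons (J.cert3_sound hI hK (l3 hI hK) sw1100 ew1100)
    (.cons (J.cert3_sound hI hK (l3 hI hK) sH59 eH59)
    (.cons (J.cert3_sound hI hK (l3 hI hK) sq322 eq322)
    (.cons (J.cert3_sound hI hK (l3 hI hK) sy57 ey57)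
    (.cons (J.cert3_sound hI hK (l3 hI hK) sw460 ew460)
    (.cons (J.cert3_sound hI hK (l3 hI hK) sw794 ew794)
    (.cons (J.cert3_sound hI hK (l3 hI hK) sw662 ew662)
    (.cons (J.cert3_sound hI hK (l3 hI hK) sw504 ew504)
    (.cons (J.cert3_sound hI hK (l3 hI hK) sw1144 ew1144)
    .nil)))))))))))))))))))) (by decide +kernel)

theorem vu1845 (hI : J.Iv x) (hK : J.HK α x) : J.VU α x tL 1845 :=
  (vu1825 hI hK).app
    (.cons (J.cert3_sound hI hK (l3 hI hK) sI15 eI15)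
    (.cons (J.cert3_sound hI hK (l3 hI hK) sw1138 ew1138)
    (.cons (J.cert3_sound hI hK (l3 hI hK) sy324 ey324)
    (.cons (J.cert3_sound hI hK (l3 hI hK) sH23 eH23)
    (.cons (J.cert3_sound hI hK (l3 hI hK) sw1131 ew1131)
    (.cons (J.cert3_sound hI hK (l3 hI hK) sq19 eq19)
    (.cons (J.cert3_sound hI hK (l3 hI hK) sw1097 ew1097)
    (.cons (J.cert3_sound hI hK (l3 hI hK) sw1136 ew1136)
    (.cons (J.cert3_sound hI hK (l3 hI hK) sw1063 ew1063)
    (.cons (J.cert3_sound hI hK (l3 hI hK) sq241 eq241)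
    (.cons (J.cert3_sound hI hK (l3 hI hK) sD13 eD13)
    (.cons (J.cert3_sound hI hK (l3 hI hK) sH46 eH46)
    (.cons (J.cert3_sound hI hK (l3 hI hK) sH10 eH10)
    (.cons (J.cert3_sound hI hK (l3 hI hK) sI17 eI17)
    (.cons (J.cert3_sound hI hK (l3 hI hK) sq637 eq637)
    (.cons (J.cert3_sound hI hK (l3 hI hK) sI16 eI16)
    (.cons (J.cert3_sound hI hK (l3 hI hK) sI27 eI27)
    (.cons (J.cert3_sound hI hK (l3 hI hK) sI26 eI26)
    (.cons (J.cert3_sound hI hK (l3 hI hK) sx0 ex0)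
    (.cons (J.cert3_sound hI hK (l3 hI hK) sw667 ew667)
    .nil)))))))))))))))))))) (by decide +kernel)

theorem vu1865 (hI : J.Iv x) (hK : J.HK α x) : J.VU α x tL 1865 :=
  (vu1845 hI hK).app
    (.cons (J.cert3_sound hI hK (l3 hI hK) sw212 ew212)
    (.cons (J.cert3_sound hI hK (l3 hI hK) sy405 ey405)
    (.cons (J.cert3_sound hI hK (l3 hI hK) sw1148 ew1148)
    (.cons (J.cert3_sound hI hK (l3 hI hK) sq258 eq258)
    (.cons (J.cert3_sound hI hK (l3 hI hK) sw1032 ew1032)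
    (.cons (J.cert3_sound hI hK (l3 hI hK) sC12 eC12)
    (.cons (J.cert3_sound hI hK (l3 hI hK) sw1029 ew1029)
    (.cons (J.cert3_sound hI hK (l3 hI hK) sw750 ew750)
    (.cons (J.cert3_sound hI hK (l3 hI hK) sw1153 ew1153)
    (.cons (J.cert3_sound hI hK (l3 hI hK) sw413 ew413)
    (.cons (J.cert3_sound hI hK (l3 hI hK) sq68 eq68)
    (.cons (J.cert3_sound hI hK (l3 hI hK) sI2 eI2)
    (.cons (J.cert3_sound hI hK (l3 hI hK) sw1139 ew1139)
    (.cons (J.cert3_sound hI hK (l3 hI hK) sq17 eq17)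
    (.cons (J.cert3_sound hI hK (l3 hI hK) sw410 ew410)
    (.cons (J.cert3_sound hI hK (l3 hI hK) sy288 ey288)
    (.cons (J.cert3_sound hI hK (l3 hI hK) sw1142 ew1142)
    (.cons (J.cert3_sound hI hK (l3 hI hK) sy26 ey26)
    (.cons (J.cert3_sound hI hK (l3 hI hK) sq325 eq325)
    (.cons (J.cert3_sound hI hK (l3 hI hK) sq6 eq6)
    .nil)))))))))))))))))))) (by decide +kernel)

theorem vu1871 (hI : J.Iv x) (hK : J.HK α x) : J.VU α x tL 1871 :=
  (vu1865 hI hK).app
    (.cons (J.cert3_sound hI hK (l3 hI hK) sH19 eH19)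
    (.cons (J.cert3_sound hI hK (l3 hI hK) sH83 eH83)
    (.cons (J.cert3_sound hI hK (l3 hI hK) sw852 ew852)
    (.cons (J.cert3_sound hI hK (l3 hI hK) sw416 ew416)
    (.cons (J.cert3_sound hI hK (l3 hI hK) sw1037 ew1037)
    (.cons (J.cert3_sound hI hK (l3 hI hK) sq125 eq125)
    .nil)))))) (by decide +kernel)

theorem vu1901 (hI : J.Iv x) (hK : J.HK α x) : J.VU α x tL 1901 :=
  J.chkL_sound tL tr1871 1871 tc1871 (vu1871 hI hK)

theorem vu1926 (hI : J.Iv x) (hK : J.HK α x) : J.VU α x tL 1926 :=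
  J.chkL_sound tL tr1901 1901 tc1901 (vu1901 hI hK)

theorem vu1951 (hI : J.Iv x) (hK : J.HK α x) : J.VU α x tL 1951 :=
  J.chkL_sound tL tr1926 1926 tc1926 (vu1926 hI hK)

theorem vu1976 (hI : J.Iv x) (hK : J.HK α x) : J.VU α x tL 1976 :=
  J.chkL_sound tL tr1951 1951 tc1951 (vu1951 hI hK)

theorem vu2003 (hI : J.Iv x) (hK : J.HK α x) : J.VU α x tL 2003 :=
  J.chkL_sound tL tr1976 1976 tc1976 (vu1976 hI hK)

theorem vu2027 (hI : J.Iv x) (hK : J.HK α x) : J.VU α x tL 2027 :=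
  J.chkL_sound tL tr2003 2003 tc2003 (vu2003 hI hK)

theorem vu2056 (hI : J.Iv x) (hK : J.HK α x) : J.VU α x tL 2056 :=
  J.chkL_sound tL tr2027 2027 tc2027 (vu2027 hI hK)

theorem vu2075 (hI : J.Iv x) (hK : J.HK α x) : J.VU α x tL 2075 :=
  J.chkL_sound tL tr2056 2056 tc2056 (vu2056 hI hK)

theorem vu2102 (hI : J.Iv x) (hK : J.HK α x) : J.VU α x tL 2102 :=
  J.chkL_sound tL tr2075 2075 tc2075 (vu2075 hI hK)

theorem vu2127 (hI : J.Iv x) (hK : J.HK α x) : J.VU α x tL 2127 :=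
  J.chkL_sound tL tr2102 2102 tc2102 (vu2102 hI hK)

theorem vu2154 (hI : J.Iv x) (hK : J.HK α x) : J.VU α x tL 2154 :=
  J.chkL_sound tL tr2127 2127 tc2127 (vu2127 hI hK)

theorem vu2179 (hI : J.Iv x) (hK : J.HK α x) : J.VU α x tL 2179 :=
  J.chkL_sound tL tr2154 2154 tc2154 (vu2154 hI hK)

theorem vu2201 (hI : J.Iv x) (hK : J.HK α x) : J.VU α x tL 2201 :=
  J.chkL_sound tL tr2179 2179 tc2179 (vu2179 hI hK)

theorem vu2233 (hI : J.Iv x) (hK : J.HK α x) : J.VU α x tL 2233 :=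
  J.chkL_sound tL tr2201 2201 tc2201 (vu2201 hI hK)

theorem vu2256 (hI : J.Iv x) (hK : J.HK α x) : J.VU α x tL 2256 :=
  J.chkL_sound tL tr2233 2233 tc2233 (vu2233 hI hK)

theorem vu2279 (hI : J.Iv x) (hK : J.HK α x) : J.VU α x tL 2279 :=
  J.chkL_sound tL tr2256 2256 tc2256 (vu2256 hI hK)

theorem vu2310 (hI : J.Iv x) (hK : J.HK α x) : J.VU α x tL 2310 :=
  J.chkL_sound tL tr2279 2279 tc2279 (vu2279 hI hK)

theorem vu2337 (hI : J.Iv x) (hK : J.HK α x) : J.VU α x tL 2337 :=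
  J.chkL_sound tL tr2310 2310 tc2310 (vu2310 hI hK)

theorem vu2363 (hI : J.Iv x) (hK : J.HK α x) : J.VU α x tL 2363 :=
  J.chkL_sound tL tr2337 2337 tc2337 (vu2337 hI hK)

theorem vu2392 (hI : J.Iv x) (hK : J.HK α x) : J.VU α x tL 2392 :=
  J.chkL_sound tL tr2363 2363 tc2363 (vu2363 hI hK)

theorem vu2418 (hI : J.Iv x) (hK : J.HK α x) : J.VU α x tL 2418 :=
  J.chkL_sound tL tr2392 2392 tc2392 (vu2392 hI hK)

theorem vu2450 (hI : J.Iv x) (hK : J.HK α x) : J.VU α x tL 2450 :=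
  J.chkL_sound tL tr2418 2418 tc2418 (vu2418 hI hK)

theorem vu2476 (hI : J.Iv x) (hK : J.HK α x) : J.VU α x tL 2476 :=
  J.chkL_sound tL tr2450 2450 tc2450 (vu2450 hI hK)

theorem vu2504 (hI : J.Iv x) (hK : J.HK α x) : J.VU α x tL 2504 :=
  J.chkL_sound tL tr2476 2476 tc2476 (vu2476 hI hK)

theorem vu2522 (hI : J.Iv x) (hK : J.HK α x) : J.VU α x tL 2522 :=
  J.chkL_sound tL tr2504 2504 tc2504 (vu2504 hI hK)

theorem vu2544 (hI : J.Iv x) (hK : J.HK α x) : J.VU α x tL 2544 :=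
  J.chkL_sound tL tr2522 2522 tc2522 (vu2522 hI hK)

theorem vu2572 (hI : J.Iv x) (hK : J.HK α x) : J.VU α x tL 2572 :=
  J.chkL_sound tL tr2544 2544 tc2544 (vu2544 hI hK)

theorem roots (hI : J.Iv x) (hK : J.HK α x) : J.Roots α x where
  ra := (vu2572 hI hK).root (j := 759) (σ := 16) (by decide +kernel)
  rm := (vu2572 hI hK).root (j := 2571) (σ := 16) (by decide +kernel)
  rc := (vu2572 hI hK).root (j := 1549) (σ := 12816) (by decide +kernel)
  r4 := (vu2572 hI hK).root (j := 2434) (σ := 0) (by decide +kernel)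
  rs := (vu2572 hI hK).root (j := 1804) (σ := 0) (by decide +kernel)
  fm := (vu2572 hI hK).root (j := 1487) (σ := 16) (by decide +kernel)
  fc := (vu2572 hI hK).root (j := 1461) (σ := 12816) (by decide +kernel)

end Pool.Agent.Lib.MP_efe3d7_co.D
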