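import Pool.Agent.Lib.MP_efe3d7_co.D.Ca516

/-! Exceptional columns. -/

set_option autoImplicit false

namespace Pool.Agent.Lib.MP_efe3d7_co.D

open H

/-- A range of tables. -/
def ra516_0 : ℕ × ℕ × ℕ :=
  (116246175861776258935035969263623938864459278723152879976867221592257887011073,
   14799852646358985695064919925444191729085965570260550699514534510767153578008426870925987157559446147221444607963779783920668959333038402480633075495814494288821158145,
   28508122433834768472632003104335183668060729938048351090967512282885613909888893414158783016770244341381620716855618526386252900281371709032095247127497896165734760449067400418060780741797988733066607838947479342710406023712576639032767805970733704765995859977320359468225125802051271207644641763192012330552564350395732452428809924723708015646398224576082933858728554241666591158813405697773568103218341420733412441576225640404438997387586854021445922820954054907575157698552024348034131690085748624968858290717962216882785210411073312506155411026013596076057407516894023769616649065192964177358794695088481670672825544004310664156824702049418322120990528301550825116656371443131214342143899248512339748705834886261712900159434706202996747363183897527688469189454855479034113)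

theorem xa516_0 : J.certXR ⟨true, false, false, false, false, false⟩ ka516 ca516
    ra516_0.1 ra516_0.2.1 ra516_0.2.2 = true := by
  decide +kernel

end Pool.Agent.Lib.MP_efe3d7_co.D
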